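import Mathlib

/-!
Definitions for `MP_fcb106_co` (computable chain decompositions of computable posets): computable
posets, width, computable chains, and the finite chain decomposition game with set-valued colours.
-/

set_option autoImplicit false

namespace Pool.Agent.Helper3.DW

/-! ### computable partially ordered sets -/

/-- `P` with the relation `le` is a computable partially ordered set. -/
structure IsCompPoset (P : Set ℕ) (le : ℕ → ℕ → Prop) : Prop where
  mem : ComputablePred (fun n : ℕ => n ∈ P)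
  rel : ComputablePred (fun p : ℕ × ℕ => le p.1 p.2)
  sub : ∀ a b, le a b → a ∈ P ∧ b ∈ P
  refl : ∀ a ∈ P, le a a
  trans : ∀ a b c, le a b → le b c → le a c
  antisymm : ∀ a b, le a b → le b a → a = b

/-- The finite set `s` is an antichain. -/
def IsAnti (le : ℕ → ℕ → Prop) (s : Finset ℕ) : Prop :=
  ∀ a ∈ s, ∀ b ∈ s, a ≠ b → ¬ le a b

/-- The width (largest size of an antichain) of `P` is `w`. -/
structure HasWidth (P : Set ℕ) (le : ℕ → ℕ → Prop) (w : ℕ) : Prop where
  attained : ∃ s : Finset ℕ, (∀ a ∈ s, a ∈ P) ∧ IsAnti le s ∧ s.card = w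
  bound : ∀ s : Finset ℕ, (∀ a ∈ s, a ∈ P) → IsAnti le s → s.card ≤ w

/-- `C` is a computable chain of `P`. -/
structure IsCompChain (P : Set ℕ) (le : ℕ → ℕ → Prop) (C : Set ℕ) : Prop where
  sub : C ⊆ P
  comp : ComputablePred (fun n : ℕ => n ∈ C)
  chain : ∀ a ∈ C, ∀ b ∈ C, le a b ∨ le b a

/-- `P` is covered by `k` computable chains. -/
def CoveredBy (P : Set ℕ) (le : ℕ → ℕ → Prop) (k : ℕ) : Prop :=
  ∃ C : Fin k → Set ℕ, (∀ i, IsCompChain P le (C i)) ∧ P ⊆ ⋃ i, C i

/-- Every computable poset of width `w` is covered by `k` computable chains. -/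
def Suffices (w k : ℕ) : Prop :=
  ∀ (P : Set ℕ) (le : ℕ → ℕ → Prop), IsCompPoset P le → HasWidth P le w → CoveredBy P le k

/-! ### the game -/

/-- A point of a play: the set of the earlier points below it, the set of the earlier points above
it, and the set of its colours.  Points are numbered `0, 1, 2, …` in the order of presentation. -/
structure Mv where
  dn : Finset ℕ
  up : Finset ℕ
  col : Finset ℕ

/-- A position: the list of the points, the newest point first. -/
abbrev Ps := List Mv

/-- The strict order on the points of a position. -/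
def plt : Ps → ℕ → ℕ → Prop
  | [], _, _ => False
  | x :: P, i, j => plt P i j ∨ (j = P.length ∧ i ∈ x.dn) ∨ (i = P.length ∧ j ∈ x.up)

/-- The set of colours of a point. -/
def pcol : Ps → ℕ → Finset ℕ
  | [], _ => ∅
  | x :: P, i => if i = P.length then x.col else pcol P i

/-- The set of all colours of the points in `s`. -/
def colU (P : Ps) (s : Finset ℕ) : Finset ℕ := s.biUnion (pcol P)

/-- The set of all colours. -/
def cols (P : Ps) : Finset ℕ := colU P (Finset.range P.length)

/-- The position is a partial order of width at most `w`. -/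
structure Good (w : ℕ) (P : Ps) : Prop where
  lt_len : ∀ i j, plt P i j → i < P.length ∧ j < P.length
  irr : ∀ i, ¬ plt P i i
  trans : ∀ i j k, plt P i j → plt P j k → plt P i k
  width : ∀ s : Finset ℕ, (∀ i ∈ s, i < P.length) → (∀ i ∈ s, ∀ j ∈ s, ¬ plt P i j) →
    s.card ≤ w

/-- The position is a partial order of width at most `w`, every point has `m` colours, and
incomparable points have disjoint sets of colours. -/
structure Inv (w m : ℕ) (P : Ps) : Prop where
  good : Good w P
  card : ∀ i < P.length, (pcol P i).card = m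
  disj : ∀ i j, i < P.length → j < P.length → i ≠ j → ¬ plt P i j → ¬ plt P j i →
    Disjoint (pcol P i) (pcol P j)

/-- In the game on partial orders of width at most `w`, with `m` colours for every point, the
adversary can force a position with property `Q` from the position `P`. -/
inductive Force (w m : ℕ) (Q : Ps → Prop) : Ps → Prop
  | here (P : Ps) (h : Q P) : Force w m Q P
  | step (P : Ps) (D U : Finset ℕ) (hg : Good w (⟨D, U, ∅⟩ :: P))
      (h : ∀ A : Finset ℕ, A.card = m →
        (∀ i < P.length, i ∉ D → i ∉ U → Disjoint A (pcol P i)) →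
        Force w m Q (⟨D, U, A⟩ :: P)) : Force w m Q P

/-- The adversary can force `M` colours. -/
def FG (w m M : ℕ) : Prop := Force w m (fun P => M ≤ (cols P).card) []

/-! ### holes -/

/-- Translation of a finite set by `n`. -/
def sh (n : ℕ) (s : Finset ℕ) : Finset ℕ := s.image (fun i => n + i)

/-- The points of `R` are added to `P`, above `D`, below `U`, incomparable to the others. -/
def glue (P : Ps) (D U : Finset ℕ) (R : Ps) : Ps :=
  R.map (fun x => ⟨D ∪ sh P.length x.dn, U ∪ sh P.length x.up, x.col⟩) ++ P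

/-- `(D, U)` is a hole of capacity `j` in the position `P`, in the game of width `w`. -/
structure IsHole (w j : ℕ) (P : Ps) (D U : Finset ℕ) : Prop where
  dlen : ∀ d ∈ D, d < P.length
  ulen : ∀ u ∈ U, u < P.length
  down : ∀ a d, plt P a d → d ∈ D → a ∈ D
  up : ∀ u b, plt P u b → u ∈ U → b ∈ U
  lt : ∀ d ∈ D, ∀ u ∈ U, plt P d u
  cap : ∀ s : Finset ℕ, (∀ i ∈ s, i < P.length ∧ i ∉ D ∧ i ∉ U) →
    (∀ i ∈ s, ∀ j ∈ s, ¬ plt P i j) → s.card + j ≤ w

/-- The dual position. -/
def dual (P : Ps) : Ps := P.map (fun x => ⟨x.up, x.dn, x.col⟩)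

/-! ### families -/

/-- `Y` is a chain and an upset of `P` with at least `x` colours. -/
structure Fam (P : Ps) (Y : Finset ℕ) (x : ℕ) : Prop where
  len : ∀ y ∈ Y, y < P.length
  chain : ∀ y ∈ Y, ∀ z ∈ Y, y ≠ z → plt P y z ∨ plt P z y
  up : ∀ y ∈ Y, ∀ z, plt P y z → z ∈ Y
  size : x ≤ (colU P Y).card

/-- `Y` is a chain and a downset of `P` with at least `x` colours. -/
structure Maf (P : Ps) (Y : Finset ℕ) (x : ℕ) : Prop where
  len : ∀ y ∈ Y, y < P.length
  chain : ∀ y ∈ Y, ∀ z ∈ Y, y ≠ z → plt P y z ∨ plt P z y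
  down : ∀ y ∈ Y, ∀ z, plt P z y → z ∈ Y
  size : x ≤ (colU P Y).card

/-- Disjoint upper chains `Y 0, …, Y (w - 1)` with `m, 2 m, …, w m` colours. -/
def UGQ (w m : ℕ) (P : Ps) : Prop :=
  ∃ Y : ℕ → Finset ℕ, (∀ i < w, Fam P (Y i) ((i + 1) * m)) ∧
    ∀ i < w, ∀ j < w, i ≠ j → Disjoint (Y i) (Y j)

/-- Disjoint lower chains `Y 0, …, Y (w - 1)` with `m, 2 m, …, w m` colours. -/
def DGQ (w m : ℕ) (P : Ps) : Prop :=
  ∃ Y : ℕ → Finset ℕ, (∀ i < w, Maf P (Y i) ((i + 1) * m)) ∧
    ∀ i < w, ∀ j < w, i ≠ j → Disjoint (Y i) (Y j)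

end Pool.Agent.Helper3.DW
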