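import Pool.Agent.Helper3.DW.MStep

/-!
The quadratic lower bound for the game with `m` colours for every point.
-/

set_option autoImplicit false

namespace Pool.Agent.Helper3.DW

theorem fg_zero (w m : ℕ) : FG w m 0 := Force.here _ (Nat.zero_le _)

/-- For every `t` the adversary can force about `(1 - 1 / (2 t)) w ^ 2 m` colours. -/
theorem fg_quadratic {t m : ℕ} (ht : 1 ≤ t) (hm : 1 ≤ m) : ∀ w : ℕ, ∃ M, FG w m M ∧
    (2 * t - 1) * w ^ 2 * m ≤ 2 * t * M + 2 * t ^ 2 * w * m := by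
  intro w
  induction w with
  | zero => exact ⟨0, fg_zero 0 m, by simp⟩
  | succ w ih =>
    by_cases hw : t ≤ w + 1
    · obtain ⟨M, hM, hI⟩ := ih
      set X := ((t - 1) * (w + 1) + t * (w + 2 - t)) * m with hX
      have h1 : t * (X / t) ≤ X := Nat.mul_div_le X t
      have h2 : X < t * (X / t + 1) := Nat.lt_mul_div_succ X ht
      refine ⟨M + X / t, mstep hM ht hw h1, ?_⟩
      set K := X / t
      obtain ⟨t', rfl⟩ : ∃ t', t = t' + 1 := ⟨t - 1, by omega⟩
      obtain ⟨s, hs⟩ : ∃ s, w = t' + s := ⟨w - t', by omega⟩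
      subst hs
      have e1 : t' + 1 - 1 = t' := by omega
      have e2 : t' + s + 2 - (t' + 1) = s + 1 := by omega
      have e3 : 2 * (t' + 1) - 1 = 2 * t' + 1 := by omega
      rw [e1, e2] at hX
      rw [e3] at hI ⊢
      rw [hX] at h2
      nlinarith [h2, hI, Nat.mul_le_mul hm (Nat.zero_le t'), Nat.zero_le (t' * s * m),
        Nat.zero_le (t' * m), Nat.zero_le (s * m), Nat.mul_le_mul_left t' hm]
    · refine ⟨0, fg_zero _ m, ?_⟩
      have h1 : (2 * t - 1) * (w + 1) ≤ 2 * t * t := Nat.mul_le_mul (by omega) (by omega)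
      calc (2 * t - 1) * (w + 1) ^ 2 * m = ((2 * t - 1) * (w + 1)) * ((w + 1) * m) := by ring
        _ ≤ (2 * t * t) * ((w + 1) * m) := Nat.mul_le_mul_right _ h1
        _ = 2 * t * 0 + 2 * t ^ 2 * (w + 1) * m := by ring

end Pool.Agent.Helper3.DW
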