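import Pool.Agent.Helper3.DW.SGame

/-!
The long chain with constant colours, and general facts on the game with intervals.
-/

set_option autoImplicit false

namespace Pool.Agent.Helper3.DW

/-- Adding an interval. -/
theorem SV.add {l : List SE} (h : SV l) (a b : ℕ) (hab : a < b) {K : ℕ → ℕ → Prop}
    (hK : ∀ c d, SE.s c d ∈ l → K c d)
    (h1 : ∀ c d, K c d → ¬ (c = a ∧ d = b) ∧ ((c ≤ a ∧ d ≤ b) ∨ (a ≤ c ∧ b ≤ d)))
    (h2 : ∀ c d e f, K c d → K e f → (d = a → ¬ (e < a ∧ a < f)) ∧
      (c = b → ¬ (e < b ∧ b < f)) ∧ (d = e → ¬ (a < d ∧ d < b))) :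
    SV (SE.s a b :: l) := by
  have hm : ∀ c d, SE.s c d ∈ SE.s a b :: l → (c = a ∧ d = b) ∨ SE.s c d ∈ l := by
    intro c d h
    rcases List.mem_cons.1 h with h | h
    · left
      injection h with e1 e2
      exact ⟨e1, e2⟩
    · exact Or.inr h
  refine ⟨?_, ?_, ?_, ?_⟩
  · rw [List.nodup_cons]
    exact ⟨fun hn => (h1 a b (hK a b hn)).1 ⟨rfl, rfl⟩, h.nodup⟩
  · intro c d hcd
    rcases hm c d hcd with ⟨e1, e2⟩ | h'
    · omega
    · exact h.lt c d h'
  · intro c d e f hcd hef
    rcases hm c d hcd with ⟨e1, e2⟩ | h'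
    · rcases hm e f hef with ⟨e3, e4⟩ | h''
      · omega
      · have := (h1 e f (hK e f h'')).2
        omega
    · rcases hm e f hef with ⟨e3, e4⟩ | h''
      · have := (h1 c d (hK c d h')).2
        omega
      · exact h.nest c d e f h' h''
  · intro c d d' e f hcd hdd hef
    rcases hm c d hcd with ⟨e1, e2⟩ | h'
    · rcases hm d d' hdd with ⟨e3, e4⟩ | h''
      · omega
      · rcases hm e f hef with ⟨e5, e6⟩ | h'''
        · omega
        · have := (h2 d d' e f (hK _ _ h'') (hK _ _ h''')).2.1
          omega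
    · rcases hm d d' hdd with ⟨e3, e4⟩ | h''
      · rcases hm e f hef with ⟨e5, e6⟩ | h'''
        · omega
        · have := (h2 c d e f (hK _ _ h') (hK _ _ h''')).1
          omega
      · rcases hm e f hef with ⟨e5, e6⟩ | h'''
        · have := (h2 c d d d' (hK _ _ h') (hK _ _ h'')).2.2
          omega
        · exact h.strad c d d' e f h' h'' h'''

/-- The incomparability information of a move. -/
def Dis (L : List (SE × Finset ℕ)) (x : SE) (A : Finset ℕ) : Prop :=
  ∀ y C, (y, C) ∈ L → ¬ y.r x → ¬ x.r y → Disjoint A C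

theorem Dis.base {L : List (SE × Finset ℕ)} {a b : ℕ} {A : Finset ℕ}
    (h : Dis L (SE.s a b) A) {i : ℕ} {C : Finset ℕ} (hi : (SE.g i, C) ∈ L) (h1 : a ≤ i)
    (h2 : i < b) : Disjoint A C :=
  h _ _ hi (by simp only [SE.r]; omega) (by simp only [SE.r]; omega)

theorem Dis.left {L : List (SE × Finset ℕ)} {a b : ℕ} {A : Finset ℕ}
    (h : Dis L (SE.s a b) A) {c : ℕ} {C : Finset ℕ} (hi : (SE.s c a, C) ∈ L) (h1 : c < a) :
    Disjoint A C :=
  h _ _ hi (by simp only [SE.r]; omega) (by simp only [SE.r]; omega)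

theorem Dis.right {L : List (SE × Finset ℕ)} {a b : ℕ} {A : Finset ℕ}
    (h : Dis L (SE.s a b) A) {d : ℕ} {C : Finset ℕ} (hi : (SE.s b d, C) ∈ L) (h1 : a < b)
    (h2 : b < d) : Disjoint A C :=
  h _ _ hi (by simp only [SE.r]; omega) (by simp only [SE.r]; omega)

/-- The labels of a chain of length `N`. -/
def gl : ℕ → List SE
  | 0 => []
  | N + 1 => SE.g N :: gl N

theorem mem_gl {N i : ℕ} : SE.g i ∈ gl N ↔ i < N := by
  induction N with
  | zero => simp [gl]
  | succ N ih =>
    simp only [gl, List.mem_cons, SE.g.injEq, ih]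
    omega

theorem s_notMem_gl {N a b : ℕ} : SE.s a b ∉ gl N := by
  induction N with
  | zero => simp [gl]
  | succ N ih =>
    intro h
    simp only [gl, List.mem_cons] at h
    rcases h with h | h
    · cases h
    · exact ih h

theorem sv_gl (N : ℕ) : SV (gl N) := by
  refine ⟨?_, fun a b h => absurd h s_notMem_gl, fun a b c d h => absurd h s_notMem_gl,
    fun a b d e f h => absurd h s_notMem_gl⟩
  induction N with
  | zero => exact List.nodup_nil
  | succ N ih =>
    simp only [gl]
    rw [List.nodup_cons]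
    exact ⟨fun h => by have := mem_gl.1 h; omega, ih⟩

theorem chain_stage (m : ℕ) : ∀ N : ℕ, Force 2 m (fun P => ∃ L : List (SE × Finset ℕ),
    L.map Prod.fst = gl N ∧ (∀ y C, (y, C) ∈ L → C.card = m) ∧ P = toPs L) [] := by
  intro N
  induction N with
  | zero => exact Force.here _ ⟨[], rfl, by simp, rfl⟩
  | succ N ih =>
    refine ih.bind ?_
    rintro P ⟨L, hL, hC, rfl⟩
    refine lstep (SE.g N) ?_ ?_
    · rw [hL]
      exact sv_gl (N + 1)
    · intro A hA _
      refine Force.here _ ⟨(SE.g N, A) :: L, ?_, ?_, rfl⟩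
      · rw [List.map_cons, hL]
        rfl
      · intro y C h
        rcases List.mem_cons.1 h with h | h
        · obtain ⟨_, rfl⟩ := Prod.mk.inj h
          exact hA
        · exact hC y C h

/-- After a long chain there are `n` points of the chain with the same set of colours. -/
theorem base_stage {m M n : ℕ}
    (h : ∀ (L : List (SE × Finset ℕ)) (A : Finset ℕ) (c : ℕ → ℕ), SV (L.map Prod.fst) →
      A.card = m → (∀ k l, k < l → l < n → c k < c l) → (∀ k < n, (SE.g (c k), A) ∈ L) →
      (∀ a b, SE.s a b ∉ L.map Prod.fst) →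
      Force 2 m (fun P => M ≤ (cols P).card) (toPs L)) : FG 2 m M := by
  classical
  refine (chain_stage m (2 ^ M * n + 1)).bind ?_
  rintro P ⟨L, hL, hC, rfl⟩
  by_cases hM : M ≤ (cols (toPs L)).card
  · exact Force.here _ hM
  · push Not at hM
    have hf : ∀ i, ∃ A : Finset ℕ, i < 2 ^ M * n + 1 → (SE.g i, A) ∈ L := by
      intro i
      by_cases hi : i < 2 ^ M * n + 1
      · have : SE.g i ∈ L.map Prod.fst := by rw [hL]; exact mem_gl.2 hi
        obtain ⟨⟨y, A⟩, h1, h2⟩ := List.mem_map.1 this
        simp only at h2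
        subst h2
        exact ⟨A, fun _ => h1⟩
      · exact ⟨∅, fun h => absurd h hi⟩
    choose f hf using hf
    obtain ⟨A, _, hA⟩ := Finset.exists_lt_card_fiber_of_mul_lt_card_of_maps_to
      (s := Finset.range (2 ^ M * n + 1)) (t := (cols (toPs L)).powerset) (f := f) (n := n)
      (fun i hi => Finset.mem_powerset.2 (subset_cols (hf i (Finset.mem_range.1 hi)))) (by
        rw [Finset.card_powerset, Finset.card_range]
        have h1 : 2 ^ (cols (toPs L)).card ≤ 2 ^ M := Nat.pow_le_pow_right (by omega) hM.le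
        have h2 := Nat.mul_le_mul_right n h1
        omega)
    set T := (Finset.range (2 ^ M * n + 1)).filter (fun x => f x = A) with hT
    have hT' : n < T.card := hA
    have hmem : ∀ k : Fin T.card, T.orderEmbOfFin rfl k ∈ T := fun k =>
      Finset.orderEmbOfFin_mem T rfl k
    have hcol : ∀ i ∈ T, (SE.g i, A) ∈ L := by
      intro i hi
      obtain ⟨h1, h2⟩ := Finset.mem_filter.1 hi
      rw [← h2]
      exact hf i (Finset.mem_range.1 h1)
    refine h L A (fun k => if hk : k < T.card then T.orderEmbOfFin rfl ⟨k, hk⟩ else 0) ?_ ?_ ?_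
      ?_ ?_
    · rw [hL]; exact sv_gl _
    · exact hC _ _ (hcol _ (hmem ⟨0, by omega⟩))
    · intro k l hkl hl
      have h1 : k < T.card := by omega
      have h2 : l < T.card := by omega
      simp only [dif_pos h1, dif_pos h2]
      exact (T.orderEmbOfFin rfl).strictMono (by simpa using hkl)
    · intro k hk
      have h1 : k < T.card := by omega
      simp only [dif_pos h1]
      exact hcol _ (hmem _)
    · intro a b
      rw [hL]
      exact s_notMem_gl

end Pool.Agent.Helper3.DW
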