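import Pool.Agent.Helper3.DW.Strat

/-!
From a winning strategy against `K` colours to a computable poset which is not covered by `K`
computable chains.
-/

set_option autoImplicit false

namespace Pool.Agent.Helper3.DW

open Nat.Partrec (Code)
open Denumerable (ofNat)

theorem primrecPred_finite {α : Type*} [Primcodable α] {S : Set α} (h : S.Finite) :
    PrimrecPred (fun x => x ∈ S) := by
  classical
  induction S, h using Set.Finite.induction_on with
  | empty =>
    refine ⟨fun _ => isFalse (fun h => h), ?_⟩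
    exact (Primrec.const false).of_eq fun x => by simp
  | @insert a s _ _ ih =>
    exact (PrimrecPred.or (Primrec.eq.comp Primrec.id (Primrec.const a)) ih).of_eq fun x => by
      simp [Set.mem_insert_iff]

/-! ### the simulation -/

open Classical in
/-- One stage of the simulation in block `b`. -/
noncomputable def stp (w : ℕ) (S : Set (List ℕ)) (b s : ℕ) (x : List ℕ × List ℕ) :
    List ℕ × List ℕ :=
  @Option.casesOn ℕ (fun _ => List ℕ × List ℕ)
    (Code.evaln s (ofNat Code b) (w + Nat.pair b x.1.headI)) x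
    (fun c => if (c :: x.2) ∈ S then ((s + 1) :: x.1, c :: x.2) else x)

/-- The stages at which points were presented, and the history of colours. -/
noncomputable def sta (w : ℕ) (S : Set (List ℕ)) (b : ℕ) : ℕ → List ℕ × List ℕ
  | 0 => ([0], [])
  | s + 1 => stp w S b s (sta w S b s)

theorem primrec_sta (w : ℕ) {S : Set (List ℕ)} (hS : PrimrecPred (fun h => h ∈ S)) :
    Primrec (fun p : ℕ × ℕ => sta w S p.1 p.2) := by
  classical
  have h1 : Primrec₂ (fun (p : ℕ × ℕ) (q : ℕ × (List ℕ × List ℕ)) =>
      stp w S p.1 q.1 q.2) := by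
    have hb : Primrec (fun a : (ℕ × ℕ) × (ℕ × (List ℕ × List ℕ)) => a.1.1) :=
      Primrec.fst.comp Primrec.fst
    have hs : Primrec (fun a : (ℕ × ℕ) × (ℕ × (List ℕ × List ℕ)) => a.2.1) :=
      Primrec.fst.comp Primrec.snd
    have hx : Primrec (fun a : (ℕ × ℕ) × (ℕ × (List ℕ × List ℕ)) => a.2.2) :=
      Primrec.snd.comp Primrec.snd
    have ho : Primrec (fun a : (ℕ × ℕ) × (ℕ × (List ℕ × List ℕ)) =>
        Code.evaln a.2.1 (ofNat Code a.1.1) (w + Nat.pair a.1.1 a.2.2.1.headI)) :=
      Code.primrec_evaln.comp (Primrec.pair (Primrec.pair hs ((Primrec.ofNat Code).comp hb))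
        (Primrec.nat_add.comp (Primrec.const w) (Primrec₂.natPair.comp hb
          (Primrec.list_headI.comp (Primrec.fst.comp hx)))))
    have hg : Primrec₂ (fun (a : (ℕ × ℕ) × (ℕ × (List ℕ × List ℕ))) (c : ℕ) =>
        if (c :: a.2.2.2) ∈ S then ((a.2.1 + 1) :: a.2.2.1, c :: a.2.2.2) else a.2.2) := by
      have hc : Primrec (fun a : ((ℕ × ℕ) × (ℕ × (List ℕ × List ℕ))) × ℕ =>
          a.2 :: a.1.2.2.2) :=
        Primrec.list_cons.comp Primrec.snd (Primrec.snd.comp (hx.comp Primrec.fst))
      exact Primrec.ite (hS.comp hc)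
        (Primrec.pair (Primrec.list_cons.comp (Primrec.succ.comp (hs.comp Primrec.fst))
          (Primrec.fst.comp (hx.comp Primrec.fst))) hc) (hx.comp Primrec.fst)
    exact Primrec.option_casesOn ho hx hg
  have h2 := Primrec.nat_rec' (f := fun p : ℕ × ℕ => p.2)
    (g := fun _ : ℕ × ℕ => (([0], []) : List ℕ × List ℕ)) Primrec.snd (Primrec.const _) h1
  refine h2.of_eq fun p => ?_
  obtain ⟨b, s⟩ := p
  induction s with
  | zero => rfl
  | succ s ih =>
    simp only [sta] at ih ⊢
    rw [← ih]

section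

variable (w K : ℕ) (σ : List ℕ → Finset ℕ × Finset ℕ)

/-- The position with the pending point. -/
def full (h : List ℕ) : Ps := ⟨(σ h).1, (σ h).2, ∅⟩ :: posOf [] σ h

/-- The properties of the table of the strategy. -/
structure Tab (B : ℕ) : Prop where
  good : ∀ h, Rch K [] σ h → Good w (full σ h)
  bd : ∀ h, Rch K [] σ h → h.length ≤ B

/-- The reachable histories. -/
def RS : Set (List ℕ) := {h | Rch K [] σ h}

/-- The stages of presentation. -/
noncomputable def ids (b s : ℕ) : List ℕ := (sta w (RS K σ) b s).1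

/-- The history. -/
noncomputable def his (b s : ℕ) : List ℕ := (sta w (RS K σ) b s).2

/-- The number of the point presented at stage `s`. -/
noncomputable def idx (b t s : ℕ) : ℕ := (ids w K σ b t).reverse.idxOf s

/-- The relation between the points presented at the stages `s` and `s'`. -/
def rel (b t s s' : ℕ) : Prop :=
  plt (full σ (his w K σ b t)) (idx w K σ b t s) (idx w K σ b t s')

theorem full_length (h : List ℕ) : (full σ h).length = h.length + 1 := by
  simp [full, posOf_length]

variable {w K σ}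

theorem sta_zero (b : ℕ) : ids w K σ b 0 = [0] ∧ his w K σ b 0 = [] := ⟨rfl, rfl⟩

theorem sta_succ (b s : ℕ) :
    (ids w K σ b (s + 1) = ids w K σ b s ∧ his w K σ b (s + 1) = his w K σ b s) ∨
    ∃ c, Code.evaln s (ofNat Code b) (w + Nat.pair b (ids w K σ b s).headI) = some c ∧
      Rch K [] σ (c :: his w K σ b s) ∧ ids w K σ b (s + 1) = (s + 1) :: ids w K σ b s ∧
      his w K σ b (s + 1) = c :: his w K σ b s := by
  classical
  simp only [ids, his, sta, stp]
  cases h : Code.evaln s (ofNat Code b) (w + Nat.pair b (sta w (RS K σ) b s).1.headI) with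
  | none => exact Or.inl ⟨rfl, rfl⟩
  | some c =>
    by_cases h1 : (c :: (sta w (RS K σ) b s).2) ∈ RS K σ
    · right
      exact ⟨c, rfl, h1, by simp only [if_pos h1], by simp only [if_pos h1]⟩
    · left
      exact ⟨by simp only [if_neg h1], by simp only [if_neg h1]⟩

theorem sta_succ_of {b s c : ℕ}
    (h : Code.evaln s (ofNat Code b) (w + Nat.pair b (ids w K σ b s).headI) = some c)
    (h1 : Rch K [] σ (c :: his w K σ b s)) : his w K σ b (s + 1) = c :: his w K σ b s := by
  classical
  simp only [ids, his] at h h1 ⊢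
  simp only [sta, stp, h]
  have : (c :: (sta w (RS K σ) b s).2) ∈ RS K σ := h1
  rw [if_pos this]

theorem rch_his (b s : ℕ) : Rch K [] σ (his w K σ b s) := by
  induction s with
  | zero => exact Rch.nil
  | succ s ih =>
    rcases sta_succ (w := w) (K := K) (σ := σ) b s with ⟨_, h⟩ | ⟨c, _, h, _, h2⟩
    · rw [h]; exact ih
    · rw [h2]; exact h

theorem ids_length (b s : ℕ) : (ids w K σ b s).length = (his w K σ b s).length + 1 := by
  induction s with
  | zero => rfl
  | succ s ih =>
    rcases sta_succ (w := w) (K := K) (σ := σ) b s with ⟨h1, h⟩ | ⟨c, _, h, h1, h2⟩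
    · rw [h, h1]; exact ih
    · rw [h1, h2]
      simp [ih]

theorem ids_le {b s i : ℕ} (h : i ∈ ids w K σ b s) : i ≤ s := by
  induction s with
  | zero =>
    rw [(sta_zero b).1] at h
    simp at h
    omega
  | succ s ih =>
    rcases sta_succ (w := w) (K := K) (σ := σ) b s with ⟨h1, _⟩ | ⟨c, _, _, h1, _⟩
    · rw [h1] at h
      have := ih h
      omega
    · rw [h1] at h
      rcases List.mem_cons.1 h with h | h
      · omega
      · have := ih h
        omega

theorem ids_nodup (b s : ℕ) : (ids w K σ b s).Nodup := by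
  induction s with
  | zero =>
    rw [(sta_zero b).1]
    simp
  | succ s ih =>
    rcases sta_succ (w := w) (K := K) (σ := σ) b s with ⟨h1, _⟩ | ⟨c, _, _, h1, _⟩
    · rw [h1]; exact ih
    · rw [h1, List.nodup_cons]
      exact ⟨fun h => by have := ids_le h; omega, ih⟩

theorem mem_ids_succ {b s t : ℕ} (h : s ≤ t) :
    s ∈ ids w K σ b (t + 1) ↔ s ∈ ids w K σ b t := by
  rcases sta_succ (w := w) (K := K) (σ := σ) b t with ⟨h1, _⟩ | ⟨c, _, _, h1, _⟩
  · rw [h1]
  · rw [h1, List.mem_cons]
    constructor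
    · rintro (h | h)
      · omega
      · exact h
    · exact Or.inr

theorem mem_ids_iff {b s t : ℕ} (h : s ≤ t) : s ∈ ids w K σ b t ↔ s ∈ ids w K σ b s := by
  induction t, h using Nat.le_induction with
  | base => rfl
  | succ t ht ih => rw [mem_ids_succ ht, ih]

theorem mem_ids_self {b s t : ℕ} (h : s ∈ ids w K σ b t) : s ∈ ids w K σ b s :=
  (mem_ids_iff (ids_le h)).1 h

theorem idx_lt {b t s : ℕ} (h : s ∈ ids w K σ b t) :
    idx w K σ b t s < (his w K σ b t).length + 1 := by
  rw [← ids_length, ← List.length_reverse]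
  exact List.idxOf_lt_length_iff.2 (List.mem_reverse.2 h)

theorem idx_inj {b t s s' : ℕ} (h : s ∈ ids w K σ b t)
    (he : idx w K σ b t s = idx w K σ b t s') : s = s' :=
  (List.idxOf_inj (List.mem_reverse.2 h)).1 he

theorem idx_surj {b t i : ℕ} (h : i < (his w K σ b t).length + 1) :
    ∃ s ∈ ids w K σ b t, idx w K σ b t s = i := by
  rw [← ids_length, ← List.length_reverse] at h
  refine ⟨(ids w K σ b t).reverse[i], List.mem_reverse.1 (List.getElem_mem h), ?_⟩
  exact List.Nodup.idxOf_getElem (List.nodup_reverse.2 (ids_nodup b t)) i h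

theorem idx_succ {b t s : ℕ} (h : s ∈ ids w K σ b t) :
    idx w K σ b (t + 1) s = idx w K σ b t s := by
  rcases sta_succ (w := w) (K := K) (σ := σ) b t with ⟨h1, _⟩ | ⟨c, _, _, h1, _⟩
  · rw [idx, idx, h1]
  · rw [idx, idx, h1, List.reverse_cons]
    exact List.idxOf_append_of_mem (List.mem_reverse.2 h)

theorem head_mem (b t : ℕ) : (ids w K σ b t).headI ∈ ids w K σ b t := by
  have h := ids_length (w := w) (K := K) (σ := σ) b t
  cases hx : ids w K σ b t with
  | nil => rw [hx] at h; simp at h
  | cons a l => simp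

theorem idx_head (b t : ℕ) :
    idx w K σ b t (ids w K σ b t).headI = (his w K σ b t).length := by
  have h := ids_length (w := w) (K := K) (σ := σ) b t
  have hn := ids_nodup (w := w) (K := K) (σ := σ) b t
  rw [idx]
  cases hx : ids w K σ b t with
  | nil => rw [hx] at h; simp at h
  | cons a l =>
    rw [hx] at h hn
    rw [List.nodup_cons] at hn
    simp only [List.headI, List.reverse_cons]
    rw [List.idxOf_append_of_notMem (fun h => hn.1 (List.mem_reverse.1 h))]
    simp at h ⊢
    exact h

theorem good_posOf {B : ℕ} (hT : Tab w K σ B) {h : List ℕ} (hr : Rch K [] σ h) :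
    Good w (posOf [] σ h) := by
  cases hr with
  | nil => exact good_nil w
  | cons hh hc hl => exact (hT.good _ hh).col _

theorem rel_succ {b t s s' : ℕ} (h : s ∈ ids w K σ b t) (h' : s' ∈ ids w K σ b t) :
    rel w K σ b (t + 1) s s' ↔ rel w K σ b t s s' := by
  rw [rel, rel, idx_succ h, idx_succ h']
  rcases sta_succ (w := w) (K := K) (σ := σ) b t with ⟨_, h1⟩ | ⟨c, _, _, _, h1⟩
  · rw [h1]
  · rw [h1]
    have l1 := idx_lt h
    have l2 := idx_lt h'
    have e : (full σ (c :: his w K σ b t)) = ⟨(σ (c :: his w K σ b t)).1,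
        (σ (c :: his w K σ b t)).2, ∅⟩ :: ⟨(σ (his w K σ b t)).1, (σ (his w K σ b t)).2,
        {c}⟩ :: posOf [] σ (his w K σ b t) := rfl
    rw [e, plt_old (by simp [posOf_length]; omega) (by simp [posOf_length]; omega)]
    rfl

theorem rel_iff {b t t' s s' : ℕ} (h : s ∈ ids w K σ b t) (h' : s' ∈ ids w K σ b t)
    (ht : t ≤ t') : rel w K σ b t' s s' ↔ rel w K σ b t s s' := by
  induction t', ht using Nat.le_induction with
  | base => rfl
  | succ u hu ih =>
    rw [rel_succ ((mem_ids_iff ((ids_le h).trans hu)).2 (mem_ids_self h))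
      ((mem_ids_iff ((ids_le h').trans hu)).2 (mem_ids_self h')), ih]

end

/-! ### the poset -/

section

variable (w K : ℕ) (σ : List ℕ → Finset ℕ × Finset ℕ)

/-- The block of a point. -/
def bl (a : ℕ) : ℕ := (Nat.unpair (a - w)).1

/-- The stage of a point. -/
def sg (a : ℕ) : ℕ := (Nat.unpair (a - w)).2

/-- The points. -/
def memP (a : ℕ) : Prop := a < w ∨ sg w a ∈ ids w K σ (bl w a) (sg w a)

/-- The order. -/
def leP (a b : ℕ) : Prop :=
  (a < w ∧ a = b) ∨ (a < w ∧ w ≤ b ∧ memP w K σ b) ∨
    (w ≤ a ∧ w ≤ b ∧ memP w K σ a ∧ memP w K σ b ∧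
      (bl w a < bl w b ∨ (bl w a = bl w b ∧ (sg w a = sg w b ∨
        rel w K σ (bl w a) (max (sg w a) (sg w b)) (sg w a) (sg w b)))))

variable {w K σ}

theorem eq_of_blsg {a b : ℕ} (ha : w ≤ a) (hb : w ≤ b) (h1 : bl w a = bl w b)
    (h2 : sg w a = sg w b) : a = b := by
  have e1 : Nat.pair (bl w a) (sg w a) = a - w := Nat.pair_unpair _
  have e2 : Nat.pair (bl w b) (sg w b) = b - w := Nat.pair_unpair _
  rw [h1, h2, e2] at e1
  omega

theorem bl_add (b s : ℕ) : bl w (w + Nat.pair b s) = b := by
  simp [bl]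

theorem sg_add (b s : ℕ) : sg w (w + Nat.pair b s) = s := by
  simp [sg]

theorem primrec_bl (w : ℕ) : Primrec (bl w) :=
  Primrec.fst.comp (Primrec.unpair.comp (Primrec.nat_sub.comp Primrec.id (Primrec.const w)))

theorem primrec_sg (w : ℕ) : Primrec (sg w) :=
  Primrec.snd.comp (Primrec.unpair.comp (Primrec.nat_sub.comp Primrec.id (Primrec.const w)))

theorem primrec_memP {B : ℕ} (hT : Tab w K σ B) : PrimrecPred (memP w K σ) := by
  have hS : PrimrecPred (fun h => h ∈ RS K σ) := primrecPred_finite (rch_finite hT.bd)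
  have h1 := primrec_sta w hS
  have hids : Primrec (fun a => ids w K σ (bl w a) (sg w a)) :=
    Primrec.fst.comp (h1.comp (Primrec.pair (primrec_bl w) (primrec_sg w)))
  have h2 : PrimrecPred (fun a => (ids w K σ (bl w a) (sg w a)).idxOf (sg w a) <
      (ids w K σ (bl w a) (sg w a)).length) :=
    Primrec.nat_lt.comp (Primrec.list_idxOf.comp (primrec_sg w) hids)
      (Primrec.list_length.comp hids)
  refine (PrimrecPred.or (Primrec.nat_lt.comp Primrec.id (Primrec.const w)) h2).of_eq fun a => ?_
  rw [memP, List.idxOf_lt_length_iff]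
  rfl

/-- The finite table of the relation. -/
def TS (K : ℕ) (σ : List ℕ → Finset ℕ × Finset ℕ) : Set (List ℕ × ℕ × ℕ) :=
  {x | Rch K [] σ x.1 ∧ plt (full σ x.1) x.2.1 x.2.2}

theorem ts_finite {B : ℕ} (hT : Tab w K σ B) : (TS K σ).Finite := by
  have h1 := rch_finite hT.bd
  have h2 : ((RS K σ) ×ˢ ((Set.Iio (B + 1)) ×ˢ (Set.Iio (B + 1)))).Finite :=
    h1.prod ((Set.finite_Iio _).prod (Set.finite_Iio _))
  refine h2.subset ?_
  rintro ⟨h, i, j⟩ ⟨hr, hp⟩
  have h3 := (hT.good h hr).lt_len i j hp
  rw [full_length] at h3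
  have h4 := hT.bd h hr
  refine ⟨hr, ?_, ?_⟩
  · show i < B + 1
    omega
  · show j < B + 1
    omega

theorem primrec_leP {B : ℕ} (hT : Tab w K σ B) :
    PrimrecPred (fun p : ℕ × ℕ => leP w K σ p.1 p.2) := by
  have hS : PrimrecPred (fun h => h ∈ RS K σ) := primrecPred_finite (rch_finite hT.bd)
  have hTS : PrimrecPred (fun x => x ∈ TS K σ) := primrecPred_finite (ts_finite hT)
  have h1 := primrec_sta w hS
  have ha : Primrec (fun p : ℕ × ℕ => p.1) := Primrec.fst
  have hb : Primrec (fun p : ℕ × ℕ => p.2) := Primrec.snd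
  have hw : Primrec (fun _ : ℕ × ℕ => w) := Primrec.const w
  have bla := (primrec_bl w).comp ha
  have blb := (primrec_bl w).comp hb
  have sga := (primrec_sg w).comp ha
  have sgb := (primrec_sg w).comp hb
  have hm := Primrec.nat_max.comp sga sgb
  have hst := h1.comp (Primrec.pair bla hm)
  have hrev := Primrec.list_reverse.comp (Primrec.fst.comp hst)
  have hx := hTS.comp (Primrec.pair (Primrec.snd.comp hst)
    (Primrec.pair (Primrec.list_idxOf.comp sga hrev) (Primrec.list_idxOf.comp sgb hrev)))
  have p1 := PrimrecPred.and (Primrec.nat_lt.comp ha hw) (Primrec.eq.comp ha hb)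
  have p2 := PrimrecPred.and (Primrec.nat_lt.comp ha hw)
    (PrimrecPred.and (Primrec.nat_le.comp hw hb) ((primrec_memP hT).comp hb))
  have p3 := PrimrecPred.and (Primrec.nat_le.comp hw ha)
    (PrimrecPred.and (Primrec.nat_le.comp hw hb)
      (PrimrecPred.and ((primrec_memP hT).comp ha) (PrimrecPred.and ((primrec_memP hT).comp hb)
        (PrimrecPred.or (Primrec.nat_lt.comp bla blb)
          (PrimrecPred.and (Primrec.eq.comp bla blb)
            (PrimrecPred.or (Primrec.eq.comp sga sgb) hx))))))
  refine (PrimrecPred.or p1 (PrimrecPred.or p2 p3)).of_eq fun p => ?_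
  have key : ((sta w (RS K σ) (bl w p.1) (max (sg w p.1) (sg w p.2))).2,
      (sta w (RS K σ) (bl w p.1) (max (sg w p.1) (sg w p.2))).1.reverse.idxOf (sg w p.1),
      (sta w (RS K σ) (bl w p.1) (max (sg w p.1) (sg w p.2))).1.reverse.idxOf (sg w p.2)) ∈
        TS K σ ↔ rel w K σ (bl w p.1) (max (sg w p.1) (sg w p.2)) (sg w p.1) (sg w p.2) := by
    constructor
    · exact fun h => h.2
    · exact fun h => ⟨rch_his (w := w) _ _, h⟩
  rw [leP, ← key]

theorem memP_ids {a t : ℕ} (ha : w ≤ a) (h : memP w K σ a) (ht : sg w a ≤ t) :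
    sg w a ∈ ids w K σ (bl w a) t := by
  rcases h with h | h
  · omega
  · exact (mem_ids_iff ht).2 h

/-- The order in a block, at a late stage. -/
theorem rel_late {a b t : ℕ} (ha : w ≤ a) (hb : w ≤ b) (hma : memP w K σ a)
    (hmb : memP w K σ b) (he : bl w a = bl w b) (hta : sg w a ≤ t) (htb : sg w b ≤ t) :
    rel w K σ (bl w a) (max (sg w a) (sg w b)) (sg w a) (sg w b) ↔
      rel w K σ (bl w a) t (sg w a) (sg w b) := by
  refine (rel_iff (memP_ids ha hma (le_max_left _ _)) ?_ (max_le hta htb)).symm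
  rw [he]
  exact memP_ids hb hmb (le_max_right _ _)

theorem isCompPoset {B : ℕ} (hT : Tab w K σ B) :
    IsCompPoset {a | memP w K σ a} (leP w K σ) where
  mem := (primrec_memP hT).computablePred
  rel := (primrec_leP hT).computablePred
  sub a b h := by
    rcases h with ⟨h1, h2⟩ | ⟨h1, h2, h3⟩ | ⟨h1, h2, h3, h4, _⟩
    · subst h2
      exact ⟨Or.inl h1, Or.inl h1⟩
    · exact ⟨Or.inl h1, h3⟩
    · exact ⟨h3, h4⟩
  refl a ha := by
    by_cases h : a < w
    · exact Or.inl ⟨h, rfl⟩
    · exact Or.inr (Or.inr ⟨by omega, by omega, ha, ha, Or.inr ⟨rfl, Or.inl rfl⟩⟩)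
  trans a b c hab hbc := by
    rcases hab with ⟨h1, h2⟩ | ⟨h1, h2, h3⟩ | ⟨h1, h2, h3, h4, h5⟩
    · subst h2
      exact hbc
    · rcases hbc with ⟨k1, k2⟩ | ⟨k1, k2, k3⟩ | ⟨k1, k2, k3, k4, k5⟩
      · omega
      · omega
      · exact Or.inr (Or.inl ⟨h1, k2, k4⟩)
    · rcases hbc with ⟨k1, k2⟩ | ⟨k1, k2, k3⟩ | ⟨k1, k2, k3, k4, k5⟩
      · omega
      · omega
      · refine Or.inr (Or.inr ⟨h1, k2, h3, k4, ?_⟩)
        rcases h5 with h5 | ⟨h5, h6⟩
        · rcases k5 with k5 | ⟨k5, _⟩
          · exact Or.inl (h5.trans k5)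
          · exact Or.inl (k5 ▸ h5)
        · rcases k5 with k5 | ⟨k5, k6⟩
          · exact Or.inl (h5 ▸ k5)
          · refine Or.inr ⟨h5.trans k5, ?_⟩
            rcases h6 with h6 | h6
            · have : a = b := eq_of_blsg h1 h2 h5 h6
              subst this
              exact k6
            · rcases k6 with k6 | k6
              · have : b = c := eq_of_blsg h2 k2 k5 k6
                subst this
                exact Or.inr h6
              · right
                set t := max (sg w a) (max (sg w b) (sg w c)) with ht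
                have t1 : sg w a ≤ t := le_max_left _ _
                have t2 : sg w b ≤ t := (le_max_left _ _).trans (le_max_right _ _)
                have t3 : sg w c ≤ t := (le_max_right _ _).trans (le_max_right _ _)
                rw [rel_late h1 h2 h3 h4 h5 t1 t2] at h6
                rw [rel_late h2 k2 k3 k4 k5 t2 t3, ← h5] at k6
                rw [rel_late h1 k2 h3 k4 (h5.trans k5) t1 t3]
                exact (hT.good _ (rch_his _ _)).trans _ _ _ h6 k6
  antisymm a b hab hba := by
    rcases hab with ⟨h1, h2⟩ | ⟨h1, h2, h3⟩ | ⟨h1, h2, h3, h4, h5⟩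
    · exact h2
    · rcases hba with ⟨k1, k2⟩ | ⟨k1, k2, k3⟩ | ⟨k1, k2, k3, k4, k5⟩ <;> omega
    · rcases hba with ⟨k1, k2⟩ | ⟨k1, k2, k3⟩ | ⟨k1, k2, k3, k4, k5⟩
      · omega
      · omega
      · rcases h5 with h5 | ⟨h5, h6⟩
        · rcases k5 with k5 | ⟨k5, _⟩ <;> omega
        · rcases k5 with k5 | ⟨k5, k6⟩
          · omega
          · rcases h6 with h6 | h6
            · exact eq_of_blsg h1 h2 h5 h6
            · rcases k6 with k6 | k6
              · exact (eq_of_blsg h2 h1 k5 k6).symm
              · exfalso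
                set t := max (sg w a) (sg w b) with ht
                have t1 : sg w a ≤ t := le_max_left _ _
                have t2 : sg w b ≤ t := le_max_right _ _
                rw [rel_late h2 h1 h4 h3 k5 t2 t1, k5] at k6
                have hg := hT.good _ (rch_his (w := w) (bl w a) t)
                exact hg.irr _ (hg.trans _ _ _ h6 k6)

theorem hasWidth {B : ℕ} (hT : Tab w K σ B) :
    HasWidth {a | memP w K σ a} (leP w K σ) w where
  attained := by
    refine ⟨Finset.range w, fun a ha => Or.inl (Finset.mem_range.1 ha), ?_, Finset.card_range w⟩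
    intro a ha b hb hab h
    rw [Finset.mem_range] at ha hb
    rcases h with ⟨_, h⟩ | ⟨_, h, _⟩ | ⟨h, _⟩
    · exact hab h
    · omega
    · omega
  bound s hs ha := by
    classical
    by_cases h0 : ∃ a ∈ s, a < w
    · obtain ⟨a, has, haw⟩ := h0
      have : s ⊆ Finset.range w := by
        intro b hb
        rw [Finset.mem_range]
        by_contra hbw
        have hne : a ≠ b := by omega
        exact ha a has b hb hne (Or.inr (Or.inl ⟨haw, by omega, hs b hb⟩))
      have h1 := Finset.card_le_card this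
      rwa [Finset.card_range] at h1
    · push Not at h0
      rcases s.eq_empty_or_nonempty with rfl | ⟨a₀, ha₀⟩
      · simp
      · have hbl : ∀ a ∈ s, bl w a = bl w a₀ := by
          intro a has
          by_contra hne
          have hne' : a ≠ a₀ := fun e => hne (by rw [e])
          rcases Nat.lt_or_gt_of_ne hne with h | h
          · exact ha a has a₀ ha₀ hne' (Or.inr (Or.inr ⟨h0 a has, h0 a₀ ha₀, hs a has,
              hs a₀ ha₀, Or.inl h⟩))
          · exact ha a₀ ha₀ a has hne'.symm (Or.inr (Or.inr ⟨h0 a₀ ha₀, h0 a has, hs a₀ ha₀,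
              hs a has, Or.inl h⟩))
        set t := s.sup (sg w) with ht
        have hst : ∀ a ∈ s, sg w a ≤ t := fun a has => Finset.le_sup has
        have hmem : ∀ a ∈ s, sg w a ∈ ids w K σ (bl w a₀) t := by
          intro a has
          rw [← hbl a has]
          exact memP_ids (h0 a has) (hs a has) (hst a has)
        have hinj : Set.InjOn (fun a => idx w K σ (bl w a₀) t (sg w a)) (s : Set ℕ) := by
          intro a has b hbs hab
          have e := idx_inj (hmem a has) hab
          exact eq_of_blsg (h0 a has) (h0 b hbs) ((hbl a has).trans (hbl b hbs).symm) e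
        rw [← Finset.card_image_of_injOn hinj]
        refine (hT.good _ (rch_his (w := w) (bl w a₀) t)).width _ ?_ ?_
        · intro i hi
          obtain ⟨a, has, rfl⟩ := Finset.mem_image.1 hi
          rw [full_length]
          exact idx_lt (hmem a has)
        · intro i hi j hj hij
          obtain ⟨a, has, rfl⟩ := Finset.mem_image.1 hi
          obtain ⟨b, hbs, rfl⟩ := Finset.mem_image.1 hj
          have hab : a ≠ b := by
            rintro rfl
            exact (hT.good _ (rch_his (w := w) (bl w a₀) t)).irr _ hij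
          refine ha a has b hbs hab (Or.inr (Or.inr ⟨h0 a has, h0 b hbs, hs a has, hs b hbs,
            Or.inr ⟨(hbl a has).trans (hbl b hbs).symm, Or.inr ?_⟩⟩))
          rw [rel_late (h0 a has) (h0 b hbs) (hs a has) (hs b hbs)
            ((hbl a has).trans (hbl b hbs).symm) (hst a has) (hst b hbs), hbl a has]
          exact hij

end

end Pool.Agent.Helper3.DW
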