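import Pool.Agent.Helper3.DW.Defs

/-!
The calculus of positions and of the game: invariants, composition of strategies, holes, duality.
-/

set_option autoImplicit false

namespace Pool.Agent.Helper3.DW

/-! ### positions -/

theorem plt_col (D U A B : Finset ℕ) (P : Ps) (i j : ℕ) :
    plt (⟨D, U, A⟩ :: P) i j ↔ plt (⟨D, U, B⟩ :: P) i j := Iff.rfl

theorem Good.col {w : ℕ} {D U A : Finset ℕ} {P : Ps} (h : Good w (⟨D, U, A⟩ :: P))
    (B : Finset ℕ) : Good w (⟨D, U, B⟩ :: P) :=
  ⟨h.lt_len, h.irr, h.trans, h.width⟩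

theorem plt_old {x : Mv} {P : Ps} {i j : ℕ} (hi : i < P.length) (hj : j < P.length) :
    plt (x :: P) i j ↔ plt P i j := by
  simp only [plt]
  constructor
  · rintro (h | ⟨h, _⟩ | ⟨h, _⟩)
    · exact h
    · omega
    · omega
  · exact Or.inl

theorem pcol_old {x : Mv} {P : Ps} {i : ℕ} (hi : i < P.length) :
    pcol (x :: P) i = pcol P i := by
  simp only [pcol]
  rw [if_neg (by omega)]

theorem pcol_new (x : Mv) (P : Ps) : pcol (x :: P) P.length = x.col := by
  simp [pcol]

theorem pcol_len {P : Ps} {i : ℕ} (hi : P.length ≤ i) : pcol P i = ∅ := by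
  induction P with
  | nil => rfl
  | cons x P ih =>
    simp only [List.length_cons] at hi
    simp only [pcol]
    rw [if_neg (by omega)]
    exact ih (by omega)

theorem Good.tail {w : ℕ} {x : Mv} {P : Ps} (h : Good w (x :: P)) (hl : ∀ i j, plt P i j →
    i < P.length ∧ j < P.length) : Good w P where
  lt_len := hl
  irr i hi := h.irr i (Or.inl hi)
  trans i j k h1 h2 := by
    have := h.trans i j k (Or.inl h1) (Or.inl h2)
    exact (plt_old (hl _ _ h1).1 (hl _ _ h2).2).1 this
  width s hs ha := by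
    refine h.width s (fun i hi => by have := hs i hi; simp only [List.length_cons]; omega) ?_
    intro i hi j hj hh
    exact ha i hi j hj ((plt_old (hs i hi) (hs j hj)).1 hh)

theorem good_nil (w : ℕ) : Good w [] where
  lt_len i j h := h.elim
  irr i h := h.elim
  trans i j k h _ := h.elim
  width s hs _ := by
    have : s = ∅ := Finset.eq_empty_of_forall_notMem fun i hi => by
      have := hs i hi
      simp at this
    simp [this]

theorem inv_nil (w m : ℕ) : Inv w m [] where
  good := good_nil w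
  card i hi := by simp at hi
  disj i j hi _ := by simp at hi

theorem Inv.step {w m : ℕ} {P : Ps} {D U A : Finset ℕ} (h : Inv w m P)
    (hg : Good w (⟨D, U, ∅⟩ :: P)) (hA : A.card = m)
    (hl : ∀ i < P.length, i ∉ D → i ∉ U → Disjoint A (pcol P i)) :
    Inv w m (⟨D, U, A⟩ :: P) where
  good := hg.col A
  card i hi := by
    simp only [List.length_cons] at hi
    by_cases hh : i = P.length
    · subst hh; rw [pcol_new]; exact hA
    · rw [pcol_old (by omega)]; exact h.card i (by omega)
  disj i j hi hj hij h1 h2 := by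
    simp only [List.length_cons] at hi hj
    by_cases hi' : i = P.length
    · subst hi'
      have hj' : j < P.length := by omega
      rw [pcol_new, pcol_old hj']
      refine hl j hj' (fun hd => h2 ?_) (fun hu => h1 ?_)
      · exact Or.inr (Or.inl ⟨rfl, hd⟩)
      · exact Or.inr (Or.inr ⟨rfl, hu⟩)
    · have hi'' : i < P.length := by omega
      by_cases hj' : j = P.length
      · subst hj'
        rw [pcol_new, pcol_old hi'']
        refine (hl i hi'' (fun hd => h1 ?_) (fun hu => h2 ?_)).symm
        · exact Or.inr (Or.inl ⟨rfl, hd⟩)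
        · exact Or.inr (Or.inr ⟨rfl, hu⟩)
      · have hj'' : j < P.length := by omega
        rw [pcol_old hi'', pcol_old hj'']
        exact h.disj i j hi'' hj'' hij (fun h => h1 (Or.inl h)) (fun h => h2 (Or.inl h))

theorem mem_colU {P : Ps} {s : Finset ℕ} {c : ℕ} : c ∈ colU P s ↔ ∃ i ∈ s, c ∈ pcol P i := by
  simp [colU]

theorem mem_cols {P : Ps} {c : ℕ} : c ∈ cols P ↔ ∃ i < P.length, c ∈ pcol P i := by
  simp [cols, colU]

theorem colU_subset_cols {P : Ps} (s : Finset ℕ) : colU P s ⊆ cols P := by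
  intro c hc
  obtain ⟨i, _, hi⟩ := mem_colU.1 hc
  rw [mem_cols]
  by_cases h : i < P.length
  · exact ⟨i, h, hi⟩
  · rw [pcol_len (by omega)] at hi
    simp at hi

theorem Inv.disj_colU {w m : ℕ} {P : Ps} (h : Inv w m P) {s t : Finset ℕ}
    (hs : ∀ i ∈ s, i < P.length) (ht : ∀ i ∈ t, i < P.length)
    (hst : ∀ i ∈ s, ∀ j ∈ t, i ≠ j ∧ ¬ plt P i j ∧ ¬ plt P j i) :
    Disjoint (colU P s) (colU P t) := by
  rw [Finset.disjoint_left]
  intro c hc hc'
  obtain ⟨i, hi, hi'⟩ := mem_colU.1 hc
  obtain ⟨j, hj, hj'⟩ := mem_colU.1 hc'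
  obtain ⟨h1, h2, h3⟩ := hst i hi j hj
  exact Finset.disjoint_left.1 (h.disj i j (hs i hi) (ht j hj) h1 h2 h3) hi' hj'

/-! ### composition -/

theorem Force.bind {w m : ℕ} {Q Q' : Ps → Prop} {P : Ps} (h : Force w m Q P)
    (hQ : ∀ P', Q P' → Force w m Q' P') : Force w m Q' P := by
  induction h with
  | here P h => exact hQ P h
  | step P D U hg _ ih => exact Force.step P D U hg ih

theorem Force.imp {w m : ℕ} {Q Q' : Ps → Prop} {P : Ps} (h : Force w m Q P)
    (hQ : ∀ P', Q P' → Q' P') : Force w m Q' P :=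
  h.bind fun P' hP' => Force.here P' (hQ P' hP')

theorem Force.inv {w m : ℕ} {Q : Ps → Prop} {P : Ps} (h : Force w m Q P) (hI : Inv w m P) :
    Force w m (fun P' => Q P' ∧ Inv w m P' ∧ P <:+ P') P := by
  induction h with
  | here P h => exact Force.here P ⟨h, hI, List.suffix_refl P⟩
  | step P D U hg _ ih =>
    refine Force.step P D U hg fun A hA hl => ?_
    refine (ih A hA hl (hI.step hg hA hl)).imp fun P' hP' => ⟨hP'.1, hP'.2.1, ?_⟩
    exact (List.suffix_cons _ P).trans hP'.2.2

theorem Good.mono {w w' : ℕ} {P : Ps} (h : Good w P) (hw : w ≤ w') : Good w' P :=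
  ⟨h.lt_len, h.irr, h.trans, fun s hs ha => (h.width s hs ha).trans hw⟩

theorem Force.mono {w w' m : ℕ} {Q : Ps → Prop} {P : Ps} (h : Force w m Q P) (hw : w ≤ w') :
    Force w' m Q P := by
  induction h with
  | here P h => exact Force.here P h
  | step P D U hg _ ih => exact Force.step P D U (hg.mono hw) ih

theorem FG.mono {w w' m M M' : ℕ} (h : FG w m M) (hw : w ≤ w') (hM : M' ≤ M) : FG w' m M' :=
  (Force.mono h hw).imp fun _ hP => hM.trans hP

/-! ### suffixes -/

theorem plt_suffix {P P' : Ps} (h : P <:+ P') {i j : ℕ} (hi : i < P.length)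
    (hj : j < P.length) : plt P' i j ↔ plt P i j := by
  obtain ⟨t, rfl⟩ := h
  induction t with
  | nil => rfl
  | cons x t ih =>
    rw [List.cons_append, plt_old (by simp; omega) (by simp; omega)]
    exact ih

theorem pcol_suffix {P P' : Ps} (h : P <:+ P') {i : ℕ} (hi : i < P.length) :
    pcol P' i = pcol P i := by
  obtain ⟨t, rfl⟩ := h
  induction t with
  | nil => rfl
  | cons x t ih =>
    rw [List.cons_append, pcol_old (by simp; omega)]
    exact ih

theorem colU_suffix {P P' : Ps} (h : P <:+ P') {s : Finset ℕ} (hs : ∀ i ∈ s, i < P.length) :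
    colU P' s = colU P s := by
  ext c
  simp only [mem_colU]
  constructor
  · rintro ⟨i, hi, hc⟩
    exact ⟨i, hi, by rwa [pcol_suffix h (hs i hi)] at hc⟩
  · rintro ⟨i, hi, hc⟩
    exact ⟨i, hi, by rwa [pcol_suffix h (hs i hi)]⟩

/-! ### gluing -/

theorem mem_sh {n : ℕ} {s : Finset ℕ} {i : ℕ} : i ∈ sh n s ↔ ∃ j ∈ s, i = n + j := by
  simp only [sh, Finset.mem_image]
  constructor
  · rintro ⟨j, hj, rfl⟩; exact ⟨j, hj, rfl⟩
  · rintro ⟨j, hj, rfl⟩; exact ⟨j, hj, rfl⟩

theorem add_mem_sh {n : ℕ} {s : Finset ℕ} {i : ℕ} : n + i ∈ sh n s ↔ i ∈ s := by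
  rw [mem_sh]
  constructor
  · rintro ⟨j, hj, h⟩
    have : i = j := by omega
    rwa [this]
  · intro h; exact ⟨i, h, rfl⟩

theorem le_of_mem_sh {n : ℕ} {s : Finset ℕ} {i : ℕ} (h : i ∈ sh n s) : n ≤ i := by
  obtain ⟨j, _, rfl⟩ := mem_sh.1 h
  omega

@[simp] theorem glue_nil (P : Ps) (D U : Finset ℕ) : glue P D U [] = P := rfl

theorem glue_cons (P : Ps) (D U : Finset ℕ) (x : Mv) (R : Ps) :
    glue P D U (x :: R) =
      ⟨D ∪ sh P.length x.dn, U ∪ sh P.length x.up, x.col⟩ :: glue P D U R := rfl

@[simp] theorem glue_length (P : Ps) (D U : Finset ℕ) (R : Ps) :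
    (glue P D U R).length = P.length + R.length := by
  simp [glue, add_comm]

theorem suffix_glue (P : Ps) (D U : Finset ℕ) (R : Ps) : P <:+ glue P D U R :=
  List.suffix_append _ _

theorem plt_glue (P : Ps) (D U : Finset ℕ) (R : Ps) (i j : ℕ) :
    plt (glue P D U R) i j ↔ plt P i j ∨
      (∃ i' j', i = P.length + i' ∧ j = P.length + j' ∧ plt R i' j') ∨
      (i ∈ D ∧ ∃ j' < R.length, j = P.length + j') ∨
      (j ∈ U ∧ ∃ i' < R.length, i = P.length + i') := by
  induction R with
  | nil => simp [plt]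
  | cons x R ih =>
    rw [glue_cons]
    simp only [plt, glue_length, ih, Finset.mem_union, List.length_cons]
    constructor
    · rintro ((h | ⟨i', j', h1, h2, h3⟩ | ⟨h1, j', h2, h3⟩ | ⟨h1, i', h2, h3⟩) |
        ⟨h1, h2 | h2⟩ | ⟨h1, h2 | h2⟩)
      · exact Or.inl h
      · exact Or.inr (Or.inl ⟨i', j', h1, h2, Or.inl h3⟩)
      · exact Or.inr (Or.inr (Or.inl ⟨h1, j', by omega, h3⟩))
      · exact Or.inr (Or.inr (Or.inr ⟨h1, i', by omega, h3⟩))
      · exact Or.inr (Or.inr (Or.inl ⟨h2, R.length, by omega, h1⟩))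
      · obtain ⟨i', hi', rfl⟩ := mem_sh.1 h2
        exact Or.inr (Or.inl ⟨i', R.length, rfl, h1, Or.inr (Or.inl ⟨rfl, hi'⟩)⟩)
      · exact Or.inr (Or.inr (Or.inr ⟨h2, R.length, by omega, h1⟩))
      · obtain ⟨j', hj', rfl⟩ := mem_sh.1 h2
        exact Or.inr (Or.inl ⟨R.length, j', h1, rfl, Or.inr (Or.inr ⟨rfl, hj'⟩)⟩)
    · rintro (h | ⟨i', j', h1, h2, h3 | ⟨h3, h4⟩ | ⟨h3, h4⟩⟩ | ⟨h1, j', h2, h3⟩ |
        ⟨h1, i', h2, h3⟩)
      · exact Or.inl (Or.inl h)
      · exact Or.inl (Or.inr (Or.inl ⟨i', j', h1, h2, h3⟩))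
      · subst h3
        exact Or.inr (Or.inl ⟨h2, Or.inr (by rw [h1]; exact add_mem_sh.2 h4)⟩)
      · subst h3
        exact Or.inr (Or.inr ⟨h1, Or.inr (by rw [h2]; exact add_mem_sh.2 h4)⟩)
      · by_cases hh : j' = R.length
        · subst hh
          exact Or.inr (Or.inl ⟨h3, Or.inl h1⟩)
        · exact Or.inl (Or.inr (Or.inr (Or.inl ⟨h1, j', by omega, h3⟩)))
      · by_cases hh : i' = R.length
        · subst hh
          exact Or.inr (Or.inr ⟨h3, Or.inl h1⟩)
        · exact Or.inl (Or.inr (Or.inr (Or.inr ⟨h1, i', by omega, h3⟩)))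

theorem pcol_glue_old {P : Ps} {D U : Finset ℕ} {R : Ps} {i : ℕ} (hi : i < P.length) :
    pcol (glue P D U R) i = pcol P i :=
  pcol_suffix (suffix_glue P D U R) hi

theorem pcol_glue_new (P : Ps) (D U : Finset ℕ) (R : Ps) (i : ℕ) :
    pcol (glue P D U R) (P.length + i) = pcol R i := by
  induction R with
  | nil => simp [glue_nil, pcol, pcol_len]
  | cons x R ih =>
    rw [glue_cons]
    simp only [pcol, glue_length, ih]
    by_cases h : i = R.length
    · rw [if_pos (by omega), if_pos h]
    · rw [if_neg (by omega), if_neg h]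

/-- The glued position is good. -/
theorem good_glue {w j : ℕ} {P : Ps} {D U : Finset ℕ} (hP : Good w P) (hh : IsHole w j P D U)
    {R : Ps} (hR : Good j R) : Good w (glue P D U R) := by
  have key := plt_glue P D U R
  have hDU : ∀ d ∈ D, d ∉ U := fun d hd hu => hP.irr d (hh.lt d hd d hu)
  have hlt : ∀ i j, plt (glue P D U R) i j → i < P.length + R.length ∧
      j < P.length + R.length := by
    intro a b hab
    rcases (key a b).1 hab with h | ⟨a', b', h1, h2, h3⟩ | ⟨h1, b', h2, h3⟩ | ⟨h1, a', h2, h3⟩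
    · have := hP.lt_len _ _ h; omega
    · have := hR.lt_len _ _ h3; omega
    · have := hh.dlen _ h1; omega
    · have := hh.ulen _ h1; omega
  constructor
  · intro a b hab
    rw [glue_length]
    exact hlt a b hab
  · intro a ha
    rcases (key a a).1 ha with h | ⟨a', b', h1, h2, h3⟩ | ⟨h1, b', h2, h3⟩ | ⟨h1, a', h2, h3⟩
    · exact hP.irr a h
    · have : a' = b' := by omega
      subst this
      exact hR.irr _ h3
    · have := hh.dlen _ h1; omega
    · have := hh.ulen _ h1; omega
  · intro a b c hab hbc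
    rw [key]
    rcases (key a b).1 hab with h | ⟨a', b', h1, h2, h3⟩ | ⟨h1, b', h2, h3⟩ | ⟨h1, a', h2, h3⟩
    · have hl := hP.lt_len _ _ h
      rcases (key b c).1 hbc with k | ⟨b'', c', k1, k2, k3⟩ | ⟨k1, c', k2, k3⟩ |
        ⟨k1, b'', k2, k3⟩
      · exact Or.inl (hP.trans _ _ _ h k)
      · omega
      · exact Or.inr (Or.inr (Or.inl ⟨hh.down _ _ h k1, c', k2, k3⟩))
      · omega
    · rcases (key b c).1 hbc with k | ⟨b'', c', k1, k2, k3⟩ | ⟨k1, c', k2, k3⟩ |
        ⟨k1, b'', k2, k3⟩
      · have := hP.lt_len _ _ k; omega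
      · have : b'' = b' := by omega
        subst this
        exact Or.inr (Or.inl ⟨a', c', h1, k2, hR.trans _ _ _ h3 k3⟩)
      · have := hh.dlen _ k1; omega
      · exact Or.inr (Or.inr (Or.inr ⟨k1, a', (hR.lt_len _ _ h3).1, h1⟩))
    · rcases (key b c).1 hbc with k | ⟨b'', c', k1, k2, k3⟩ | ⟨k1, c', k2, k3⟩ |
        ⟨k1, b'', k2, k3⟩
      · have := hP.lt_len _ _ k; omega
      · exact Or.inr (Or.inr (Or.inl ⟨h1, c', (hR.lt_len _ _ k3).2, k2⟩))
      · have := hh.dlen _ k1; omega
      · exact Or.inl (hh.lt _ h1 _ k1)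
    · have hl := hh.ulen _ h1
      rcases (key b c).1 hbc with k | ⟨b'', c', k1, k2, k3⟩ | ⟨k1, c', k2, k3⟩ |
        ⟨k1, b'', k2, k3⟩
      · exact Or.inr (Or.inr (Or.inr ⟨hh.up _ _ k h1, a', h2, h3⟩))
      · omega
      · exact absurd h1 (hDU _ k1)
      · omega
  · intro s hs ha
    classical
    set s1 := s.filter (fun i => i < P.length) with hs1
    set s2 := s.filter (fun i => ¬ i < P.length) with hs2
    have hcard : s1.card + s2.card = s.card :=
      Finset.card_filter_add_card_filter_not _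
    have a1 : ∀ i ∈ s1, ∀ j ∈ s1, ¬ plt P i j := by
      intro i hi j hj h
      exact ha i (Finset.mem_filter.1 hi).1 j (Finset.mem_filter.1 hj).1 ((key i j).2 (Or.inl h))
    have l1 : ∀ i ∈ s1, i < P.length := fun i hi => (Finset.mem_filter.1 hi).2
    by_cases he : s2 = ∅
    · rw [← hcard, he, Finset.card_empty, add_zero]
      exact hP.width s1 l1 a1
    · obtain ⟨b, hb⟩ := Finset.nonempty_iff_ne_empty.2 he
      have hb' := Finset.mem_filter.1 hb
      have hbl := hs b hb'.1
      rw [glue_length] at hbl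
      have hbR : b - P.length < R.length := by omega
      have hbe : b = P.length + (b - P.length) := by omega
      have h1 : s1.card + j ≤ w := by
        refine hh.cap s1 (fun i hi => ⟨l1 i hi, fun hd => ?_, fun hu => ?_⟩) a1
        · exact ha i (Finset.mem_filter.1 hi).1 b hb'.1
            ((key i b).2 (Or.inr (Or.inr (Or.inl ⟨hd, _, hbR, hbe⟩))))
        · exact ha b hb'.1 i (Finset.mem_filter.1 hi).1
            ((key b i).2 (Or.inr (Or.inr (Or.inr ⟨hu, _, hbR, hbe⟩))))
      have h2 : (s2.image (fun i => i - P.length)).card ≤ j := by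
        refine hR.width _ ?_ ?_
        · intro i hi
          obtain ⟨k, hk, rfl⟩ := Finset.mem_image.1 hi
          have hk' := Finset.mem_filter.1 hk
          have := hs k hk'.1
          rw [glue_length] at this
          omega
        · intro i hi i' hi' hlt'
          obtain ⟨k, hk, rfl⟩ := Finset.mem_image.1 hi
          obtain ⟨k', hk', rfl⟩ := Finset.mem_image.1 hi'
          have e1 := Finset.mem_filter.1 hk
          have e2 := Finset.mem_filter.1 hk'
          exact ha k e1.1 k' e2.1 ((key k k').2 (Or.inr (Or.inl ⟨_, _, by omega, by omega, hlt'⟩)))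
      have h3 : (s2.image (fun i => i - P.length)).card = s2.card := by
        refine Finset.card_image_of_injOn ?_
        intro x hx y hy hxy
        have e1 := (Finset.mem_filter.1 hx).2
        have e2 := (Finset.mem_filter.1 hy).2
        simp only at hxy
        omega
      omega

/-- Any strategy for the game of width `j` can be played in a hole of capacity `j`. -/
theorem Force.hole {w j m : ℕ} {P : Ps} {D U : Finset ℕ} (hP : Good w P)
    (hh : IsHole w j P D U) {Q : Ps → Prop} {R : Ps} (h : Force j m Q R) (hR : Inv j m R) :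
    Force w m (fun P' => ∃ R', Q R' ∧ Inv j m R' ∧ P' = glue P D U R') (glue P D U R) := by
  induction h with
  | here R h => exact Force.here _ ⟨R, h, hR, rfl⟩
  | step R D' U' hg _ ih =>
    refine Force.step _ (D ∪ sh P.length D') (U ∪ sh P.length U') ?_ ?_
    · exact good_glue hP hh hg
    · intro A hA hl
      have hl' : ∀ i < R.length, i ∉ D' → i ∉ U' → Disjoint A (pcol R i) := by
        intro i hi h1 h2
        have := hl (P.length + i) (by rw [glue_length]; omega) ?_ ?_
        · rwa [pcol_glue_new] at this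
        · rw [Finset.mem_union, not_or]
          exact ⟨fun hd => by have := hh.dlen _ hd; omega, fun hs => h1 (add_mem_sh.1 hs)⟩
        · rw [Finset.mem_union, not_or]
          exact ⟨fun hd => by have := hh.ulen _ hd; omega, fun hs => h2 (add_mem_sh.1 hs)⟩
      exact ih A hA hl' (hR.step hg hA hl')

/-- Playing in a hole from the empty position. -/
theorem Force.hole0 {w j m : ℕ} {P : Ps} {D U : Finset ℕ} (hP : Inv w m P)
    (hh : IsHole w j P D U) {Q : Ps → Prop} (h : Force j m Q []) :
    Force w m (fun P' => Inv w m P' ∧ ∃ R', Q R' ∧ Inv j m R' ∧ P' = glue P D U R') P := by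
  have h1 := Force.hole hP.good hh h (inv_nil j m)
  rw [glue_nil] at h1
  exact (h1.inv hP).imp fun P' h' => ⟨h'.2.1, h'.1⟩

/-! ### duality -/

@[simp] theorem dual_length (P : Ps) : (dual P).length = P.length := by simp [dual]

theorem dual_cons (x : Mv) (P : Ps) : dual (x :: P) = ⟨x.up, x.dn, x.col⟩ :: dual P := rfl

theorem dual_dual (P : Ps) : dual (dual P) = P := by
  induction P with
  | nil => rfl
  | cons x P ih => rw [dual_cons, dual_cons, ih]

theorem plt_dual (P : Ps) (i j : ℕ) : plt (dual P) i j ↔ plt P j i := by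
  induction P with
  | nil => rfl
  | cons x P ih =>
    rw [dual_cons]
    simp only [plt, dual_length, ih]
    tauto

theorem pcol_dual (P : Ps) (i : ℕ) : pcol (dual P) i = pcol P i := by
  induction P with
  | nil => rfl
  | cons x P ih =>
    rw [dual_cons]
    simp only [pcol, dual_length, ih]

theorem colU_dual (P : Ps) (s : Finset ℕ) : colU (dual P) s = colU P s := by
  ext c
  simp only [mem_colU, pcol_dual]

theorem good_dual {w : ℕ} {P : Ps} (h : Good w P) : Good w (dual P) where
  lt_len i j hij := by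
    rw [plt_dual] at hij
    rw [dual_length]
    exact (h.lt_len _ _ hij).symm
  irr i hi := h.irr i ((plt_dual P i i).1 hi)
  trans i j k h1 h2 := by
    rw [plt_dual] at *
    exact h.trans _ _ _ h2 h1
  width s hs ha := by
    refine h.width s (fun i hi => by simpa using hs i hi) ?_
    intro i hi j hj hij
    exact ha j hj i hi ((plt_dual P j i).2 hij)

theorem inv_dual {w m : ℕ} {P : Ps} (h : Inv w m P) : Inv w m (dual P) where
  good := good_dual h.good
  card i hi := by rw [pcol_dual]; exact h.card i (by simpa using hi)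
  disj i j hi hj hij h1 h2 := by
    rw [pcol_dual, pcol_dual]
    rw [plt_dual] at h1 h2
    exact h.disj i j (by simpa using hi) (by simpa using hj) hij h2 h1

theorem Force.dual {w m : ℕ} {Q : Ps → Prop} {P : Ps} (h : Force w m Q P) :
    Force w m (fun P' => Q (dual P')) (dual P) := by
  induction h with
  | here P h => exact Force.here _ (by rwa [dual_dual])
  | step P D U hg _ ih =>
    refine Force.step _ U D (good_dual hg) fun A hA hl => ?_
    refine ih A hA fun i hi h1 h2 => ?_
    have := hl i (by simpa using hi) h2 h1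
    rwa [pcol_dual] at this

theorem maf_of_fam {P : Ps} {Y : Finset ℕ} {x : ℕ} (h : Fam (dual P) Y x) : Maf P Y x where
  len y hy := by simpa using h.len y hy
  chain y hy z hz hyz := by
    have := h.chain y hy z hz hyz
    rw [plt_dual, plt_dual] at this
    exact this.symm
  down y hy z hz := h.up y hy z ((plt_dual P y z).2 hz)
  size := by
    have := h.size
    rwa [colU_dual] at this

/-- The dual of the strategy for upper chains. -/
theorem dgq_of_ugq {w m : ℕ} (h : Force w m (UGQ w m) []) : Force w m (DGQ w m) [] := by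
  refine (Force.dual h).imp fun P hP => ?_
  obtain ⟨Y, h1, h2⟩ := hP
  exact ⟨Y, fun i hi => maf_of_fam (h1 i hi), h2⟩

end Pool.Agent.Helper3.DW
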