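import Pool.Agent.Helper3.DW.Comp

/-!
The diagonalization, and the transfer of the bounds of the game to computable posets.
-/

set_option autoImplicit false

namespace Pool.Agent.Helper3.DW

open Nat.Partrec (Code)
open Denumerable (ofNat)

/-- A computable function telling a chain which contains a given point. -/
theorem exists_colour : ∀ (K : ℕ) (C : Fin K → Set ℕ),
    (∀ i, ComputablePred (fun n : ℕ => n ∈ C i)) →
    ∃ g : ℕ → ℕ, Computable g ∧ ∀ n, (∀ h : g n < K, n ∈ C ⟨g n, h⟩) ∧
      ((∃ i, n ∈ C i) → g n < K) := by
  intro K
  induction K with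
  | zero =>
    intro C _
    exact ⟨fun _ => 0, Computable.const 0, fun n => ⟨fun h => absurd h (Nat.not_lt_zero _),
      fun ⟨i, _⟩ => i.elim0⟩⟩
  | succ K ih =>
    intro C hC
    classical
    obtain ⟨g, hg, hg'⟩ := ih (fun i => C i.castSucc) (fun i => hC _)
    obtain ⟨f, hf, hf'⟩ := ComputablePred.computable_iff.1 (hC (Fin.last K))
    have hf'' : ∀ n, n ∈ C (Fin.last K) ↔ f n = true := fun n => by
      have := congrFun hf' n
      exact iff_of_eq this
    have hlt : Computable (fun n => decide (g n < K)) :=
      (PrimrecPred.decide (Primrec.nat_lt.comp Primrec.id (Primrec.const K))).to_comp.comp hg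
    refine ⟨fun n => bif f n then K else (bif decide (g n < K) then g n else K + 1), ?_, ?_⟩
    · exact Computable.cond hf (Computable.const K) (Computable.cond hlt hg
        (Computable.const (K + 1)))
    · intro n
      by_cases h1 : f n = true
      · have e : (bif f n then K else (bif decide (g n < K) then g n else K + 1)) = K := by
          rw [h1]; rfl
        simp only [e]
        refine ⟨fun h => ?_, fun _ => by omega⟩
        exact (hf'' n).2 h1
      · have h1' : f n = false := by simpa using h1
        by_cases h2 : g n < K
        · have e : (bif f n then K else (bif decide (g n < K) then g n else K + 1)) = g n := by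
            rw [h1', decide_eq_true h2]; rfl
          simp only [e]
          refine ⟨fun h => ?_, fun _ => by omega⟩
          exact (hg' n).1 h2
        · have e : (bif f n then K else (bif decide (g n < K) then g n else K + 1)) =
              K + 1 := by
            rw [h1', decide_eq_false h2]; rfl
          simp only [e]
          refine ⟨fun h => absurd h (lt_irrefl _), ?_⟩
          rintro ⟨i, hi⟩
          exfalso
          rcases Fin.eq_castSucc_or_eq_last i with ⟨j, rfl⟩ | rfl
          · exact h2 ((hg' n).2 ⟨j, hi⟩)
          · exact h1 ((hf'' n).1 hi)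

section

variable {w K : ℕ} {σ : List ℕ → Finset ℕ × Finset ℕ}

theorem cols_eq {g : ℕ → ℕ} {b : ℕ} (hb : ∀ n, (ofNat Code b).eval n = Part.some (g n)) :
    ∀ t s : ℕ, s ∈ ids w K σ b t → idx w K σ b t s < (his w K σ b t).length →
      pcol (posOf [] σ (his w K σ b t)) (idx w K σ b t s) = {g (w + Nat.pair b s)} := by
  intro t
  induction t with
  | zero =>
    intro s _ h
    rw [(sta_zero b).2] at h
    simp at h
  | succ t ih =>
    intro s hs hi
    rcases sta_succ (w := w) (K := K) (σ := σ) b t with ⟨h1, h2⟩ | ⟨c, h0, _, h1, h2⟩
    · have hs' : s ∈ ids w K σ b t := by rw [← h1]; exact hs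
      have e := idx_succ (w := w) (K := K) (σ := σ) hs'
      rw [h2, e] at hi ⊢
      exact ih s hs' hi
    · rw [h1] at hs
      have hne : s ≠ t + 1 := by
        rintro rfl
        have e := idx_head (w := w) (K := K) (σ := σ) b (t + 1)
        rw [h1] at e
        simp only [List.headI] at e
        omega
      have hs' : s ∈ ids w K σ b t := by
        rcases List.mem_cons.1 hs with h | h
        · exact absurd h hne
        · exact h
      rw [idx_succ hs', h2] at hi ⊢
      simp only [posOf]
      have hl : (posOf [] σ (his w K σ b t)).length = (his w K σ b t).length := by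
        rw [posOf_length]; simp
      by_cases hlast : idx w K σ b t s = (his w K σ b t).length
      · have e := idx_head (w := w) (K := K) (σ := σ) b t
        have hsh : s = (ids w K σ b t).headI := idx_inj hs' (hlast.trans e.symm)
        rw [hlast, ← hl, pcol_new]
        have hc : c ∈ (ofNat Code b).eval (w + Nat.pair b (ids w K σ b t).headI) :=
          Code.evaln_sound h0
        rw [hb, Part.mem_some_iff] at hc
        rw [hc, hsh]
      · simp only [List.length_cons] at hi
        rw [pcol_old (by omega)]
        exact ih s hs' (by omega)

theorem his_mono {b s t : ℕ} (h : s ≤ t) :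
    (his w K σ b s).length ≤ (his w K σ b t).length := by
  induction t, h using Nat.le_induction with
  | base => exact le_rfl
  | succ t _ ih =>
    rcases sta_succ (w := w) (K := K) (σ := σ) b t with ⟨_, h2⟩ | ⟨c, _, _, _, h2⟩
    · rw [h2]; exact ih
    · rw [h2, List.length_cons]
      omega

theorem ids_const {b s : ℕ} (h : ∀ t, s ≤ t → (his w K σ b t).length ≤
    (his w K σ b s).length) (t : ℕ) (ht : s ≤ t) :
    ids w K σ b t = ids w K σ b s ∧ his w K σ b t = his w K σ b s := by
  induction t, ht using Nat.le_induction with
  | base => exact ⟨rfl, rfl⟩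
  | succ t ht ih =>
    rcases sta_succ (w := w) (K := K) (σ := σ) b t with ⟨h1, h2⟩ | ⟨c, _, _, _, h2⟩
    · rw [h1, h2]; exact ih
    · have h3 := h (t + 1) (by omega)
      have h4 := his_mono (w := w) (K := K) (σ := σ) (b := b) ht
      rw [h2, List.length_cons] at h3
      omega

theorem not_covered {B : ℕ} (hT : Tab w K σ B) :
    ¬ CoveredBy {a | memP w K σ a} (leP w K σ) K := by
  rintro ⟨C, hC, hcov⟩
  obtain ⟨g, hg, hg'⟩ := exists_colour K C (fun i => (hC i).comp)
  obtain ⟨e, he⟩ := Code.exists_code.1 (Partrec.nat_iff.1 hg.partrec)
  set b := Encodable.encode e with hbdef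
  have hbe : ofNat Code b = e := Denumerable.ofNat_encode e
  have hb : ∀ n, (ofNat Code b).eval n = Part.some (g n) := by
    intro n
    rw [hbe, he]
    rfl
  have key : ∀ k, ∃ s, k ≤ (his w K σ b s).length := by
    intro k
    induction k with
    | zero => exact ⟨0, Nat.zero_le _⟩
    | succ k ih =>
      obtain ⟨s, hs⟩ := ih
      by_contra hn
      push Not at hn
      have hconst := ids_const (w := w) (K := K) (σ := σ) (b := b) (s := s) (fun t _ => by
        have := hn t
        omega)
      set n := w + Nat.pair b (ids w K σ b s).headI with hndef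
      obtain ⟨k₀, hk₀⟩ := Code.evaln_complete.1 (by
        rw [hb]
        exact Part.mem_some _ : g n ∈ (ofNat Code b).eval n)
      set t := max s k₀ with htdef
      have hst : s ≤ t := le_max_left _ _
      obtain ⟨c1, c2⟩ := hconst t hst
      have hev : Code.evaln t (ofNat Code b) (w + Nat.pair b (ids w K σ b t).headI) =
          some (g n) := by
        rw [c1]
        exact Code.evaln_mono (le_max_right s k₀) hk₀
      have hmemn : ∀ s' ∈ ids w K σ b t, memP w K σ (w + Nat.pair b s') := by
        intro s' hs'
        right
        rw [bl_add, sg_add]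
        exact mem_ids_self hs'
      have hnP : memP w K σ n := by
        rw [hndef, ← c1]
        exact hmemn _ (head_mem b t)
      have hgK : g n < K := by
        obtain ⟨i, hi⟩ := Set.mem_iUnion.1 (hcov hnP)
        exact (hg' n).2 ⟨i, hi⟩
      have hR : Rch K [] σ (g n :: his w K σ b t) := by
        refine Rch.cons (rch_his b t) hgK ?_
        intro i hi hd hu hc
        have hl : (posOf [] σ (his w K σ b t)).length = (his w K σ b t).length := by
          rw [posOf_length]; simp
        rw [hl] at hi
        obtain ⟨s', hs', hidx⟩ := idx_surj (w := w) (K := K) (σ := σ) (b := b) (t := t)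
          (i := i) (by omega)
        have hcol := cols_eq (w := w) (K := K) (σ := σ) hb t s' hs' (by omega)
        rw [hidx] at hcol
        rw [hcol, Finset.mem_singleton] at hc
        set n' := w + Nat.pair b s' with hn'def
        have hmC : n ∈ C ⟨g n, hgK⟩ := (hg' n).1 hgK
        have hgK' : g n' < K := by rw [← hc]; exact hgK
        have hmC' : n' ∈ C ⟨g n, hgK⟩ := by
          have h1 := (hg' n').1 hgK'
          have h2 : (⟨g n', hgK'⟩ : Fin K) = ⟨g n, hgK⟩ := by
            apply Fin.ext
            exact hc.symm
          rw [h2] at h1
          exact h1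
        have hhd := idx_head (w := w) (K := K) (σ := σ) b t
        have hbln : bl w n = b := by rw [hndef, bl_add]
        have hbln' : bl w n' = b := by rw [hn'def, bl_add]
        have hsgn : sg w n = (ids w K σ b t).headI := by rw [hndef, sg_add, c1]
        have hsgn' : sg w n' = s' := by rw [hn'def, sg_add]
        have hne : s' ≠ (ids w K σ b t).headI := by
          intro e'
          rw [e', hhd] at hidx
          omega
        have hwn : w ≤ n := Nat.le_add_right _ _
        have hwn' : w ≤ n' := Nat.le_add_right _ _
        have hn'P : memP w K σ n' := hmemn s' hs'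
        have t1 : sg w n ≤ t := by rw [hsgn]; exact ids_le (head_mem b t)
        have t2 : sg w n' ≤ t := by rw [hsgn']; exact ids_le hs'
        have hGood := good_posOf hT (rch_his (w := w) (K := K) (σ := σ) b t)
        rcases (hC ⟨g n, hgK⟩).chain n hmC n' hmC' with h | h
        · rcases h with ⟨h, _⟩ | ⟨h, _⟩ | ⟨_, _, _, _, h | ⟨_, h | h⟩⟩
          · omega
          · omega
          · omega
          · rw [hsgn, hsgn'] at h
            exact hne h.symm
          · rw [rel_late hwn hwn' hnP hn'P (hbln.trans hbln'.symm) t1 t2, hsgn, hsgn', hbln,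
              rel, hhd, hidx] at h
            rcases h with h | ⟨h, _⟩ | ⟨_, h⟩
            · have := (hGood.lt_len _ _ h).1
              omega
            · omega
            · exact hu h
        · rcases h with ⟨h, _⟩ | ⟨h, _⟩ | ⟨_, _, _, _, h | ⟨_, h | h⟩⟩
          · omega
          · omega
          · omega
          · rw [hsgn, hsgn'] at h
            exact hne h
          · rw [rel_late hwn' hwn hn'P hnP (hbln'.trans hbln.symm) t2 t1, hsgn, hsgn', hbln',
              rel, hhd, hidx] at h
            rcases h with h | ⟨_, h⟩ | ⟨h, _⟩
            · have := (hGood.lt_len _ _ h).2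
              omega
            · exact hd h
            · omega
      have h1 := sta_succ_of hev hR
      have h2 := hn (t + 1)
      rw [h1, List.length_cons, c2] at h2
      omega
  obtain ⟨s, hs⟩ := key (B + 1)
  have := hT.bd _ (rch_his (w := w) (K := K) (σ := σ) b s)
  omega

end

/-- The transfer: bounds for the game are bounds for computable posets. -/
theorem le_of_suffices {w k M : ℕ} (h : FG w 1 M) (hs : Suffices w k) : M ≤ k := by
  by_contra hn
  push Not at hn
  have h' : Force w 1 (fun P => k + 1 ≤ (cols P).card) [] := FG.mono h le_rfl hn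
  obtain ⟨σ, B, h1, h2⟩ := strat h' (by intro c hc; simp [cols, colU] at hc)
  have hT : Tab w k σ B := ⟨h1, h2⟩
  exact not_covered hT (hs _ _ (isCompPoset hT) (hasWidth hT))

end Pool.Agent.Helper3.DW
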