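import Pool.Agent.Helper3.DW.Base

/-!
In width two, with one colour for every point, the adversary can force five colours.
-/

set_option autoImplicit false

namespace Pool.Agent.Helper3.DW

theorem five_card {S : Finset ℕ} {a b c d e : ℕ} (ha : a ∈ S) (hb : b ∈ S) (hc : c ∈ S)
    (hd : d ∈ S) (he : e ∈ S) (h : a ≠ b ∧ a ≠ c ∧ a ≠ d ∧ a ≠ e ∧ b ≠ c ∧ b ≠ d ∧ b ≠ e ∧
      c ≠ d ∧ c ≠ e ∧ d ≠ e) : 5 ≤ S.card := by
  have h1 : ({a, b, c, d, e} : Finset ℕ) ⊆ S := by
    intro x hx
    simp only [Finset.mem_insert, Finset.mem_singleton] at hx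
    rcases hx with rfl | rfl | rfl | rfl | rfl <;> assumption
  have h2 : ({a, b, c, d, e} : Finset ℕ).card = 5 := by
    rw [Finset.card_insert_of_notMem, Finset.card_insert_of_notMem,
      Finset.card_insert_of_notMem, Finset.card_insert_of_notMem, Finset.card_singleton]
    all_goals simp only [Finset.mem_insert, Finset.mem_singleton]; omega
  rw [← h2]
  exact Finset.card_le_card h1

/-- The goal. -/
def G5 (L : List (SE × Finset ℕ)) : Prop := Force 2 1 (fun P => 5 ≤ (cols P).card) (toPs L)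

theorem g5_of {L : List (SE × Finset ℕ)} {a b c d e : ℕ} {u v x y z : SE}
    (ha : (u, ({a} : Finset ℕ)) ∈ L) (hb : (v, ({b} : Finset ℕ)) ∈ L)
    (hc : (x, ({c} : Finset ℕ)) ∈ L) (hd : (y, ({d} : Finset ℕ)) ∈ L)
    (he : (z, ({e} : Finset ℕ)) ∈ L)
    (h : a ≠ b ∧ a ≠ c ∧ a ≠ d ∧ a ≠ e ∧ b ≠ c ∧ b ≠ d ∧ b ≠ e ∧ c ≠ d ∧ c ≠ e ∧ d ≠ e) :
    G5 L :=
  Force.here _ (five_card (subset_cols ha (Finset.mem_singleton_self _))
    (subset_cols hb (Finset.mem_singleton_self _)) (subset_cols hc (Finset.mem_singleton_self _))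
    (subset_cols hd (Finset.mem_singleton_self _)) (subset_cols he (Finset.mem_singleton_self _))
    h)

/-- A move with one colour. -/
theorem g5_step {L : List (SE × Finset ℕ)} (x : SE) (hv : SV (x :: L.map Prod.fst))
    (h : ∀ y : ℕ, Dis L x {y} → G5 ((x, {y}) :: L)) : G5 L := by
  refine lstep x hv ?_
  intro A hA hd
  obtain ⟨y, rfl⟩ := Finset.card_eq_one.1 hA
  exact h y hd

theorem Dis.base1 {L : List (SE × Finset ℕ)} {a b y z : ℕ} (h : Dis L (SE.s a b) {y}) {i : ℕ}
    (hi : (SE.g i, ({z} : Finset ℕ)) ∈ L) (h1 : a ≤ i) (h2 : i < b) : y ≠ z := by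
  have := h.base hi h1 h2
  simpa using this

theorem Dis.left1 {L : List (SE × Finset ℕ)} {a b y z : ℕ} (h : Dis L (SE.s a b) {y}) {c : ℕ}
    (hi : (SE.s c a, ({z} : Finset ℕ)) ∈ L) (h1 : c < a) : y ≠ z := by
  have := h.left hi h1
  simpa using this

theorem Dis.right1 {L : List (SE × Finset ℕ)} {a b y z : ℕ} (h : Dis L (SE.s a b) {y}) {d : ℕ}
    (hi : (SE.s b d, ({z} : Finset ℕ)) ∈ L) (h1 : a < b) (h2 : b < d) : y ≠ z := by
  have := h.right hi h1 h2
  simpa using this

theorem mem_cons2 {L : List (SE × Finset ℕ)} {x y : SE × Finset ℕ} (h : x ∈ L) : x ∈ y :: L :=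
  List.mem_cons_of_mem _ h

/-- Intervals of a list with one more element. -/
theorem cons_K {L : List (SE × Finset ℕ)} {a b : ℕ} {A : Finset ℕ} {K : ℕ → ℕ → Prop}
    (hK : ∀ c d, SE.s c d ∈ L.map Prod.fst → K c d) :
    ∀ c d, SE.s c d ∈ ((SE.s a b, A) :: L).map Prod.fst → (c = a ∧ d = b) ∨ K c d := by
  intro c d h
  rw [List.map_cons] at h
  rcases List.mem_cons.1 h with h | h
  · injection h with e1 e2
    exact Or.inl ⟨e1, e2⟩
  · exact Or.inr (hK c d h)

/-- Two colours on the left of a free region. -/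
theorem five_left {L : List (SE × Finset ℕ)} {z x₁ x₂ q u₁ u₂ u₃ u₄ u₅ a₁ a₂ : ℕ}
    (hv : SV (L.map Prod.fst)) (hends : ∀ a b, SE.s a b ∈ L.map Prod.fst → b ≤ q)
    (h1 : q < u₁) (h2 : u₁ < u₂) (h3 : u₂ < u₃) (h4 : u₃ < u₄) (h5 : u₄ < u₅)
    (b0 : (SE.g q, ({z} : Finset ℕ)) ∈ L) (b1 : (SE.g u₁, ({z} : Finset ℕ)) ∈ L)
    (b2 : (SE.g u₂, ({z} : Finset ℕ)) ∈ L) (b3 : (SE.g u₃, ({z} : Finset ℕ)) ∈ L)
    (b4 : (SE.g u₄, ({z} : Finset ℕ)) ∈ L)
    (e1 : (SE.s a₁ q, ({x₁} : Finset ℕ)) ∈ L) (e2 : (SE.s a₂ q, ({x₂} : Finset ℕ)) ∈ L)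
    (hx : x₁ ≠ x₂) (hz1 : x₁ ≠ z) (hz2 : x₂ ≠ z) : G5 L := by
  have l1 : a₁ < q := hv.lt _ _ (List.mem_map.2 ⟨_, e1, rfl⟩)
  have l2 : a₂ < q := hv.lt _ _ (List.mem_map.2 ⟨_, e2, rfl⟩)
  have K0 : ∀ a b, SE.s a b ∈ L.map Prod.fst → (a < b ∧ b ≤ q) := fun a b h =>
    ⟨hv.lt a b h, hends a b h⟩
  -- the element on the right
  have vY := hv.add u₄ u₅ h5 K0 (by intro a b h; omega) (by intro a b e f h1 h2; omega)
  refine g5_step _ vY ?_
  intro y dy
  have yz : y ≠ z := dy.base1 b4 le_rfl h5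
  set L₁ := (SE.s u₄ u₅, ({y} : Finset ℕ)) :: L with hL₁
  have K1 := cons_K (a := u₄) (b := u₅) (A := {y}) K0
  have m1 : ∀ x, x ∈ L → x ∈ L₁ := fun x h => List.mem_cons_of_mem _ h
  by_cases hy : y ≠ x₁ ∧ y ≠ x₂
  · have v := SV.add (l := L₁.map Prod.fst) vY q u₄ (by omega) K1 (by intro a b h; omega)
      (by intro a b e f h1 h2; omega)
    refine g5_step _ v ?_
    intro t dt
    have t1 := dt.left1 (m1 _ e1) l1
    have t2 := dt.left1 (m1 _ e2) l2
    have t3 := dt.right1 List.mem_cons_self (by omega) h5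
    have t4 := dt.base1 (m1 _ b0) le_rfl (by omega)
    exact g5_of (List.mem_cons_self) (mem_cons2 List.mem_cons_self) (mem_cons2 (m1 _ e1))
      (mem_cons2 (m1 _ e2)) (mem_cons2 (m1 _ b0)) (by omega)
  · -- the colour of the element on the right is `y`, the other colour is `x`
    obtain ⟨x, cy, cx, ey, ex, ly, lx, hxy, hxz⟩ : ∃ x cy cx : ℕ,
        (SE.s cy q, ({y} : Finset ℕ)) ∈ L ∧ (SE.s cx q, ({x} : Finset ℕ)) ∈ L ∧ cy < q ∧
        cx < q ∧ x ≠ y ∧ x ≠ z := by
      by_cases h : y = x₁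
      · subst h
        exact ⟨x₂, a₁, a₂, e1, e2, l1, l2, Ne.symm hx, hz2⟩
      · have h' : y = x₂ := by omega
        subst h'
        exact ⟨x₁, a₂, a₁, e2, e1, l2, l1, hx, hz1⟩
    have vw := SV.add (l := L₁.map Prod.fst) vY u₂ u₃ h3 K1 (by intro a b h; omega)
      (by intro a b e f h1 h2; omega)
    refine g5_step _ vw ?_
    intro w dw
    have wz : w ≠ z := dw.base1 (m1 _ b2) le_rfl h3
    set L₂ := (SE.s u₂ u₃, ({w} : Finset ℕ)) :: L₁ with hL₂
    have K2 := cons_K (a := u₂) (b := u₃) (A := {w}) K1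
    have m2 : ∀ x, x ∈ L → x ∈ L₂ := fun x h => List.mem_cons_of_mem _ (m1 x h)
    have my : (SE.s u₄ u₅, ({y} : Finset ℕ)) ∈ L₂ := mem_cons2 List.mem_cons_self
    by_cases hw1 : w = y
    · -- a family of two colours on the right
      have vt := SV.add (l := L₂.map Prod.fst) vw u₂ u₄ (by omega) K2 (by intro a b h; omega)
        (by intro a b e f h1 h2; omega)
      refine g5_step _ vt ?_
      intro t dt
      have tz := dt.base1 (m2 _ b2) le_rfl (by omega)
      have ty := dt.right1 my (by omega) h5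
      set L₃ := (SE.s u₂ u₄, ({t} : Finset ℕ)) :: L₂ with hL₃
      have K3 := cons_K (a := u₂) (b := u₄) (A := {t}) K2
      have m3 : ∀ x, x ∈ L → x ∈ L₃ := fun x h => List.mem_cons_of_mem _ (m2 x h)
      have mw : (SE.s u₂ u₃, ({w} : Finset ℕ)) ∈ L₃ := mem_cons2 List.mem_cons_self
      have mt : (SE.s u₂ u₄, ({t} : Finset ℕ)) ∈ L₃ := List.mem_cons_self
      by_cases htx : t = x
      · have vu := SV.add (l := L₃.map Prod.fst) vt q u₁ h1 K3 (by intro a b h; omega)
          (by intro a b e f h1 h2; omega)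
        refine g5_step _ vu ?_
        intro u du
        have ux := du.left1 (m3 _ ex) lx
        have uy := du.left1 (m3 _ ey) ly
        have uz := du.base1 (m3 _ b0) le_rfl h1
        have K4 := cons_K (a := q) (b := u₁) (A := {u}) K3
        have vv := SV.add (l := ((SE.s q u₁, ({u} : Finset ℕ)) :: L₃).map Prod.fst) vu u₁ u₂ h2
          K4 (by intro a b h; omega) (by intro a b e f h1 h2; omega)
        refine g5_step _ vv ?_
        intro v dv
        have vu' := dv.left1 List.mem_cons_self h1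
        have vx := dv.right1 (mem_cons2 mt) h2 (by omega)
        have vy := dv.right1 (mem_cons2 mw) h2 h3
        have vz := dv.base1 (mem_cons2 (m3 _ b1)) le_rfl h2
        exact g5_of (List.mem_cons_self) (mem_cons2 List.mem_cons_self)
          (mem_cons2 (mem_cons2 (m3 _ ex))) (mem_cons2 (mem_cons2 (m3 _ ey)))
          (mem_cons2 (mem_cons2 (m3 _ b0))) (by omega)
      · have vg := SV.add (l := L₃.map Prod.fst) vt q u₂ (by omega) K3 (by intro a b h; omega)
          (by intro a b e f h1 h2; omega)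
        refine g5_step _ vg ?_
        intro g dg
        have gx := dg.left1 (m3 _ ex) lx
        have gy := dg.left1 (m3 _ ey) ly
        have gz := dg.base1 (m3 _ b0) le_rfl (by omega)
        have gt := dg.right1 mt (by omega) (by omega)
        exact g5_of (List.mem_cons_self) (mem_cons2 mt) (mem_cons2 (m3 _ ex))
          (mem_cons2 (m3 _ ey)) (mem_cons2 (m3 _ b0)) (by omega)
    · by_cases hw2 : w = x
      · have vt := SV.add (l := L₂.map Prod.fst) vw q u₃ (by omega) K2 (by intro a b h; omega)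
          (by intro a b e f h1 h2; omega)
        refine g5_step _ vt ?_
        intro t dt
        have tx := dt.left1 (m2 _ ex) lx
        have ty := dt.left1 (m2 _ ey) ly
        have tz := dt.base1 (m2 _ b0) le_rfl (by omega)
        have K3 := cons_K (a := q) (b := u₃) (A := {t}) K2
        have vv := SV.add (l := ((SE.s q u₃, ({t} : Finset ℕ)) :: L₂).map Prod.fst) vt u₃ u₄ h4
          K3 (by intro a b h; omega) (by intro a b e f h1 h2; omega)
        refine g5_step _ vv ?_
        intro v dv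
        have v1 := dv.left1 List.mem_cons_self (by omega)
        have v2 := dv.left1 (mem_cons2 List.mem_cons_self) h3
        have v3 := dv.right1 (mem_cons2 my) h4 h5
        have v4 := dv.base1 (mem_cons2 (m2 _ b3)) le_rfl h4
        exact g5_of (List.mem_cons_self) (mem_cons2 List.mem_cons_self)
          (mem_cons2 (mem_cons2 (m2 _ ex))) (mem_cons2 (mem_cons2 (m2 _ ey)))
          (mem_cons2 (mem_cons2 (m2 _ b0))) (by omega)
      · have vt := SV.add (l := L₂.map Prod.fst) vw q u₂ (by omega) K2 (by intro a b h; omega)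
          (by intro a b e f h1 h2; omega)
        refine g5_step _ vt ?_
        intro t dt
        have tx := dt.left1 (m2 _ ex) lx
        have ty := dt.left1 (m2 _ ey) ly
        have tz := dt.base1 (m2 _ b0) le_rfl (by omega)
        have tw := dt.right1 List.mem_cons_self (by omega) h3
        exact g5_of (List.mem_cons_self) (mem_cons2 List.mem_cons_self)
          (mem_cons2 (m2 _ ex)) (mem_cons2 (m2 _ ey)) (mem_cons2 (m2 _ b0)) (by omega)

/-- Two colours on the right of a free region. -/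
theorem five_right {L : List (SE × Finset ℕ)} {z x₁ x₂ p v₁ v₂ v₃ v₄ v₅ a₁ a₂ : ℕ}
    (hv : SV (L.map Prod.fst)) (hstarts : ∀ a b, SE.s a b ∈ L.map Prod.fst → p ≤ a)
    (h1 : v₁ < p) (h2 : v₂ < v₁) (h3 : v₃ < v₂) (h4 : v₄ < v₃) (h5 : v₅ < v₄)
    (b1 : (SE.g v₁, ({z} : Finset ℕ)) ∈ L) (b2 : (SE.g v₂, ({z} : Finset ℕ)) ∈ L)
    (b3 : (SE.g v₃, ({z} : Finset ℕ)) ∈ L) (b4 : (SE.g v₄, ({z} : Finset ℕ)) ∈ L)
    (b5 : (SE.g v₅, ({z} : Finset ℕ)) ∈ L)
    (e1 : (SE.s p a₁, ({x₁} : Finset ℕ)) ∈ L) (e2 : (SE.s p a₂, ({x₂} : Finset ℕ)) ∈ L)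
    (hx : x₁ ≠ x₂) (hz1 : x₁ ≠ z) (hz2 : x₂ ≠ z) : G5 L := by
  have l1 : p < a₁ := hv.lt _ _ (List.mem_map.2 ⟨_, e1, rfl⟩)
  have l2 : p < a₂ := hv.lt _ _ (List.mem_map.2 ⟨_, e2, rfl⟩)
  have K0 : ∀ a b, SE.s a b ∈ L.map Prod.fst → (a < b ∧ p ≤ a) := fun a b h =>
    ⟨hv.lt a b h, hstarts a b h⟩
  have vY := hv.add v₅ v₄ h5 K0 (by intro a b h; omega) (by intro a b e f h1 h2; omega)
  refine g5_step _ vY ?_
  intro y dy
  have yz : y ≠ z := dy.base1 b5 le_rfl h5
  set L₁ := (SE.s v₅ v₄, ({y} : Finset ℕ)) :: L with hL₁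
  have K1 := cons_K (a := v₅) (b := v₄) (A := {y}) K0
  have m1 : ∀ x, x ∈ L → x ∈ L₁ := fun x h => List.mem_cons_of_mem _ h
  by_cases hy : y ≠ x₁ ∧ y ≠ x₂
  · have v := SV.add (l := L₁.map Prod.fst) vY v₄ p (by omega) K1 (by intro a b h; omega)
      (by intro a b e f h1 h2; omega)
    refine g5_step _ v ?_
    intro t dt
    have t1 := dt.right1 (m1 _ e1) (by omega) l1
    have t2 := dt.right1 (m1 _ e2) (by omega) l2
    have t3 := dt.left1 List.mem_cons_self h5
    have t4 := dt.base1 (m1 _ b4) le_rfl (by omega)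
    exact g5_of (List.mem_cons_self) (mem_cons2 List.mem_cons_self) (mem_cons2 (m1 _ e1))
      (mem_cons2 (m1 _ e2)) (mem_cons2 (m1 _ b4)) (by omega)
  · obtain ⟨x, cy, cx, ey, ex, ly, lx, hxy, hxz⟩ : ∃ x cy cx : ℕ,
        (SE.s p cy, ({y} : Finset ℕ)) ∈ L ∧ (SE.s p cx, ({x} : Finset ℕ)) ∈ L ∧ p < cy ∧
        p < cx ∧ x ≠ y ∧ x ≠ z := by
      by_cases h : y = x₁
      · subst h
        exact ⟨x₂, a₁, a₂, e1, e2, l1, l2, Ne.symm hx, hz2⟩
      · have h' : y = x₂ := by omega
        subst h'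
        exact ⟨x₁, a₂, a₁, e2, e1, l2, l1, hx, hz1⟩
    have vw := SV.add (l := L₁.map Prod.fst) vY v₃ v₂ h3 K1 (by intro a b h; omega)
      (by intro a b e f h1 h2; omega)
    refine g5_step _ vw ?_
    intro w dw
    have wz : w ≠ z := dw.base1 (m1 _ b3) le_rfl h3
    set L₂ := (SE.s v₃ v₂, ({w} : Finset ℕ)) :: L₁ with hL₂
    have K2 := cons_K (a := v₃) (b := v₂) (A := {w}) K1
    have m2 : ∀ x, x ∈ L → x ∈ L₂ := fun x h => List.mem_cons_of_mem _ (m1 x h)
    have my : (SE.s v₅ v₄, ({y} : Finset ℕ)) ∈ L₂ := mem_cons2 List.mem_cons_self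
    by_cases hw1 : w = y
    · have vt := SV.add (l := L₂.map Prod.fst) vw v₄ v₂ (by omega) K2 (by intro a b h; omega)
        (by intro a b e f h1 h2; omega)
      refine g5_step _ vt ?_
      intro t dt
      have tz := dt.base1 (m2 _ b4) le_rfl (by omega)
      have ty := dt.left1 my h5
      set L₃ := (SE.s v₄ v₂, ({t} : Finset ℕ)) :: L₂ with hL₃
      have K3 := cons_K (a := v₄) (b := v₂) (A := {t}) K2
      have m3 : ∀ x, x ∈ L → x ∈ L₃ := fun x h => List.mem_cons_of_mem _ (m2 x h)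
      have mw : (SE.s v₃ v₂, ({w} : Finset ℕ)) ∈ L₃ := mem_cons2 List.mem_cons_self
      have mt : (SE.s v₄ v₂, ({t} : Finset ℕ)) ∈ L₃ := List.mem_cons_self
      by_cases htx : t = x
      · have vu := SV.add (l := L₃.map Prod.fst) vt v₁ p h1 K3 (by intro a b h; omega)
          (by intro a b e f h1 h2; omega)
        refine g5_step _ vu ?_
        intro u du
        have ux := du.right1 (m3 _ ex) h1 lx
        have uy := du.right1 (m3 _ ey) h1 ly
        have uz := du.base1 (m3 _ b1) le_rfl h1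
        have K4 := cons_K (a := v₁) (b := p) (A := {u}) K3
        have vv := SV.add (l := ((SE.s v₁ p, ({u} : Finset ℕ)) :: L₃).map Prod.fst) vu v₂ v₁ h2
          K4 (by intro a b h; omega) (by intro a b e f h1 h2; omega)
        refine g5_step _ vv ?_
        intro v dv
        have vu' := dv.right1 List.mem_cons_self h2 h1
        have vx := dv.left1 (mem_cons2 mt) (by omega)
        have vy := dv.left1 (mem_cons2 mw) h3
        have vz := dv.base1 (mem_cons2 (m3 _ b2)) le_rfl h2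
        exact g5_of (List.mem_cons_self) (mem_cons2 List.mem_cons_self)
          (mem_cons2 (mem_cons2 (m3 _ ex))) (mem_cons2 (mem_cons2 (m3 _ ey)))
          (mem_cons2 (mem_cons2 (m3 _ b1))) (by omega)
      · have vg := SV.add (l := L₃.map Prod.fst) vt v₂ p (by omega) K3 (by intro a b h; omega)
          (by intro a b e f h1 h2; omega)
        refine g5_step _ vg ?_
        intro g dg
        have gx := dg.right1 (m3 _ ex) (by omega) lx
        have gy := dg.right1 (m3 _ ey) (by omega) ly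
        have gz := dg.base1 (m3 _ b2) le_rfl (by omega)
        have gt := dg.left1 mt (by omega)
        exact g5_of (List.mem_cons_self) (mem_cons2 mt) (mem_cons2 (m3 _ ex))
          (mem_cons2 (m3 _ ey)) (mem_cons2 (m3 _ b2)) (by omega)
    · by_cases hw2 : w = x
      · have vt := SV.add (l := L₂.map Prod.fst) vw v₃ p (by omega) K2 (by intro a b h; omega)
          (by intro a b e f h1 h2; omega)
        refine g5_step _ vt ?_
        intro t dt
        have tx := dt.right1 (m2 _ ex) (by omega) lx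
        have ty := dt.right1 (m2 _ ey) (by omega) ly
        have tz := dt.base1 (m2 _ b3) le_rfl (by omega)
        have K3 := cons_K (a := v₃) (b := p) (A := {t}) K2
        have vv := SV.add (l := ((SE.s v₃ p, ({t} : Finset ℕ)) :: L₂).map Prod.fst) vt v₄ v₃ h4
          K3 (by intro a b h; omega) (by intro a b e f h1 h2; omega)
        refine g5_step _ vv ?_
        intro v dv
        have v1 := dv.right1 List.mem_cons_self h4 (by omega)
        have v2 := dv.right1 (mem_cons2 List.mem_cons_self) h4 h3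
        have v3 := dv.left1 (mem_cons2 my) h5
        have v4 := dv.base1 (mem_cons2 (m2 _ b4)) le_rfl h4
        exact g5_of (List.mem_cons_self) (mem_cons2 List.mem_cons_self)
          (mem_cons2 (mem_cons2 (m2 _ ex))) (mem_cons2 (mem_cons2 (m2 _ ey)))
          (mem_cons2 (mem_cons2 (m2 _ b1))) (by omega)
      · have vt := SV.add (l := L₂.map Prod.fst) vw v₂ p (by omega) K2 (by intro a b h; omega)
          (by intro a b e f h1 h2; omega)
        refine g5_step _ vt ?_
        intro t dt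
        have tx := dt.right1 (m2 _ ex) (by omega) lx
        have ty := dt.right1 (m2 _ ey) (by omega) ly
        have tz := dt.base1 (m2 _ b2) le_rfl (by omega)
        have tw := dt.left1 List.mem_cons_self h3
        exact g5_of (List.mem_cons_self) (mem_cons2 List.mem_cons_self)
          (mem_cons2 (m2 _ ex)) (mem_cons2 (m2 _ ey)) (mem_cons2 (m2 _ b1)) (by omega)

/-- The adversary can force five colours in width two. -/
theorem fg_five : FG 2 1 5 := by
  refine base_stage (n := 14) ?_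
  intro L A c hv hA hc hb hn
  obtain ⟨z, rfl⟩ := Finset.card_eq_one.1 hA
  have s0 := hc 0 1 (by omega) (by omega)
  have s1 := hc 1 2 (by omega) (by omega)
  have s2 := hc 2 3 (by omega) (by omega)
  have s3 := hc 3 4 (by omega) (by omega)
  have s4 := hc 4 5 (by omega) (by omega)
  have s5 := hc 5 6 (by omega) (by omega)
  have s6 := hc 6 7 (by omega) (by omega)
  have s7 := hc 7 8 (by omega) (by omega)
  have s8 := hc 8 9 (by omega) (by omega)
  have s9 := hc 9 10 (by omega) (by omega)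
  have s10 := hc 10 11 (by omega) (by omega)
  have s11 := hc 11 12 (by omega) (by omega)
  have s12 := hc 12 13 (by omega) (by omega)
  have K0 : ∀ a b, SE.s a b ∈ L.map Prod.fst → a < a ∧ b < b := fun a b h =>
    absurd h (hn a b)
  have v1 := hv.add (c 5) (c 6) s5 K0 (by intro a b h; omega)
    (by intro a b e f h1 h2; omega)
  change G5 L
  refine g5_step _ v1 ?_
  intro x dx
  have xz := dx.base1 (hb 5 (by omega)) le_rfl s5
  have K1 := cons_K (a := c 5) (b := c 6) (A := {x}) K0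
  have v2 := SV.add (l := ((SE.s (c 5) (c 6), ({x} : Finset ℕ)) :: L).map Prod.fst) v1
    (c 7) (c 8) s7 K1 (by intro a b h; omega) (by intro a b e f h1 h2; omega)
  refine g5_step _ v2 ?_
  intro y dy
  have yz := dy.base1 (mem_cons2 (hb 7 (by omega))) le_rfl s7
  set L₂ := (SE.s (c 7) (c 8), ({y} : Finset ℕ)) :: (SE.s (c 5) (c 6), ({x} : Finset ℕ)) :: L
    with hL₂
  have K2 := cons_K (a := c 7) (b := c 8) (A := {y}) K1
  have hb2 : ∀ k < 14, (SE.g (c k), ({z} : Finset ℕ)) ∈ L₂ := fun k hk =>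
    mem_cons2 (mem_cons2 (hb k hk))
  have mx : (SE.s (c 5) (c 6), ({x} : Finset ℕ)) ∈ L₂ := mem_cons2 List.mem_cons_self
  have my : (SE.s (c 7) (c 8), ({y} : Finset ℕ)) ∈ L₂ := List.mem_cons_self
  by_cases hxy : x = y
  · have v3 := SV.add (l := L₂.map Prod.fst) v2 (c 6) (c 8) (by omega) K2
      (by intro a b h; omega) (by intro a b e f h1 h2; omega)
    refine g5_step _ v3 ?_
    intro t dt
    have tz := dt.base1 (hb2 6 (by omega)) le_rfl (by omega)
    have tx := dt.left1 mx s5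
    have K3 := cons_K (a := c 6) (b := c 8) (A := {t}) K2
    refine five_left (q := c 8) (u₁ := c 9) (u₂ := c 10) (u₃ := c 11) (u₄ := c 12) (u₅ := c 13)
      v3 ?_ s8 s9 s10 s11 s12 (mem_cons2 (hb2 8 (by omega))) (mem_cons2 (hb2 9 (by omega)))
      (mem_cons2 (hb2 10 (by omega))) (mem_cons2 (hb2 11 (by omega)))
      (mem_cons2 (hb2 12 (by omega))) (mem_cons2 my) List.mem_cons_self (by omega) yz tz
    intro a b h
    have := K3 a b h
    omega
  · have v3 := SV.add (l := L₂.map Prod.fst) v2 (c 5) (c 8) (by omega) K2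
      (by intro a b h; omega) (by intro a b e f h1 h2; omega)
    refine g5_step _ v3 ?_
    intro t dt
    have tz := dt.base1 (hb2 5 (by omega)) le_rfl (by omega)
    have K3 := cons_K (a := c 5) (b := c 8) (A := {t}) K2
    by_cases hty : t = y
    · refine five_right (p := c 5) (v₁ := c 4) (v₂ := c 3) (v₃ := c 2) (v₄ := c 1) (v₅ := c 0)
        v3 ?_ s4 s3 s2 s1 s0 (mem_cons2 (hb2 4 (by omega))) (mem_cons2 (hb2 3 (by omega)))
        (mem_cons2 (hb2 2 (by omega))) (mem_cons2 (hb2 1 (by omega)))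
        (mem_cons2 (hb2 0 (by omega))) (mem_cons2 mx) List.mem_cons_self (by omega) xz tz
      intro a b h
      have := K3 a b h
      omega
    · refine five_left (q := c 8) (u₁ := c 9) (u₂ := c 10) (u₃ := c 11) (u₄ := c 12)
        (u₅ := c 13) v3 ?_ s8 s9 s10 s11 s12 (mem_cons2 (hb2 8 (by omega)))
        (mem_cons2 (hb2 9 (by omega))) (mem_cons2 (hb2 10 (by omega)))
        (mem_cons2 (hb2 11 (by omega))) (mem_cons2 (hb2 12 (by omega))) (mem_cons2 my)
        List.mem_cons_self (by omega) yz tz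
      intro a b h
      have := K3 a b h
      omega

end Pool.Agent.Helper3.DW
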