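import Pool.Agent.Helper3.DW.Base

/-!
In width two, with `m` colours for every point, the adversary can force `4 m` colours.
-/

set_option autoImplicit false

namespace Pool.Agent.Helper3.DW

/-- The state of the strategy. -/
structure St (m n : ℕ) (c : ℕ → ℕ) (A : Finset ℕ) (k α : ℕ) (L : List (SE × Finset ℕ)) :
    Prop where
  sv : SV (L.map Prod.fst)
  base : ∀ j < n, (SE.g (c j), A) ∈ L
  ends : ∀ a b, SE.s a b ∈ L.map Prod.fst → b ≤ c k
  fam : ∃ X : Finset ℕ, m + α ≤ X.card ∧ Disjoint X A ∧
    ∀ x ∈ X, ∃ a C, (SE.s a (c k), C) ∈ L ∧ x ∈ C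

theorem mem_fst {L : List (SE × Finset ℕ)} {y : SE} {C : Finset ℕ} (h : (y, C) ∈ L) :
    y ∈ L.map Prod.fst := List.mem_map.2 ⟨(y, C), h, rfl⟩

/-- An element touching the family on the right avoids the colours of the family. -/
theorem fam_touch {L : List (SE × Finset ℕ)} (hv : SV (L.map Prod.fst)) {q b : ℕ}
    {X C : Finset ℕ} (hX : ∀ x ∈ X, ∃ a C, (SE.s a q, C) ∈ L ∧ x ∈ C)
    (h : Dis L (SE.s q b) C) : Disjoint C X := by
  rw [Finset.disjoint_right]
  intro x hx hc
  obtain ⟨a, C', h1, h2⟩ := hX x hx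
  have := h.left h1 (hv.lt _ _ (mem_fst h1))
  exact Finset.disjoint_left.1 this hc h2

theorem four_final {m n : ℕ} {c : ℕ → ℕ} {A : Finset ℕ} {k : ℕ} (hA : A.card = m)
    (hc : ∀ i j, i < j → j < n → c i < c j) {L : List (SE × Finset ℕ)}
    (hS : St m n c A k m L) (hk : k + 1 < n) :
    Force 2 m (fun P => 4 * m ≤ (cols P).card) (toPs L) := by
  obtain ⟨X, hX1, hX2, hX3⟩ := hS.fam
  have c1 := hc k (k + 1) (by omega) hk
  have hv := hS.sv.add (c k) (c (k + 1)) c1 (K := fun a b => a < b ∧ b ≤ c k)
    (fun a b h => ⟨hS.sv.lt a b h, hS.ends a b h⟩) (by intro a b h; omega)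
    (by intro a b e f h1 h2; omega)
  refine lstep (SE.s (c k) (c (k + 1))) hv ?_
  intro C hC hd
  change Dis L _ _ at hd
  refine Force.here _ ?_
  have d1 : Disjoint C X := fam_touch hS.sv hX3 hd
  have d2 : Disjoint C A := hd.base (hS.base k (by omega)) le_rfl c1
  have s1 : C ⊆ cols (toPs ((SE.s (c k) (c (k + 1)), C) :: L)) :=
    subset_cols List.mem_cons_self
  have s2 : A ⊆ cols (toPs ((SE.s (c k) (c (k + 1)), C) :: L)) :=
    subset_cols (List.mem_cons_of_mem _ (hS.base k (by omega)))
  have s3 : X ⊆ cols (toPs ((SE.s (c k) (c (k + 1)), C) :: L)) := by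
    intro x hx
    obtain ⟨a, C', h1, h2⟩ := hX3 x hx
    exact subset_cols (List.mem_cons_of_mem _ h1) h2
  have h3 : ((X ∪ A) ∪ C).card = X.card + A.card + C.card := by
    rw [Finset.card_union_of_disjoint, Finset.card_union_of_disjoint hX2]
    rw [Finset.disjoint_union_left]
    exact ⟨d1.symm, d2.symm⟩
  have h4 := Finset.card_le_card (Finset.union_subset (Finset.union_subset s3 s2) s1)
  omega

theorem four_step {m n : ℕ} {c : ℕ → ℕ} {A : Finset ℕ} {k α : ℕ} (hA : A.card = m)
    (hc : ∀ i j, i < j → j < n → c i < c j) {L : List (SE × Finset ℕ)}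
    (hS : St m n c A k α L) (hk : k + 2 < n)
    (next : ∀ L', St m n c A (k + 2) (α + 1) L' →
      Force 2 m (fun P => 4 * m ≤ (cols P).card) (toPs L')) :
    Force 2 m (fun P => 4 * m ≤ (cols P).card) (toPs L) := by
  obtain ⟨X, hX1, hX2, hX3⟩ := hS.fam
  have c1 := hc k (k + 1) (by omega) (by omega)
  have c2 := hc (k + 1) (k + 2) (by omega) hk
  set q := c k with hq
  set p := c (k + 1) with hp
  set r := c (k + 2) with hr
  have hv := hS.sv.add p r c2 (K := fun a b => a < b ∧ b ≤ q)
    (fun a b h => ⟨hS.sv.lt a b h, hS.ends a b h⟩) (by intro a b h; omega)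
    (by intro a b e f h1 h2; omega)
  refine lstep (SE.s p r) hv ?_
  intro B hB hd
  change Dis L _ _ at hd
  have dB : Disjoint B A := hd.base (hS.base (k + 1) (by omega)) le_rfl c2
  have hK : ∀ a b, SE.s a b ∈ ((SE.s p r, B) :: L).map Prod.fst →
      (a = p ∧ b = r) ∨ (a < b ∧ b ≤ q) := by
    intro a b h
    rw [List.map_cons] at h
    rcases List.mem_cons.1 h with h | h
    · injection h with e1 e2
      exact Or.inl ⟨e1, e2⟩
    · exact Or.inr ⟨hS.sv.lt a b h, hS.ends a b h⟩
  have hX3' : ∀ x ∈ X, ∃ a C, (SE.s a q, C) ∈ (SE.s p r, B) :: L ∧ x ∈ C := by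
    intro x hx
    obtain ⟨a, C', h1, h2⟩ := hX3 x hx
    exact ⟨a, C', List.mem_cons_of_mem _ h1, h2⟩
  by_cases hcase : 2 * m ≤ (X ∪ B).card
  · -- the final element
    have hv2 := SV.add (l := ((SE.s p r, B) :: L).map Prod.fst) hv q p c1 hK
      (by intro a b h; omega) (by intro a b e f h1 h2; omega)
    refine lstep (SE.s q p) hv2 ?_
    intro C hC hd2
    change Dis _ _ _ at hd2
    refine Force.here _ ?_
    have d1 : Disjoint C X := fam_touch (L := (SE.s p r, B) :: L) hv hX3' hd2
    have d2 : Disjoint C A :=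
      hd2.base (List.mem_cons_of_mem _ (hS.base k (by omega))) le_rfl c1
    have d3 : Disjoint C B := hd2.right List.mem_cons_self c1 c2
    have s1 : C ⊆ cols (toPs ((SE.s q p, C) :: (SE.s p r, B) :: L)) :=
      subset_cols List.mem_cons_self
    have s0 : B ⊆ cols (toPs ((SE.s q p, C) :: (SE.s p r, B) :: L)) :=
      subset_cols (List.mem_cons_of_mem _ List.mem_cons_self)
    have s2 : A ⊆ cols (toPs ((SE.s q p, C) :: (SE.s p r, B) :: L)) :=
      subset_cols (List.mem_cons_of_mem _ (List.mem_cons_of_mem _ (hS.base k (by omega))))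
    have s3 : X ⊆ cols (toPs ((SE.s q p, C) :: (SE.s p r, B) :: L)) := by
      intro x hx
      obtain ⟨a, C', h1, h2⟩ := hX3' x hx
      exact subset_cols (List.mem_cons_of_mem _ h1) h2
    have h3 : (((X ∪ B) ∪ A) ∪ C).card = (X ∪ B).card + A.card + C.card := by
      rw [Finset.card_union_of_disjoint, Finset.card_union_of_disjoint]
      · rw [Finset.disjoint_union_left]
        exact ⟨hX2, dB⟩
      · rw [Finset.disjoint_union_left, Finset.disjoint_union_left]
        exact ⟨⟨d1.symm, d3.symm⟩, d2.symm⟩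
    have h4 := Finset.card_le_card
      (Finset.union_subset (Finset.union_subset (Finset.union_subset s3 s0) s2) s1)
    omega
  · push Not at hcase
    have hv2 := SV.add (l := ((SE.s p r, B) :: L).map Prod.fst) hv q r (by omega) hK
      (by intro a b h; omega) (by intro a b e f h1 h2; omega)
    refine lstep (SE.s q r) hv2 ?_
    intro C hC hd2
    change Dis _ _ _ at hd2
    refine next _ ⟨hv2, ?_, ?_, C ∪ B, ?_, ?_, ?_⟩
    · intro j hj
      exact List.mem_cons_of_mem _ (List.mem_cons_of_mem _ (hS.base j hj))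
    · intro a b h
      rw [List.map_cons] at h
      rcases List.mem_cons.1 h with h | h
      · injection h with e1 e2
        omega
      · have := hK a b h
        omega
    · have d1 : Disjoint C X := fam_touch (L := (SE.s p r, B) :: L) hv hX3' hd2
      have h1 := Finset.card_union_add_card_inter X B
      have h2 : Disjoint C (X ∩ B) := Disjoint.mono_right Finset.inter_subset_left d1
      have h3 : C ∪ (X ∩ B) ⊆ C ∪ B :=
        Finset.union_subset_union_right Finset.inter_subset_right
      have h4 := Finset.card_le_card h3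
      rw [Finset.card_union_of_disjoint h2] at h4
      omega
    · have d2 : Disjoint C A :=
        hd2.base (List.mem_cons_of_mem _ (hS.base k (by omega))) le_rfl (by omega)
      rw [Finset.disjoint_union_left]
      exact ⟨d2, dB⟩
    · intro x hx
      rcases Finset.mem_union.1 hx with hx | hx
      · exact ⟨q, C, List.mem_cons_self, hx⟩
      · exact ⟨p, B, List.mem_cons_of_mem _ List.mem_cons_self, hx⟩

/-- The adversary can force `4 m` colours in width two. -/
theorem fourM (m : ℕ) : FG 2 m (4 * m) := by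
  refine base_stage (n := 2 * m + 4) ?_
  intro L A c hv hA hc hb hn
  have c1 := hc 0 1 (by omega) (by omega)
  have hv1 := hv.add (c 0) (c 1) c1 (K := fun _ _ => False)
    (fun a b h => hn a b h) (by intro a b h; exact h.elim)
    (by intro a b e f h1 h2; exact h1.elim)
  have key : ∀ j α k, α + j = m → k + 2 * j + 1 < 2 * m + 4 → ∀ L', St m (2 * m + 4) c A k α L' →
      Force 2 m (fun P => 4 * m ≤ (cols P).card) (toPs L') := by
    intro j
    induction j with
    | zero =>
      intro α k h1 h2 L' hS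
      have : α = m := by omega
      subst this
      exact four_final hA hc hS (by omega)
    | succ j ih =>
      intro α k h1 h2 L' hS
      exact four_step hA hc hS (by omega) fun L'' hS' => ih (α + 1) (k + 2) (by omega) (by omega)
        L'' hS'
  refine lstep (SE.s (c 0) (c 1)) hv1 ?_
  intro B hB hd
  change Dis L _ _ at hd
  refine key m 0 1 (by omega) (by omega) _ ⟨hv1, ?_, ?_, B, ?_, ?_, ?_⟩
  · intro j hj
    exact List.mem_cons_of_mem _ (hb j hj)
  · intro a b h
    rw [List.map_cons] at h
    rcases List.mem_cons.1 h with h | h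
    · injection h with e1 e2
      omega
    · exact absurd h (hn a b)
  · omega
  · exact hd.base (hb 0 (by omega)) le_rfl c1
  · intro x hx
    exact ⟨c 0, B, List.mem_cons_self, hx⟩

end Pool.Agent.Helper3.DW
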