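import Pool.Agent.Helper3.DW.Core

/-!
The product theorem: plays of the game of width `w₂` are substituted for the points of a play of
the game of width `w₁`.
-/

set_option autoImplicit false

namespace Pool.Agent.Helper3.DW

theorem good_cons_hole {w : ℕ} {R : Ps} {D U A : Finset ℕ} (hR : Good w R)
    (hg : Good w (⟨D, U, A⟩ :: R)) : IsHole w 1 R D U := by
  have hd : ∀ d ∈ D, plt (⟨D, U, A⟩ :: R) d R.length := fun d h => Or.inr (Or.inl ⟨rfl, h⟩)
  have hu : ∀ u ∈ U, plt (⟨D, U, A⟩ :: R) R.length u := fun d h => Or.inr (Or.inr ⟨rfl, h⟩)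
  have hdl : ∀ d ∈ D, d < R.length := by
    intro d h
    have h1 := (hg.lt_len _ _ (hd d h)).1
    simp only [List.length_cons] at h1
    have h2 : d ≠ R.length := by
      rintro rfl
      exact hg.irr _ (hd _ h)
    omega
  have hul : ∀ u ∈ U, u < R.length := by
    intro d h
    have h1 := (hg.lt_len _ _ (hu d h)).2
    simp only [List.length_cons] at h1
    have h2 : d ≠ R.length := by
      rintro rfl
      exact hg.irr _ (hu _ h)
    omega
  refine ⟨hdl, hul, ?_, ?_, ?_, ?_⟩
  · intro a d had h
    have h1 := hg.trans _ _ _ (Or.inl had) (hd d h)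
    rcases h1 with h2 | ⟨_, h2⟩ | ⟨h2, _⟩
    · have := (hR.lt_len _ _ h2).2; omega
    · exact h2
    · have := (hR.lt_len _ _ had).1; omega
  · intro u b hub h
    have h1 := hg.trans _ _ _ (hu u h) (Or.inl hub)
    rcases h1 with h2 | ⟨h2, _⟩ | ⟨_, h2⟩
    · have := (hR.lt_len _ _ h2).1; omega
    · have := (hR.lt_len _ _ hub).2; omega
    · exact h2
  · intro d h u h'
    exact (plt_old (hdl d h) (hul u h')).1 (hg.trans _ _ _ (hd d h) (hu u h'))
  · intro s hs ha
    have hn : R.length ∉ s := fun h => by have := (hs _ h).1; omega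
    have h1 := hg.width (insert R.length s) ?_ ?_
    · rwa [Finset.card_insert_of_notMem hn] at h1
    · intro i hi
      simp only [List.length_cons]
      rcases Finset.mem_insert.1 hi with rfl | hi
      · omega
      · have := (hs i hi).1; omega
    · intro i hi j hj hij
      rcases Finset.mem_insert.1 hi with rfl | hi
      · rcases Finset.mem_insert.1 hj with rfl | hj
        · exact hg.irr _ hij
        · rcases hij with h | ⟨h, _⟩ | ⟨_, h⟩
          · have := (hR.lt_len _ _ h).1; omega
          · have := (hs j hj).1; omega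
          · exact (hs j hj).2.2 h
      · rcases Finset.mem_insert.1 hj with rfl | hj
        · rcases hij with h | ⟨_, h⟩ | ⟨h, _⟩
          · have := (hR.lt_len _ _ h).2; omega
          · exact (hs i hi).2.1 h
          · have := (hs i hi).1; omega
        · exact ha i hi j hj ((plt_old (hs i hi).1 (hs j hj).1).1 hij)

/-- The position `P` is a substitution of blocks for the points of the position `R`. -/
structure Sim (w₁ w₂ m m₂ : ℕ) (R P : Ps) (blk : ℕ → ℕ) : Prop where
  outer : Inv w₁ m₂ R
  inner : Inv (w₁ * w₂) m P
  blk_lt : ∀ i < P.length, blk i < R.length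
  lt_iff : ∀ i j, i < P.length → j < P.length → blk i ≠ blk j →
    (plt P i j ↔ plt R (blk i) (blk j))
  wid : ∀ (b : ℕ) (s : Finset ℕ), (∀ i ∈ s, i < P.length ∧ blk i = b) →
    (∀ i ∈ s, ∀ j ∈ s, ¬ plt P i j) → s.card ≤ w₂
  col : ∀ b < R.length, ∀ c ∈ pcol R b, ∃ i < P.length, blk i = b ∧ c ∈ pcol P i

theorem prod_aux {w₁ w₂ m m₂ : ℕ} (h₂ : FG w₂ m m₂) {Q : Ps → Prop} {R : Ps}
    (h : Force w₁ m₂ Q R) : ∀ (P : Ps) (blk : ℕ → ℕ), Sim w₁ w₂ m m₂ R P blk →
      Force (w₁ * w₂) m (fun P' => ∃ R' blk', Q R' ∧ Sim w₁ w₂ m m₂ R' P' blk') P := by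
  induction h with
  | here R h => exact fun P blk hS => Force.here P ⟨R, blk, h, hS⟩
  | step R D U hg _ ih =>
    intro P blk hS
    classical
    have hH := good_cons_hole hS.outer.good hg
    set D' := (Finset.range P.length).filter (fun i => blk i ∈ D) with hD'
    set U' := (Finset.range P.length).filter (fun i => blk i ∈ U) with hU'
    have mD : ∀ i, i ∈ D' ↔ i < P.length ∧ blk i ∈ D := fun i => by
      rw [hD', Finset.mem_filter, Finset.mem_range]
    have mU : ∀ i, i ∈ U' ↔ i < P.length ∧ blk i ∈ U := fun i => by
      rw [hU', Finset.mem_filter, Finset.mem_range]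
    have hh : IsHole (w₁ * w₂) w₂ P D' U' := by
      refine ⟨fun d hd => ((mD d).1 hd).1, fun u hu => ((mU u).1 hu).1, ?_, ?_, ?_, ?_⟩
      · intro a d had hd
        have l := hS.inner.good.lt_len _ _ had
        rw [mD] at hd ⊢
        refine ⟨l.1, ?_⟩
        by_cases e : blk a = blk d
        · rw [e]; exact hd.2
        · exact hH.down _ _ ((hS.lt_iff a d l.1 l.2 e).1 had) hd.2
      · intro u b hub hu
        have l := hS.inner.good.lt_len _ _ hub
        rw [mU] at hu ⊢
        refine ⟨l.2, ?_⟩
        by_cases e : blk u = blk b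
        · rw [← e]; exact hu.2
        · exact hH.up _ _ ((hS.lt_iff u b l.1 l.2 e).1 hub) hu.2
      · intro d hd u hu
        rw [mD] at hd
        rw [mU] at hu
        have hlt := hH.lt _ hd.2 _ hu.2
        have e : blk d ≠ blk u := fun e => by
          rw [e] at hlt
          exact hS.outer.good.irr _ hlt
        exact (hS.lt_iff d u hd.1 hu.1 e).2 hlt
      · intro s hs ha
        have h1 : (s.image blk).card + 1 ≤ w₁ := by
          refine hH.cap _ ?_ ?_
          · intro b hb
            obtain ⟨i, hi, rfl⟩ := Finset.mem_image.1 hb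
            obtain ⟨l, hd, hu⟩ := hs i hi
            exact ⟨hS.blk_lt i l, fun h => hd ((mD i).2 ⟨l, h⟩), fun h => hu ((mU i).2 ⟨l, h⟩)⟩
          · intro b hb b' hb' hlt
            obtain ⟨i, hi, rfl⟩ := Finset.mem_image.1 hb
            obtain ⟨i', hi', rfl⟩ := Finset.mem_image.1 hb'
            have e : blk i ≠ blk i' := fun e => by
              rw [e] at hlt
              exact hS.outer.good.irr _ hlt
            exact ha i hi i' hi' ((hS.lt_iff i i' (hs i hi).1 (hs i' hi').1 e).2 hlt)
        have h2 : s.card ≤ w₂ * (s.image blk).card := by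
          refine Finset.card_le_mul_card_image s w₂ ?_
          intro b _
          refine hS.wid b _ ?_ ?_
          · intro i hi
            have := Finset.mem_filter.1 hi
            exact ⟨(hs i this.1).1, this.2⟩
          · intro i hi j hj
            exact ha i (Finset.mem_filter.1 hi).1 j (Finset.mem_filter.1 hj).1
        calc s.card + w₂ ≤ w₂ * (s.image blk).card + w₂ := by omega
          _ = w₂ * ((s.image blk).card + 1) := by ring
          _ ≤ w₂ * w₁ := Nat.mul_le_mul_left _ h1
          _ = w₁ * w₂ := Nat.mul_comm _ _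
    refine (Force.hole0 hS.inner hh h₂).bind ?_
    rintro P' ⟨hI, R₂, hQ, hR₂, rfl⟩
    obtain ⟨A, hAs, hAc⟩ := Finset.exists_subset_card_eq hQ
    have hsuf := suffix_glue P D' U' R₂
    have hinc : ∀ i < P.length, i ∉ D' → i ∉ U' → ∀ k < R₂.length,
        ¬ plt (glue P D' U' R₂) i (P.length + k) ∧ ¬ plt (glue P D' U' R₂) (P.length + k) i := by
      intro i hi hd hu k hk
      constructor
      · intro hlt
        rcases (plt_glue P D' U' R₂ _ _).1 hlt with h | ⟨a, b, h1, h2, h3⟩ | ⟨h1, b, h2, h3⟩ |
          ⟨h1, a, h2, h3⟩
        · have := (hS.inner.good.lt_len _ _ h).2; omega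
        · omega
        · exact hd h1
        · omega
      · intro hlt
        rcases (plt_glue P D' U' R₂ _ _).1 hlt with h | ⟨a, b, h1, h2, h3⟩ | ⟨h1, b, h2, h3⟩ |
          ⟨h1, a, h2, h3⟩
        · have := (hS.inner.good.lt_len _ _ h).1; omega
        · omega
        · omega
        · exact hu h1
    have hlegal : ∀ b < R.length, b ∉ D → b ∉ U → Disjoint A (pcol R b) := by
      intro b hb h1 h2
      rw [Finset.disjoint_left]
      intro c hc hc'
      obtain ⟨k, hk, hk'⟩ := mem_cols.1 (hAs hc)
      obtain ⟨i, hi, hbi, hi'⟩ := hS.col b hb c hc'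
      have hd : i ∉ D' := fun h => h1 (hbi ▸ ((mD i).1 h).2)
      have hu : i ∉ U' := fun h => h2 (hbi ▸ ((mU i).1 h).2)
      obtain ⟨n1, n2⟩ := hinc i hi hd hu k hk
      have := hI.disj i (P.length + k) (by rw [glue_length]; omega)
        (by rw [glue_length]; omega) (by omega) n1 n2
      rw [pcol_glue_new, pcol_glue_old hi] at this
      exact Finset.disjoint_left.1 this hi' hk'
    refine ih A hAc hlegal (glue P D' U' R₂) (fun i => if i < P.length then blk i else R.length) ?_
    have hbl : ∀ i, i < P.length → (if i < P.length then blk i else R.length) = blk i :=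
      fun i hi => if_pos hi
    have hbl' : ∀ i, ¬ i < P.length → (if i < P.length then blk i else R.length) = R.length :=
      fun i hi => if_neg hi
    refine ⟨hS.outer.step hg hAc hlegal, hI, ?_, ?_, ?_, ?_⟩
    · intro i hi
      simp only [List.length_cons]
      by_cases h : i < P.length
      · rw [hbl i h]
        have := hS.blk_lt i h
        omega
      · rw [hbl' i h]
        omega
    · intro i j hi hj hne
      rw [glue_length] at hi hj
      by_cases h : i < P.length
      · rw [hbl i h] at hne ⊢
        have b1 := hS.blk_lt i h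
        by_cases h' : j < P.length
        · rw [hbl j h'] at hne ⊢
          rw [plt_suffix hsuf h h', hS.lt_iff i j h h' hne, plt_old b1 (hS.blk_lt j h')]
        · rw [hbl' j h'] at hne ⊢
          constructor
          · intro hlt
            rcases (plt_glue P D' U' R₂ _ _).1 hlt with k | ⟨a, b, h1, h2, h3⟩ | ⟨h1, b, h2, h3⟩ |
              ⟨h1, a, h2, h3⟩
            · have := (hS.inner.good.lt_len _ _ k).2; omega
            · omega
            · exact Or.inr (Or.inl ⟨rfl, ((mD i).1 h1).2⟩)
            · omega
          · rintro (k | ⟨_, k⟩ | ⟨k, _⟩)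
            · have := (hS.outer.good.lt_len _ _ k).2; omega
            · exact (plt_glue P D' U' R₂ _ _).2 (Or.inr (Or.inr (Or.inl
                ⟨(mD i).2 ⟨h, k⟩, j - P.length, by omega, by omega⟩)))
            · omega
      · rw [hbl' i h] at hne ⊢
        by_cases h' : j < P.length
        · rw [hbl j h'] at hne ⊢
          have b1 := hS.blk_lt j h'
          constructor
          · intro hlt
            rcases (plt_glue P D' U' R₂ _ _).1 hlt with k | ⟨a, b, h1, h2, h3⟩ | ⟨h1, b, h2, h3⟩ |
              ⟨h1, a, h2, h3⟩
            · have := (hS.inner.good.lt_len _ _ k).1; omega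
            · omega
            · omega
            · exact Or.inr (Or.inr ⟨rfl, ((mU j).1 h1).2⟩)
          · rintro (k | ⟨k, _⟩ | ⟨_, k⟩)
            · have := (hS.outer.good.lt_len _ _ k).1; omega
            · omega
            · exact (plt_glue P D' U' R₂ _ _).2 (Or.inr (Or.inr (Or.inr
                ⟨(mU j).2 ⟨h', k⟩, i - P.length, by omega, by omega⟩)))
        · rw [hbl' j h'] at hne
          exact absurd rfl hne
    · intro b s hs ha
      by_cases hb : b = R.length
      · have hnew : ∀ i ∈ s, ¬ i < P.length := by
          intro i hi h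
          have := (hs i hi).2
          rw [hbl i h, hb] at this
          have := hS.blk_lt i h
          omega
        have hlen : ∀ i ∈ s, i < P.length + R₂.length := by
          intro i hi
          have := (hs i hi).1
          rwa [glue_length] at this
        have h2 : (s.image (fun i => i - P.length)).card ≤ w₂ := by
          refine hR₂.good.width _ ?_ ?_
          · intro i hi
            obtain ⟨k, hk, rfl⟩ := Finset.mem_image.1 hi
            have := hnew k hk
            have := hlen k hk
            omega
          · intro i hi i' hi' hlt'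
            obtain ⟨k, hk, rfl⟩ := Finset.mem_image.1 hi
            obtain ⟨k', hk', rfl⟩ := Finset.mem_image.1 hi'
            have e1 := hnew k hk
            have e2 := hnew k' hk'
            exact ha k hk k' hk' ((plt_glue P D' U' R₂ _ _).2
              (Or.inr (Or.inl ⟨_, _, by omega, by omega, hlt'⟩)))
        have h3 : (s.image (fun i => i - P.length)).card = s.card := by
          refine Finset.card_image_of_injOn ?_
          intro x hx y hy hxy
          have e1 := hnew x hx
          have e2 := hnew y hy
          simp only at hxy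
          omega
        omega
      · have hold : ∀ i ∈ s, i < P.length := by
          intro i hi
          by_contra h
          have := (hs i hi).2
          rw [hbl' i h] at this
          exact hb this.symm
        refine hS.wid b s ?_ ?_
        · intro i hi
          have := (hs i hi).2
          rw [hbl i (hold i hi)] at this
          exact ⟨hold i hi, this⟩
        · intro i hi j hj hij
          exact ha i hi j hj ((plt_suffix hsuf (hold i hi) (hold j hj)).2 hij)
    · intro b hb c hc
      simp only [List.length_cons] at hb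
      by_cases hb' : b = R.length
      · subst hb'
        rw [pcol_new] at hc
        obtain ⟨k, hk, hk'⟩ := mem_cols.1 (hAs hc)
        refine ⟨P.length + k, by rw [glue_length]; omega, hbl' _ (by omega), ?_⟩
        rw [pcol_glue_new]
        exact hk'
      · rw [pcol_old (by omega)] at hc
        obtain ⟨i, hi, hbi, hi'⟩ := hS.col b (by omega) c hc
        refine ⟨i, by rw [glue_length]; omega, by rw [hbl i hi]; exact hbi, ?_⟩
        rw [pcol_glue_old hi]
        exact hi'

/-- The product theorem. -/
theorem fg_prod {w₁ w₂ m m₂ M : ℕ} (h₂ : FG w₂ m m₂) (h₁ : FG w₁ m₂ M) :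
    FG (w₁ * w₂) m M := by
  have h0 : Sim w₁ w₂ m m₂ [] [] (fun _ => 0) := by
    refine ⟨inv_nil _ _, inv_nil _ _, ?_, ?_, ?_, ?_⟩
    · intro i hi; simp at hi
    · intro i j hi; simp at hi
    · intro b s hs _
      have : s = ∅ := Finset.eq_empty_of_forall_notMem fun i hi => by
        have := (hs i hi).1
        simp at this
      simp [this]
    · intro b hb; simp at hb
  refine (prod_aux h₂ h₁ [] _ h0).imp ?_
  rintro P ⟨R, blk, hQ, hS⟩
  refine le_trans hQ (Finset.card_le_card ?_)
  intro c hc
  obtain ⟨b, hb, hb'⟩ := mem_cols.1 hc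
  obtain ⟨i, hi, _, hi'⟩ := hS.col b hb c hb'
  exact mem_cols.2 ⟨i, hi, hi'⟩

end Pool.Agent.Helper3.DW
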