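import Pool.Agent.Helper3.DW.Diag
import Pool.Agent.Helper3.DW.Prod
import Pool.Agent.Helper3.DW.Asym
import Pool.Agent.Helper3.DW.Five
import Pool.Agent.Helper3.DW.FourM

/-!
The lower bounds for the number of computable chains.
-/

set_option autoImplicit false

namespace Pool.Agent.Helper3.DW

/-- The game for powers of two. -/
theorem fg_pow (j : ℕ) : FG (2 ^ (j + 1)) 1 (5 * 4 ^ j) := by
  induction j with
  | zero => simpa using fg_five
  | succ j ih =>
    have h := fg_prod ih (fourM (5 * 4 ^ j))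
    have e1 : 2 * 2 ^ (j + 1) = 2 ^ (j + 1 + 1) := by ring
    have e2 : 4 * (5 * 4 ^ j) = 5 * 4 ^ (j + 1) := by ring
    rwa [e1, e2] at h

/-- A computable poset of width `2 ^ (j + 1)` may need `5 * 4 ^ j` computable chains. -/
theorem pow_bound (j k : ℕ) (h : Suffices (2 ^ (j + 1)) k) : 5 * 4 ^ j ≤ k :=
  le_of_suffices (fg_pow j) h

theorem real_aux {T r M : ℝ} (hr : 0 ≤ r) (hT : r ≤ T) (hT' : T ≤ r + 1) (hT0 : 0 < T)
    (h : 5 * (2 * T - 1) * r ^ 4 ≤ 2 * T * M + 10 * T ^ 2 * r ^ 2) :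
    5 * r ^ 4 - 15 / 2 * r ^ 3 - 5 * r ^ 2 ≤ M := by
  by_contra hn
  push Not at hn
  have h1 : 2 * T * M < 2 * T * (5 * r ^ 4 - 15 / 2 * r ^ 3 - 5 * r ^ 2) :=
    mul_lt_mul_of_pos_left hn (by linarith)
  have h2 : 0 ≤ T * r ^ 2 * (r + 1 - T) :=
    mul_nonneg (mul_nonneg hT0.le (sq_nonneg r)) (by linarith)
  have h3 : 0 ≤ r ^ 3 * (T - r) := mul_nonneg (pow_nonneg hr 3) (by linarith)
  nlinarith [h1, h2, h3, h]

/-- The general lower bound. -/
theorem general_bound (w k : ℕ) (h : Suffices w k) :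
    5 / 4 * (w : ℝ) ^ 2 - 8 * (w : ℝ) * Real.sqrt w ≤ (k : ℝ) := by
  rcases Nat.eq_zero_or_pos w with rfl | hw
  · simp
  · set v := w / 2 with hv
    set t := Nat.sqrt v + 1 with ht
    obtain ⟨M, hM, hI⟩ := fg_quadratic (t := t) (m := 5) (by omega) (by omega) v
    have h1 : FG w 1 M := (fg_prod fg_five hM).mono (by omega) le_rfl
    have h2 : M ≤ k := le_of_suffices h1 h
    have h2' : (M : ℝ) ≤ (k : ℝ) := by exact_mod_cast h2
    set r := Real.sqrt v with hr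
    set s := Real.sqrt w with hs
    have r0 : 0 ≤ r := Real.sqrt_nonneg _
    have s0 : 0 ≤ s := Real.sqrt_nonneg _
    have r2 : r ^ 2 = (v : ℝ) := Real.sq_sqrt (Nat.cast_nonneg v)
    have s2 : s ^ 2 = (w : ℝ) := Real.sq_sqrt (Nat.cast_nonneg w)
    have s1 : 1 ≤ s := by
      rw [hs]
      rw [show (1 : ℝ) = Real.sqrt 1 by simp]
      exact Real.sqrt_le_sqrt (by exact_mod_cast hw)
    have t1 : r ≤ (t : ℝ) := by
      rw [hr]
      refine Real.sqrt_le_iff.2 ⟨Nat.cast_nonneg t, ?_⟩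
      have := (Nat.lt_succ_sqrt v).le
      have h' : v ≤ t ^ 2 := by rw [ht, sq]; exact this
      exact_mod_cast h'
    have t2 : (t : ℝ) ≤ r + 1 := by
      have h' : ((Nat.sqrt v : ℕ) : ℝ) ≤ r := by
        rw [hr]
        refine Real.le_sqrt_of_sq_le ?_
        have := Nat.sqrt_le' v
        exact_mod_cast this
      rw [ht]
      push_cast
      linarith
    have t0 : (0 : ℝ) < (t : ℝ) := by
      rw [ht]
      positivity
    have hI' : 5 * (2 * (t : ℝ) - 1) * r ^ 4 ≤ 2 * (t : ℝ) * M + 10 * (t : ℝ) ^ 2 * r ^ 2 := by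
      have h3 : (((2 * t - 1) * v ^ 2 * 5 : ℕ) : ℝ) ≤
          ((2 * t * M + 2 * t ^ 2 * v * 5 : ℕ) : ℝ) := by exact_mod_cast hI
      have h4 : ((2 * t - 1 : ℕ) : ℝ) = 2 * (t : ℝ) - 1 := by
        rw [Nat.cast_sub (by omega)]
        push_cast
        ring
      rw [Nat.cast_mul, Nat.cast_mul, h4] at h3
      push_cast at h3
      have h5 : r ^ 4 = (v : ℝ) ^ 2 := by rw [← r2]; ring
      rw [h5, r2]
      linarith
    have h6 := real_aux r0 t1 t2 t0 hI'
    -- comparison of `r` and `s`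
    have v1 : (w : ℝ) ≤ 2 * (v : ℝ) + 1 := by
      have : w ≤ 2 * v + 1 := by omega
      exact_mod_cast this
    have v2 : 2 * (v : ℝ) ≤ (w : ℝ) := by
      have : 2 * v ≤ w := by omega
      exact_mod_cast this
    rw [← r2, ← s2] at v1 v2
    have rs : r ≤ 3 / 4 * s := by
      by_contra hn
      push Not at hn
      nlinarith [hn, v2, s1]
    have c1 : 5 / 4 * s ^ 4 - 5 / 2 * s ^ 2 ≤ 5 * r ^ 4 := by
      have e1 : (s ^ 2 - 1) / 2 ≤ r ^ 2 := by linarith
      have e2 : 0 ≤ (s ^ 2 - 1) / 2 := by nlinarith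
      have e3 := mul_le_mul e1 e1 e2 (sq_nonneg r)
      nlinarith [e3]
    have c2 : r ^ 3 ≤ 3 / 8 * s ^ 3 := by
      have e1 : r ^ 2 ≤ s ^ 2 / 2 := by linarith
      have e2 := mul_le_mul rs e1 (sq_nonneg r) (by linarith)
      nlinarith [e2]
    have c3 : s ^ 2 ≤ s ^ 3 := by nlinarith [mul_nonneg (sq_nonneg s) (by linarith : 0 ≤ s - 1)]
    have e : 5 / 4 * (w : ℝ) ^ 2 - 8 * (w : ℝ) * s = 5 / 4 * s ^ 4 - 8 * s ^ 3 := by
      rw [← s2]; ring
    rw [e]
    nlinarith [h6, h2', c1, c2, c3, v2]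

end Pool.Agent.Helper3.DW
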