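import Pool.Agent.Helper3.DW.UG

/-!
The recursion on the width: an upper chain of a first position and a lower chain of a second
position above it leave a hole of capacity `w` in width `w + 1`.
-/

set_option autoImplicit false

namespace Pool.Agent.Helper3.DW

theorem maf_disj {w m : ℕ} {P : Ps} (hP : Inv w m P) {Y Z : Finset ℕ} {x y : ℕ}
    (hY : Maf P Y x) (hZ : Maf P Z y) (h : Disjoint Y Z) : Disjoint (colU P Y) (colU P Z) := by
  refine hP.disj_colU hY.len hZ.len fun i hi j hj => ⟨?_, ?_, ?_⟩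
  · rintro rfl
    exact Finset.disjoint_left.1 h hi hj
  · intro hlt
    exact Finset.disjoint_left.1 h hi (hZ.down j hj i hlt)
  · intro hlt
    exact Finset.disjoint_left.1 h (hY.down i hi j hlt) hj

theorem exists_small_inter {t : ℕ} (ht : 1 ≤ t) (a : Finset ℕ) (z : ℕ → Finset ℕ)
    (hz : ∀ i < t, ∀ j < t, i ≠ j → Disjoint (z i) (z j)) :
    ∃ j < t, t * (a ∩ z j).card ≤ a.card := by
  by_contra hn
  push Not at hn
  have h1 : ∑ j ∈ Finset.range t, (a ∩ z j).card ≤ a.card := by
    rw [← Finset.card_biUnion]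
    · refine Finset.card_le_card ?_
      intro c hc
      obtain ⟨j, _, hj⟩ := Finset.mem_biUnion.1 hc
      exact (Finset.mem_inter.1 hj).1
    · intro i hi j hj hij
      refine Disjoint.mono Finset.inter_subset_right Finset.inter_subset_right ?_
      exact hz i (Finset.mem_range.1 hi) j (Finset.mem_range.1 hj) hij
  have h2 : ∑ _j ∈ Finset.range t, (a.card + 1) ≤
      ∑ j ∈ Finset.range t, t * (a ∩ z j).card :=
    Finset.sum_le_sum fun j hj => hn j (Finset.mem_range.1 hj)
  rw [Finset.sum_const, Finset.card_range, smul_eq_mul, ← Finset.mul_sum] at h2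
  have h3 := Nat.mul_le_mul_left t h1
  have h4 : t * (a.card + 1) = t * a.card + t := by ring
  omega

/-- The recursion on the width. -/
theorem mstep {w m M K t : ℕ} (hM : FG w m M) (ht : 1 ≤ t) (htw : t ≤ w + 1)
    (hK : t * K ≤ ((t - 1) * (w + 1) + t * (w + 2 - t)) * m) : FG (w + 1) m (M + K) := by
  classical
  refine ((ug m (w + 1)).inv (inv_nil (w + 1) m)).bind ?_
  rintro P₁ ⟨⟨Y, hY1, _⟩, hP₁, _⟩
  have hY := hY1 w (by omega)
  have hh₁ : IsHole (w + 1) (w + 1) P₁ (Finset.range P₁.length) ∅ := by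
    refine ⟨fun d hd => Finset.mem_range.1 hd, fun u hu => by simp at hu, ?_, ?_, ?_, ?_⟩
    · intro a d had _
      exact Finset.mem_range.2 (hP₁.good.lt_len _ _ had).1
    · intro u b _ hu; simp at hu
    · intro d _ u hu; simp at hu
    · intro s hs _
      have : s = ∅ := Finset.eq_empty_of_forall_notMem fun i hi => by
        obtain ⟨h1, h2, _⟩ := hs i hi
        exact h2 (Finset.mem_range.2 h1)
      simp [this]
  refine (Force.hole0 hP₁ hh₁ (dgq_of_ugq (ug m (w + 1)))).bind ?_
  rintro P₂ ⟨hP₂, R, ⟨Z, hZ1, hZ2⟩, hR, rfl⟩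
  set n := P₁.length with hn
  set P₂ := glue P₁ (Finset.range n) ∅ R with hP₂def
  have key := plt_glue P₁ (Finset.range n) ∅ R
  rw [← hP₂def] at key
  have hsuf : P₁ <:+ P₂ := suffix_glue _ _ _ _
  have hlen₂ : P₂.length = n + R.length := glue_length _ _ _ _
  -- the choice of the lower chain
  obtain ⟨j, hj, hjt⟩ := exists_small_inter ht (colU P₁ (Y w)) (fun j => colU R (Z (w - j))) (by
    intro i hi i' hi' hii
    refine maf_disj hR (hZ1 _ (by omega)) (hZ1 _ (by omega)) (hZ2 _ (by omega) _ (by omega) ?_)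
    omega)
  have hZ := hZ1 (w - j) (by omega)
  set Zj := Z (w - j) with hZj
  have hunion : K ≤ (colU P₁ (Y w) ∪ colU R Zj).card := by
    have h1 := Finset.card_union_add_card_inter (colU P₁ (Y w)) (colU R Zj)
    have h2 := hY.size
    have h3 := hZ.size
    have h4 : (w + 2 - t) * m ≤ (w - j + 1) * m := Nat.mul_le_mul_right m (by omega)
    set a := (colU P₁ (Y w)).card
    set z := (colU R Zj).card
    set u := (colU P₁ (Y w) ∪ colU R Zj).card
    set i := (colU P₁ (Y w) ∩ colU R Zj).card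
    have h5 : (t - 1) * ((w + 1) * m) ≤ (t - 1) * a := Nat.mul_le_mul_left _ h2
    have h6 : t * ((w + 2 - t) * m) ≤ t * z := Nat.mul_le_mul_left _ (h4.trans h3)
    have h7 : t * u + t * i = t * a + t * z := by rw [← mul_add, ← mul_add, h1]
    have h8 : (t - 1) * a + a = t * a := by
      obtain ⟨t', rfl⟩ : ∃ t', t = t' + 1 := ⟨t - 1, by omega⟩
      simp only [Nat.add_sub_cancel]
      ring
    have h9 : ((t - 1) * (w + 1) + t * (w + 2 - t)) * m =
        (t - 1) * ((w + 1) * m) + t * ((w + 2 - t) * m) := by ring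
    have h10 : t * K ≤ t * u := by omega
    exact Nat.le_of_mul_le_mul_left h10 (by omega)
  -- the hole
  set D := (Finset.range n) \ (Y w) with hD
  set U := sh n ((Finset.range R.length) \ Zj) with hU
  have mD : ∀ i, i ∈ D ↔ i < n ∧ i ∉ Y w := fun i => by
    rw [hD, Finset.mem_sdiff, Finset.mem_range]
  have mU : ∀ i, i ∈ U ↔ ∃ k, k < R.length ∧ k ∉ Zj ∧ i = n + k := fun i => by
    rw [hU, mem_sh]
    constructor
    · rintro ⟨k, hk, rfl⟩
      rw [Finset.mem_sdiff, Finset.mem_range] at hk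
      exact ⟨k, hk.1, hk.2, rfl⟩
    · rintro ⟨k, h1, h2, rfl⟩
      exact ⟨k, by rw [Finset.mem_sdiff, Finset.mem_range]; exact ⟨h1, h2⟩, rfl⟩
  have hin : ∀ i, i < P₂.length → i ∉ D → i ∉ U → i ∈ Y w ∨ ∃ k ∈ Zj, i = n + k := by
    intro i hi hd hu
    by_cases h : i < n
    · left
      by_contra hy
      exact hd ((mD i).2 ⟨h, hy⟩)
    · right
      refine ⟨i - n, ?_, by omega⟩
      by_contra hz
      exact hu ((mU i).2 ⟨i - n, by omega, hz, by omega⟩)
  have hh : IsHole (w + 1) w P₂ D U := by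
    refine ⟨?_, ?_, ?_, ?_, ?_, ?_⟩
    · intro d hd
      have := ((mD d).1 hd).1
      omega
    · intro u hu
      obtain ⟨k, h1, _, rfl⟩ := (mU u).1 hu
      omega
    · intro a d had hd
      have hd' := (mD d).1 hd
      rcases (key a d).1 had with h | ⟨a', b', h1, h2, h3⟩ | ⟨h1, b', h2, h3⟩ | ⟨h1, a', h2, h3⟩
      · exact (mD a).2 ⟨(hP₁.good.lt_len _ _ h).1, fun ha => hd'.2 (hY.up a ha d h)⟩
      · omega
      · omega
      · simp at h1
    · intro u b hub hu
      obtain ⟨k, k1, k2, rfl⟩ := (mU u).1 hu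
      rcases (key _ b).1 hub with h | ⟨a', b', h1, h2, h3⟩ | ⟨h1, b', h2, h3⟩ | ⟨h1, a', h2, h3⟩
      · have := (hP₁.good.lt_len _ _ h).1
        omega
      · have : a' = k := by omega
        subst this
        exact (mU b).2 ⟨b', (hR.good.lt_len _ _ h3).2, fun hb => k2 (hZ.down b' hb _ h3), h2⟩
      · rw [Finset.mem_range] at h1
        omega
      · simp at h1
    · intro d hd u hu
      obtain ⟨k, k1, k2, rfl⟩ := (mU u).1 hu
      exact (key _ _).2 (Or.inr (Or.inr (Or.inl
        ⟨Finset.mem_range.2 ((mD d).1 hd).1, k, k1, rfl⟩)))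
    · intro s hs ha
      have : s.card ≤ 1 := by
        rw [Finset.card_le_one]
        intro i hi i' hi'
        by_contra hii
        obtain ⟨l, d, u⟩ := hs i hi
        obtain ⟨l', d', u'⟩ := hs i' hi'
        rcases hin i l d u with h | ⟨k, hk, rfl⟩
        · rcases hin i' l' d' u' with h' | ⟨k', hk', rfl⟩
          · rcases hY.chain i h i' h' hii with h1 | h1
            · exact ha i hi i' hi' ((key _ _).2 (Or.inl h1))
            · exact ha i' hi' i hi ((key _ _).2 (Or.inl h1))
          · exact ha i hi _ hi' ((key _ _).2 (Or.inr (Or.inr (Or.inl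
              ⟨Finset.mem_range.2 (hY.len i h), k', by omega, rfl⟩))))
        · rcases hin i' l' d' u' with h' | ⟨k', hk', rfl⟩
          · exact ha i' hi' _ hi ((key _ _).2 (Or.inr (Or.inr (Or.inl
              ⟨Finset.mem_range.2 (hY.len i' h'), k, by omega, rfl⟩))))
          · rcases hZ.chain k hk k' hk' (by omega) with h1 | h1
            · exact ha _ hi _ hi' ((key _ _).2 (Or.inr (Or.inl ⟨_, _, rfl, rfl, h1⟩)))
            · exact ha _ hi' _ hi ((key _ _).2 (Or.inr (Or.inl ⟨_, _, rfl, rfl, h1⟩)))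
      omega
  refine (Force.hole0 hP₂ hh hM).imp ?_
  rintro P₃ ⟨hP₃, R₃, hQ, hR₃, rfl⟩
  set P₃ := glue P₂ D U R₃ with hP₃def
  have key₃ := plt_glue P₂ D U R₃
  rw [← hP₃def] at key₃
  have hlen₃ : P₃.length = P₂.length + R₃.length := glue_length _ _ _ _
  have hsub1 : cols R₃ ⊆ cols P₃ := by
    intro c hc
    obtain ⟨k, hk, hk'⟩ := mem_cols.1 hc
    refine mem_cols.2 ⟨P₂.length + k, by omega, ?_⟩
    rw [hP₃def, pcol_glue_new]
    exact hk'
  have hmem : ∀ c, c ∈ colU P₁ (Y w) ∪ colU R Zj →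
      ∃ i < P₂.length, i ∉ D ∧ i ∉ U ∧ c ∈ pcol P₃ i := by
    intro c hc
    rcases Finset.mem_union.1 hc with hc | hc
    · obtain ⟨i, hi, hic⟩ := mem_colU.1 hc
      have hil := hY.len i hi
      refine ⟨i, by omega, fun hd => ((mD i).1 hd).2 hi, fun hu => ?_, ?_⟩
      · obtain ⟨k, _, _, rfl⟩ := (mU i).1 hu
        omega
      · rw [hP₃def, pcol_glue_old (by omega), hP₂def, pcol_glue_old hil]
        exact hic
    · obtain ⟨k, hk, hkc⟩ := mem_colU.1 hc
      have hkl := hZ.len k hk
      refine ⟨n + k, by omega, fun hd => ?_, fun hu => ?_, ?_⟩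
      · have := ((mD _).1 hd).1
        omega
      · obtain ⟨k', _, h2, h3⟩ := (mU _).1 hu
        have : k' = k := by omega
        subst this
        exact h2 hk
      · rw [hP₃def, pcol_glue_old (by omega), hP₂def, hn, pcol_glue_new]
        exact hkc
  have hsub2 : colU P₁ (Y w) ∪ colU R Zj ⊆ cols P₃ := by
    intro c hc
    obtain ⟨i, hi, _, _, hic⟩ := hmem c hc
    exact mem_cols.2 ⟨i, by omega, hic⟩
  have hdis : Disjoint (cols R₃) (colU P₁ (Y w) ∪ colU R Zj) := by
    rw [Finset.disjoint_left]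
    intro c hc hc'
    obtain ⟨i, hi, hd, hu, hic⟩ := hmem c hc'
    obtain ⟨k, hk, hk'⟩ := mem_cols.1 hc
    have hd3 := hP₃.disj i (P₂.length + k) (by omega) (by omega) (by omega) (by
        intro hlt
        rcases (key₃ _ _).1 hlt with h | ⟨a, b, h1, h2, h3⟩ | ⟨h1, b, h2, h3⟩ | ⟨h1, a, h2, h3⟩
        · have := (hP₂.good.lt_len _ _ h).2; omega
        · omega
        · exact hd h1
        · omega) (by
        intro hlt
        rcases (key₃ _ _).1 hlt with h | ⟨a, b, h1, h2, h3⟩ | ⟨h1, b, h2, h3⟩ | ⟨h1, a, h2, h3⟩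
        · have := (hP₂.good.lt_len _ _ h).1; omega
        · omega
        · omega
        · exact hu h1)
    rw [hP₃def, pcol_glue_new, ← hP₃def] at hd3
    exact Finset.disjoint_left.1 hd3 hic hk'
  calc M + K ≤ (cols R₃).card + (colU P₁ (Y w) ∪ colU R Zj).card := Nat.add_le_add hQ hunion
    _ = (cols R₃ ∪ (colU P₁ (Y w) ∪ colU R Zj)).card :=
        (Finset.card_union_of_disjoint hdis).symm
    _ ≤ (cols P₃).card := Finset.card_le_card (Finset.union_subset hsub1 hsub2)

end Pool.Agent.Helper3.DW
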