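import Pool.Agent.Helper3.DW.Core

/-!
Positions of width two given by a long chain and intervals of it.
-/

set_option autoImplicit false

namespace Pool.Agent.Helper3.DW

/-- A point of the chain (`g i` lies between the cuts `i` and `i + 1`), or an element with
interval `(a, b)`, incomparable to the points of the chain between the cuts `a` and `b`. -/
inductive SE : Type
  | g (i : ℕ) : SE
  | s (a b : ℕ) : SE
  deriving DecidableEq

/-- The strict order. -/
def SE.r : SE → SE → Prop
  | g i, g j => i < j
  | g i, s a _ => i < a
  | s _ b, g i => b ≤ i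
  | s a b, s c d => a ≤ c ∧ b ≤ d ∧ b ≠ c ∧ ¬ (a = c ∧ b = d)

instance : DecidableRel SE.r := fun x y => by
  cases x <;> cases y <;> simp only [SE.r] <;> infer_instance

/-- The conditions on a set of elements. -/
structure SV (l : List SE) : Prop where
  nodup : l.Nodup
  lt : ∀ a b, SE.s a b ∈ l → a < b
  nest : ∀ a b c d, SE.s a b ∈ l → SE.s c d ∈ l → (a ≤ c ∧ b ≤ d) ∨ (c ≤ a ∧ d ≤ b)
  strad : ∀ a b d e f, SE.s a b ∈ l → SE.s b d ∈ l → SE.s e f ∈ l → ¬ (e < b ∧ b < f)

theorem SE.r_irr (x : SE) : ¬ x.r x := by
  cases x <;> simp [SE.r]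

theorem SV.trans {l : List SE} (h : SV l) {x y z : SE} (hx : x ∈ l) (hy : y ∈ l) (hz : z ∈ l)
    (hxy : x.r y) (hyz : y.r z) : x.r z := by
  cases x with
  | g i =>
    cases y with
    | g j =>
      cases z with
      | g k => simp only [SE.r] at *; omega
      | s e f => simp only [SE.r] at *; omega
    | s c d =>
      have h1 := h.lt c d hy
      cases z with
      | g k => simp only [SE.r] at *; omega
      | s e f => simp only [SE.r] at *; omega
  | s a b =>
    have h0 := h.lt a b hx
    cases y with
    | g j =>
      cases z with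
      | g k => simp only [SE.r] at *; omega
      | s e f =>
        have h2 := h.lt e f hz
        simp only [SE.r] at *
        omega
    | s c d =>
      have h1 := h.lt c d hy
      cases z with
      | g k => simp only [SE.r] at *; omega
      | s e f =>
        have h2 := h.lt e f hz
        simp only [SE.r] at *
        refine ⟨by omega, by omega, ?_, by omega⟩
        intro hbe
        subst hbe
        have := h.strad a b f c d hx hz hy
        omega

theorem SV.three {l : List SE} (h : SV l) {x y z : SE} (hx : x ∈ l) (hy : y ∈ l) (hz : z ∈ l)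
    (hxy : x ≠ y) (hxz : x ≠ z) (hyz : y ≠ z) :
    x.r y ∨ y.r x ∨ x.r z ∨ z.r x ∨ y.r z ∨ z.r y := by
  cases x with
  | g i =>
    cases y with
    | g j =>
      have : i ≠ j := fun e => hxy (by rw [e])
      simp only [SE.r]
      omega
    | s c d =>
      have h1 := h.lt c d hy
      cases z with
      | g k =>
        have : i ≠ k := fun e => hxz (by rw [e])
        simp only [SE.r]
        omega
      | s e f =>
        have h2 := h.lt e f hz
        have h3 := h.nest c d e f hy hz
        have : ¬ (c = e ∧ d = f) := fun e => hyz (by rw [e.1, e.2])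
        simp only [SE.r]
        omega
  | s a b =>
    have h0 := h.lt a b hx
    cases y with
    | g j =>
      cases z with
      | g k =>
        have : j ≠ k := fun e => hyz (by rw [e])
        simp only [SE.r]
        omega
      | s e f =>
        have h2 := h.lt e f hz
        have h3 := h.nest a b e f hx hz
        have : ¬ (a = e ∧ b = f) := fun e => hxz (by rw [e.1, e.2])
        simp only [SE.r]
        omega
    | s c d =>
      have h1 := h.lt c d hy
      have h4 := h.nest a b c d hx hy
      have h7 : ¬ (a = c ∧ b = d) := fun e => hxy (by rw [e.1, e.2])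
      cases z with
      | g k =>
        simp only [SE.r]
        omega
      | s e f =>
        have h2 := h.lt e f hz
        have h3 := h.nest a b e f hx hz
        have h5 := h.nest c d e f hy hz
        have h8 : ¬ (a = e ∧ b = f) := fun e => hxz (by rw [e.1, e.2])
        have h9 : ¬ (c = e ∧ d = f) := fun e => hyz (by rw [e.1, e.2])
        simp only [SE.r]
        omega

/-- The label of a point. -/
def lat : List SE → ℕ → SE
  | [], _ => SE.g 0
  | x :: l, i => if i = l.length then x else lat l i

theorem lat_mem {l : List SE} {i : ℕ} (hi : i < l.length) : lat l i ∈ l := by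
  induction l with
  | nil => simp at hi
  | cons x l ih =>
    simp only [lat]
    by_cases h : i = l.length
    · rw [if_pos h]; exact List.mem_cons_self
    · rw [if_neg h]
      exact List.mem_cons_of_mem _ (ih (by simp only [List.length_cons] at hi; omega))

theorem lat_inj {l : List SE} (h : l.Nodup) {i j : ℕ} (hi : i < l.length) (hj : j < l.length)
    (hij : lat l i = lat l j) : i = j := by
  induction l with
  | nil => simp at hi
  | cons x l ih =>
    simp only [lat] at hij
    simp only [List.length_cons] at hi hj
    rw [List.nodup_cons] at h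
    by_cases h1 : i = l.length
    · rw [if_pos h1] at hij
      by_cases h2 : j = l.length
      · omega
      · rw [if_neg h2] at hij
        exact absurd (hij ▸ lat_mem (by omega)) h.1
    · rw [if_neg h1] at hij
      by_cases h2 : j = l.length
      · rw [if_pos h2] at hij
        exact absurd (hij ▸ lat_mem (i := i) (by omega)) h.1
      · rw [if_neg h2] at hij
        exact ih h.2 (by omega) (by omega) hij

/-- The position with given labels. -/
def toPs : List (SE × Finset ℕ) → Ps
  | [] => []
  | (x, A) :: L =>
    ⟨(Finset.range L.length).filter (fun i => (lat (L.map Prod.fst) i).r x),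
      (Finset.range L.length).filter (fun i => x.r (lat (L.map Prod.fst) i)), A⟩ :: toPs L

@[simp] theorem toPs_length (L : List (SE × Finset ℕ)) : (toPs L).length = L.length := by
  induction L with
  | nil => rfl
  | cons x L ih => obtain ⟨x, A⟩ := x; simp [toPs, ih]

theorem plt_toPs (L : List (SE × Finset ℕ)) (i j : ℕ) :
    plt (toPs L) i j ↔ i < L.length ∧ j < L.length ∧ i ≠ j ∧
      (lat (L.map Prod.fst) i).r (lat (L.map Prod.fst) j) := by
  induction L with
  | nil => simp [toPs, plt]
  | cons x L ih =>
    obtain ⟨x, A⟩ := x
    simp only [toPs, plt, ih, toPs_length, Finset.mem_filter, Finset.mem_range, List.map_cons,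
      List.length_cons, lat, List.length_map]
    by_cases hi : i = L.length
    · subst hi
      by_cases hj : j = L.length
      · subst hj
        simp
      · simp only [if_true, if_neg hj]
        constructor
        · rintro (h | h | h)
          · omega
          · omega
          · exact ⟨by omega, by omega, by omega, h.2.2⟩
        · rintro ⟨_, h1, _, h2⟩
          exact Or.inr (Or.inr ⟨trivial, by omega, h2⟩)
    · by_cases hj : j = L.length
      · subst hj
        simp only [if_true, if_neg hi]
        constructor
        · rintro (h | h | h)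
          · omega
          · exact ⟨by omega, by omega, by omega, h.2.2⟩
          · omega
        · rintro ⟨_, h1, _, h2⟩
          exact Or.inr (Or.inl ⟨trivial, by omega, h2⟩)
      · simp only [if_neg hi, if_neg hj]
        constructor
        · rintro (h | h | h)
          · exact ⟨by omega, by omega, h.2.2.1, h.2.2.2⟩
          · omega
          · omega
        · rintro ⟨h1, h2, h3, h4⟩
          exact Or.inl ⟨by omega, by omega, h3, h4⟩

theorem good_toPs {L : List (SE × Finset ℕ)} (h : SV (L.map Prod.fst)) : Good 2 (toPs L) := by
  have hm : ∀ i, i < L.length → lat (L.map Prod.fst) i ∈ L.map Prod.fst := fun i hi =>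
    lat_mem (by simpa using hi)
  refine ⟨?_, ?_, ?_, ?_⟩
  · intro i j hij
    rw [plt_toPs] at hij
    rw [toPs_length]
    exact ⟨hij.1, hij.2.1⟩
  · intro i hi
    rw [plt_toPs] at hi
    exact hi.2.2.1 rfl
  · intro i j k hij hjk
    rw [plt_toPs] at *
    have ht := h.trans (hm i hij.1) (hm j hij.2.1) (hm k hjk.2.1) hij.2.2.2 hjk.2.2.2
    refine ⟨hij.1, hjk.2.1, ?_, ht⟩
    rintro rfl
    exact SE.r_irr _ ht
  · intro s hs ha
    by_contra hc
    push Not at hc
    obtain ⟨i, j, k, hi, hj, hk, hij, hik, hjk⟩ := Finset.two_lt_card_iff.1 hc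
    simp only [toPs_length] at hs
    have li := hs i hi
    have lj := hs j hj
    have lk := hs k hk
    have e : ∀ a b, a < L.length → b < L.length → a ≠ b →
        lat (L.map Prod.fst) a ≠ lat (L.map Prod.fst) b := fun a b h1 h2 h3 h4 =>
      h3 (lat_inj h.nodup (by simpa using h1) (by simpa using h2) h4)
    have n : ∀ a ∈ s, ∀ b ∈ s, a ≠ b →
        ¬ (lat (L.map Prod.fst) a).r (lat (L.map Prod.fst) b) := fun a h1 b h2 h3 h4 =>
      ha a h1 b h2 ((plt_toPs _ _ _).2 ⟨hs a h1, hs b h2, h3, h4⟩)
    rcases h.three (hm i li) (hm j lj) (hm k lk) (e i j li lj hij) (e i k li lk hik)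
      (e j k lj lk hjk) with h | h | h | h | h | h
    · exact n i hi j hj hij h
    · exact n j hj i hi hij.symm h
    · exact n i hi k hk hik h
    · exact n k hk i hi hik.symm h
    · exact n j hj k hk hjk h
    · exact n k hk j hj hjk.symm h

theorem mem_index {L : List (SE × Finset ℕ)} {y : SE} {C : Finset ℕ} (h : (y, C) ∈ L) :
    ∃ i < L.length, lat (L.map Prod.fst) i = y ∧ pcol (toPs L) i = C := by
  induction L with
  | nil => simp at h
  | cons x L ih =>
    obtain ⟨x, A⟩ := x
    rcases List.mem_cons.1 h with h | h
    · obtain ⟨rfl, rfl⟩ := Prod.mk.inj h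
      refine ⟨L.length, by simp, ?_, ?_⟩
      · simp [lat]
      · simp [toPs, pcol]
    · obtain ⟨i, hi, h1, h2⟩ := ih h
      refine ⟨i, by simp only [List.length_cons]; omega, ?_, ?_⟩
      · simp only [List.map_cons, lat, List.length_map]
        rw [if_neg (by omega)]
        exact h1
      · simp only [toPs, pcol, toPs_length]
        rw [if_neg (by omega)]
        exact h2

theorem subset_cols {L : List (SE × Finset ℕ)} {y : SE} {C : Finset ℕ} (h : (y, C) ∈ L) :
    C ⊆ cols (toPs L) := by
  obtain ⟨i, hi, _, h2⟩ := mem_index h
  intro c hc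
  exact mem_cols.2 ⟨i, by rwa [toPs_length], by rwa [h2]⟩

/-- A move in the game with labels. -/
theorem lstep {m : ℕ} {Q : Ps → Prop} {L : List (SE × Finset ℕ)} (x : SE)
    (hv : SV (x :: L.map Prod.fst))
    (h : ∀ A : Finset ℕ, A.card = m →
      (∀ y C, (y, C) ∈ L → ¬ y.r x → ¬ x.r y → Disjoint A C) →
      Force 2 m Q (toPs ((x, A) :: L))) : Force 2 m Q (toPs L) := by
  have hg : Good 2 (toPs ((x, ∅) :: L)) := good_toPs hv
  refine Force.step _ _ _ hg ?_
  intro A hA hl
  refine h A hA ?_
  intro y C hy h1 h2
  obtain ⟨i, hi, hi1, hi2⟩ := mem_index hy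
  have := hl i (by rwa [toPs_length]) (by
    rw [Finset.mem_filter, hi1]
    exact fun h => h1 h.2) (by
    rw [Finset.mem_filter, hi1]
    exact fun h => h2 h.2)
  rwa [hi2] at this

/-- The incomparable elements with intervals are those which touch. -/
theorem SV.touch {l : List SE} (h : SV l) {a b c d : ℕ} (h1 : SE.s a b ∈ l) (h2 : SE.s c d ∈ l)
    (ht : b = c) : ¬ (SE.s a b).r (SE.s c d) ∧ ¬ (SE.s c d).r (SE.s a b) := by
  have e1 := h.lt a b h1
  have e2 := h.lt c d h2
  simp only [SE.r]
  omega

end Pool.Agent.Helper3.DW
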