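import Pool.Agent.Helper3.DW.Core

/-!
A winning strategy against finitely many colours is a finite table.
-/

set_option autoImplicit false

namespace Pool.Agent.Helper3.DW

/-- The position after the history `h` of colours (the newest first), played from `P`. -/
def posOf (P : Ps) (σ : List ℕ → Finset ℕ × Finset ℕ) : List ℕ → Ps
  | [] => P
  | c :: h => ⟨(σ h).1, (σ h).2, {c}⟩ :: posOf P σ h

/-- The histories which respect the rules, with colours `< K`. -/
inductive Rch (K : ℕ) (P : Ps) (σ : List ℕ → Finset ℕ × Finset ℕ) : List ℕ → Prop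
  | nil : Rch K P σ []
  | cons {h : List ℕ} {c : ℕ} (hh : Rch K P σ h) (hc : c < K)
      (hl : ∀ i < (posOf P σ h).length, i ∉ (σ h).1 → i ∉ (σ h).2 →
        c ∉ pcol (posOf P σ h) i) : Rch K P σ (c :: h)

theorem posOf_length (P : Ps) (σ : List ℕ → Finset ℕ × Finset ℕ) (h : List ℕ) :
    (posOf P σ h).length = P.length + h.length := by
  induction h with
  | nil => rfl
  | cons c h ih => simp only [posOf, List.length_cons, ih]; omega

/-- The strategy composed of a first move and strategies for the answers. -/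
def joinS (D U : Finset ℕ) (τ : ℕ → List ℕ → Finset ℕ × Finset ℕ) (h : List ℕ) :
    Finset ℕ × Finset ℕ :=
  match h.reverse with
  | [] => (D, U)
  | c :: t => τ c t.reverse

theorem joinS_nil (D U : Finset ℕ) (τ : ℕ → List ℕ → Finset ℕ × Finset ℕ) :
    joinS D U τ [] = (D, U) := rfl

theorem joinS_append (D U : Finset ℕ) (τ : ℕ → List ℕ → Finset ℕ × Finset ℕ) (h : List ℕ)
    (c : ℕ) : joinS D U τ (h ++ [c]) = τ c h := by
  simp [joinS]

theorem posOf_join (P : Ps) (D U : Finset ℕ) (τ : ℕ → List ℕ → Finset ℕ × Finset ℕ)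
    (h : List ℕ) (c : ℕ) : posOf P (joinS D U τ) (h ++ [c]) =
      posOf (⟨D, U, {c}⟩ :: P) (τ c) h := by
  induction h with
  | nil => simp [posOf, joinS_nil]
  | cons d h ih =>
    rw [List.cons_append]
    simp only [posOf, ih, joinS_append]

theorem rch_join {K : ℕ} {P : Ps} {D U : Finset ℕ} {τ : ℕ → List ℕ → Finset ℕ × Finset ℕ}
    (h : List ℕ) (c : ℕ) (hr : Rch K P (joinS D U τ) (h ++ [c])) :
    (c < K ∧ ∀ i < P.length, i ∉ D → i ∉ U → c ∉ pcol P i) ∧
      Rch K (⟨D, U, {c}⟩ :: P) (τ c) h := by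
  induction h with
  | nil =>
    rw [List.nil_append] at hr
    cases hr with
    | cons _ hc hl => exact ⟨⟨hc, hl⟩, Rch.nil⟩
  | cons d h ih =>
    rw [List.cons_append] at hr
    cases hr with
    | cons hh hc hl =>
      obtain ⟨h1, h2⟩ := ih hh
      refine ⟨h1, Rch.cons h2 hc ?_⟩
      rw [posOf_join, joinS_append] at hl
      exact hl

theorem rch_single {K : ℕ} {P : Ps} {D U : Finset ℕ} {τ : ℕ → List ℕ → Finset ℕ × Finset ℕ}
    {h : List ℕ} (hne : h ≠ []) (hr : Rch K P (joinS D U τ) h) :
    ∃ h' c, h = h' ++ [c] ∧ (c < K ∧ ∀ i < P.length, i ∉ D → i ∉ U → c ∉ pcol P i) ∧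
      Rch K (⟨D, U, {c}⟩ :: P) (τ c) h' := by
  have e := List.dropLast_append_getLast hne
  have h1 : Rch K P (joinS D U τ) (h.dropLast ++ [h.getLast hne]) := by rw [e]; exact hr
  exact ⟨_, _, e.symm, rch_join _ _ h1⟩

theorem strat {w K : ℕ} {P : Ps}
    (h : Force w 1 (fun P => K + 1 ≤ (cols P).card) P) :
    cols P ⊆ Finset.range K → ∃ (σ : List ℕ → Finset ℕ × Finset ℕ) (B : ℕ),
      (∀ h, Rch K P σ h → Good w (⟨(σ h).1, (σ h).2, ∅⟩ :: posOf P σ h)) ∧
      (∀ h, Rch K P σ h → h.length ≤ B) := by
  induction h with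
  | here P h =>
    intro hP
    exfalso
    have := Finset.card_le_card hP
    rw [Finset.card_range] at this
    have h' : K + 1 ≤ (cols P).card := h
    omega
  | step P D U hg _ ih =>
    intro hP
    have key : ∀ c : ℕ, ∃ (σ : List ℕ → Finset ℕ × Finset ℕ) (B : ℕ), c < K →
        (∀ i < P.length, i ∉ D → i ∉ U → c ∉ pcol P i) →
        (∀ h, Rch K (⟨D, U, {c}⟩ :: P) σ h →
          Good w (⟨(σ h).1, (σ h).2, ∅⟩ :: posOf (⟨D, U, {c}⟩ :: P) σ h)) ∧
        (∀ h, Rch K (⟨D, U, {c}⟩ :: P) σ h → h.length ≤ B) := by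
      intro c
      by_cases h1 : c < K
      · by_cases h2 : ∀ i < P.length, i ∉ D → i ∉ U → c ∉ pcol P i
        · obtain ⟨σ, B, h3, h4⟩ := ih {c} (Finset.card_singleton c) (by
            intro i hi hd hu
            rw [Finset.disjoint_singleton_left]
            exact h2 i hi hd hu) (by
            intro x hx
            obtain ⟨i, hi, hx'⟩ := mem_cols.1 hx
            by_cases h : i = P.length
            · subst h
              rw [pcol_new] at hx'
              rw [Finset.mem_singleton] at hx'
              rw [hx']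
              exact Finset.mem_range.2 h1
            · simp only [List.length_cons] at hi
              rw [pcol_old (by omega)] at hx'
              exact hP (mem_cols.2 ⟨i, by omega, hx'⟩))
          exact ⟨σ, B, fun _ _ => ⟨h3, h4⟩⟩
        · exact ⟨fun _ => (∅, ∅), 0, fun _ h => absurd h h2⟩
      · exact ⟨fun _ => (∅, ∅), 0, fun h => absurd h h1⟩
    choose τ B hτ using key
    refine ⟨joinS D U τ, (Finset.range K).sup B + 1, ?_, ?_⟩
    · intro h hr
      by_cases hne : h = []
      · subst hne
        exact hg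
      · obtain ⟨h', c, rfl, ⟨h1, h2⟩, h3⟩ := rch_single hne hr
        rw [posOf_join, joinS_append]
        exact (hτ c h1 h2).1 h' h3
    · intro h hr
      by_cases hne : h = []
      · subst hne
        simp
      · obtain ⟨h', c, rfl, ⟨h1, h2⟩, h3⟩ := rch_single hne hr
        have h4 := (hτ c h1 h2).2 h' h3
        have h5 : B c ≤ (Finset.range K).sup B := Finset.le_sup (Finset.mem_range.2 h1)
        simp only [List.length_append, List.length_singleton]
        omega

theorem rch_lt {K : ℕ} {P : Ps} {σ : List ℕ → Finset ℕ × Finset ℕ} {h : List ℕ}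
    (hr : Rch K P σ h) : ∀ c ∈ h, c < K := by
  induction hr with
  | nil => simp
  | cons _ hc _ ih =>
    intro c hc'
    rcases List.mem_cons.1 hc' with rfl | h
    · exact hc
    · exact ih c h

/-- There are finitely many histories. -/
theorem rch_finite {K : ℕ} {P : Ps} {σ : List ℕ → Finset ℕ × Finset ℕ} {B : ℕ}
    (hB : ∀ h, Rch K P σ h → h.length ≤ B) : {h | Rch K P σ h}.Finite := by
  have h1 : ({l : List (Fin K) | l.length ≤ B}).Finite := List.finite_length_le (Fin K) B
  refine (h1.image (fun l => l.map (fun x : Fin K => (x : ℕ)))).subset ?_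
  intro h hr
  have h2 := rch_lt hr
  refine ⟨h.attach.map (fun x => ⟨x.1, h2 x.1 x.2⟩), ?_, ?_⟩
  · simp only [Set.mem_ofPred_eq, List.length_map, List.length_attach]
    exact hB h hr
  · simp only [List.map_map, Function.comp_def]
    exact List.attach_map_subtype_val h

end Pool.Agent.Helper3.DW
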