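import Pool.Agent.Helper3.DW.Core

/-!
Upper chains with many colours: in width `w` the adversary can force disjoint upper chains with
`m, 2 m, …, w m` colours.
-/

set_option autoImplicit false

namespace Pool.Agent.Helper3.DW

theorem sh_empty (n : ℕ) : sh n ∅ = ∅ := by simp [sh]

/-- One point is put in a hole. -/
theorem Force.put {w m : ℕ} {P : Ps} {D U : Finset ℕ} (hP : Inv w m P)
    (hh : IsHole w 1 P D U) :
    Force w m (fun P' => Inv w m P' ∧ ∃ A : Finset ℕ, A.card = m ∧ P' = ⟨D, U, A⟩ :: P) P := by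
  have h1 : Good 1 [⟨∅, ∅, ∅⟩] := by
    refine ⟨?_, ?_, ?_, ?_⟩
    · intro i j h
      simp [plt] at h
    · intro i h
      simp [plt] at h
    · intro i j k h
      simp [plt] at h
    · intro s hs _
      have : s ⊆ {0} := by
        intro i hi
        have := hs i hi
        simp only [List.length_cons, List.length_nil] at this
        rw [Finset.mem_singleton]
        omega
      exact (Finset.card_le_card this).trans (by simp)
  have h2 : Good w (⟨D, U, ∅⟩ :: P) := by
    have := good_glue hP.good hh h1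
    rw [glue_cons, glue_nil] at this
    simpa [sh_empty] using this
  refine Force.step P D U h2 fun A hA hl => ?_
  exact Force.here _ ⟨hP.step h2 hA hl, A, hA, rfl⟩

theorem colU_sh_glue (P : Ps) (D U : Finset ℕ) (R : Ps) (Y : Finset ℕ) :
    colU (glue P D U R) (sh P.length Y) = colU R Y := by
  ext c
  simp only [mem_colU]
  constructor
  · rintro ⟨i, hi, hc⟩
    obtain ⟨j, hj, rfl⟩ := mem_sh.1 hi
    rw [pcol_glue_new] at hc
    exact ⟨j, hj, hc⟩
  · rintro ⟨j, hj, hc⟩
    exact ⟨P.length + j, add_mem_sh.2 hj, by rwa [pcol_glue_new]⟩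

theorem fam_glue_new {w : ℕ} {P : Ps} {D : Finset ℕ} {R : Ps} {Y : Finset ℕ} {x : ℕ}
    (hP : Good w P) (hD : ∀ d ∈ D, d < P.length) (h : Fam R Y x) :
    Fam (glue P D ∅ R) (sh P.length Y) x where
  len y hy := by
    obtain ⟨j, hj, rfl⟩ := mem_sh.1 hy
    have := h.len j hj
    rw [glue_length]
    omega
  chain y hy z hz hyz := by
    obtain ⟨j, hj, rfl⟩ := mem_sh.1 hy
    obtain ⟨k, hk, rfl⟩ := mem_sh.1 hz
    rcases h.chain j hj k hk (by omega) with h1 | h1
    · exact Or.inl ((plt_glue _ _ _ _ _ _).2 (Or.inr (Or.inl ⟨j, k, rfl, rfl, h1⟩)))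
    · exact Or.inr ((plt_glue _ _ _ _ _ _).2 (Or.inr (Or.inl ⟨k, j, rfl, rfl, h1⟩)))
  up y hy z hyz := by
    obtain ⟨j, hj, rfl⟩ := mem_sh.1 hy
    rcases (plt_glue _ _ _ _ _ _).1 hyz with h1 | ⟨a, b, h1, h2, h3⟩ | ⟨h1, b, h2, h3⟩ |
      ⟨h1, a, h2, h3⟩
    · have := (hP.lt_len _ _ h1).1; omega
    · have : a = j := by omega
      subst this
      rw [h2]
      exact add_mem_sh.2 (h.up a hj b h3)
    · have := hD _ h1; omega
    · simp at h1
  size := by rw [colU_sh_glue]; exact h.size

theorem fam_glue_old {P : Ps} {D : Finset ℕ} {R : Ps} {Z : Finset ℕ} {x : ℕ}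
    (hD : ∀ z ∈ Z, z ∉ D) (h : Fam P Z x) : Fam (glue P D ∅ R) Z x where
  len y hy := by
    have := h.len y hy
    rw [glue_length]
    omega
  chain y hy z hz hyz := by
    have hs := suffix_glue P D ∅ R
    rw [plt_suffix hs (h.len y hy) (h.len z hz), plt_suffix hs (h.len z hz) (h.len y hy)]
    exact h.chain y hy z hz hyz
  up y hy z hyz := by
    rcases (plt_glue _ _ _ _ _ _).1 hyz with h1 | ⟨a, b, h1, h2, h3⟩ | ⟨h1, b, h2, h3⟩ |
      ⟨h1, a, h2, h3⟩
    · exact h.up y hy z h1
    · have := h.len y hy; omega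
    · exact absurd h1 (hD y hy)
    · simp at h1
  size := by rw [colU_suffix (suffix_glue P D ∅ R) h.len]; exact h.size

theorem fam_insert {w : ℕ} {P : Ps} {D A Z : Finset ℕ} {x k : ℕ} (hP : Good w P)
    (hD : ∀ d ∈ D, d < P.length) (hZ : Z ⊆ D) (h : Fam P Z x)
    (hk : k ≤ (A \ colU P Z).card) : Fam (⟨D, ∅, A⟩ :: P) (insert P.length Z) (x + k) where
  len y hy := by
    simp only [List.length_cons]
    rcases Finset.mem_insert.1 hy with rfl | hy
    · omega
    · have := h.len y hy; omega
  chain y hy z hz hyz := by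
    rcases Finset.mem_insert.1 hy with rfl | hy
    · rcases Finset.mem_insert.1 hz with rfl | hz
      · exact absurd rfl hyz
      · exact Or.inr (Or.inr (Or.inl ⟨rfl, hZ hz⟩))
    · rcases Finset.mem_insert.1 hz with rfl | hz
      · exact Or.inl (Or.inr (Or.inl ⟨rfl, hZ hy⟩))
      · rcases h.chain y hy z hz hyz with h1 | h1
        · exact Or.inl (Or.inl h1)
        · exact Or.inr (Or.inl h1)
  up y hy z hyz := by
    rcases Finset.mem_insert.1 hy with rfl | hy
    · rcases hyz with h1 | ⟨h1, h2⟩ | ⟨_, h2⟩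
      · have := (hP.lt_len _ _ h1).1; omega
      · have := hD _ h2; omega
      · simp at h2
    · rcases hyz with h1 | ⟨h1, _⟩ | ⟨h1, _⟩
      · exact Finset.mem_insert_of_mem (h.up y hy z h1)
      · rw [h1]; exact Finset.mem_insert_self _ _
      · have := h.len y hy; omega
  size := by
    have e : colU (⟨D, ∅, A⟩ :: P) (insert P.length Z) = colU P Z ∪ (A \ colU P Z) := by
      rw [Finset.union_sdiff_self_eq_union]
      ext c
      rw [mem_colU, Finset.mem_union, mem_colU]
      constructor
      · rintro ⟨i, hi, hc⟩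
        rcases Finset.mem_insert.1 hi with rfl | hi
        · rw [pcol_new] at hc
          exact Or.inr hc
        · rw [pcol_old (h.len i hi)] at hc
          exact Or.inl ⟨i, hi, hc⟩
      · rintro (⟨i, hi, hc⟩ | hc)
        · exact ⟨i, Finset.mem_insert_of_mem hi, by rwa [pcol_old (h.len i hi)]⟩
        · exact ⟨P.length, Finset.mem_insert_self _ _, by rwa [pcol_new]⟩
    rw [e, Finset.card_union_of_disjoint Finset.disjoint_sdiff]
    have := h.size
    omega

/-- Two disjoint upsets have disjoint sets of colours. -/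
theorem fam_disj {w m : ℕ} {P : Ps} (hP : Inv w m P) {Y Z : Finset ℕ} {x y : ℕ}
    (hY : Fam P Y x) (hZ : Fam P Z y) (h : Disjoint Y Z) : Disjoint (colU P Y) (colU P Z) := by
  refine hP.disj_colU hY.len hZ.len fun i hi j hj => ⟨?_, ?_, ?_⟩
  · rintro rfl
    exact Finset.disjoint_left.1 h hi hj
  · intro hlt
    exact Finset.disjoint_left.1 h (hY.up i hi j hlt) hj
  · intro hlt
    exact Finset.disjoint_left.1 h hi (hZ.up j hj i hlt)

/-- The state of the strategy. -/
def UGst (w m x : ℕ) (P : Ps) : Prop :=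
  ∃ (Y : ℕ → Finset ℕ) (Z : Finset ℕ), (∀ i < w, Fam P (Y i) ((i + 1) * m)) ∧
    (∀ i < w, ∀ j < w, i ≠ j → Disjoint (Y i) (Y j)) ∧ Fam P Z x ∧ ∀ i < w, Disjoint (Y i) Z

theorem ug_rebuild {w m x : ℕ} (ih : Force w m (UGQ w m) []) {P : Ps} (hP : Inv (w + 1) m P)
    {Z : Finset ℕ} (hZ : Fam P Z x) :
    Force (w + 1) m (fun P' => Inv (w + 1) m P' ∧ UGst w m x P') P := by
  classical
  set D := (Finset.range P.length) \ Z with hD
  have mD : ∀ i, i ∈ D ↔ i < P.length ∧ i ∉ Z := fun i => by
    rw [hD, Finset.mem_sdiff, Finset.mem_range]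
  have hh : IsHole (w + 1) w P D ∅ := by
    refine ⟨fun d hd => ((mD d).1 hd).1, fun u hu => by simp at hu, ?_, ?_, ?_, ?_⟩
    · intro a d had hd
      refine (mD a).2 ⟨(hP.good.lt_len _ _ had).1, fun ha => ((mD d).1 hd).2 ?_⟩
      exact hZ.up a ha d had
    · intro u b _ hu
      simp at hu
    · intro d _ u hu
      simp at hu
    · intro s hs ha
      have : s.card ≤ 1 := by
        rw [Finset.card_le_one]
        intro i hi j hj
        by_contra hij
        have e : ∀ k ∈ s, k ∈ Z := by
          intro k hk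
          obtain ⟨l, hd, _⟩ := hs k hk
          by_contra hz
          exact hd ((mD k).2 ⟨l, hz⟩)
        rcases hZ.chain i (e i hi) j (e j hj) hij with h | h
        · exact ha i hi j hj h
        · exact ha j hj i hi h
      omega
  refine (Force.hole0 hP hh ih).imp ?_
  rintro P' ⟨hI, R, ⟨Y, hY1, hY2⟩, _, rfl⟩
  refine ⟨hI, fun i => sh P.length (Y i), Z, ?_, ?_, ?_, ?_⟩
  · intro i hi
    exact fam_glue_new hP.good hh.dlen (hY1 i hi)
  · intro i hi j hj hij
    rw [Finset.disjoint_left]
    intro c hc hc'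
    obtain ⟨a, ha, rfl⟩ := mem_sh.1 hc
    exact Finset.disjoint_left.1 (hY2 i hi j hj hij) ha (add_mem_sh.1 hc')
  · exact fam_glue_old (fun z hz hd => ((mD z).1 hd).2 hz) hZ
  · intro i _
    rw [Finset.disjoint_left]
    intro c hc hc'
    have h1 := le_of_mem_sh hc
    have h2 := hZ.len c hc'
    omega

theorem ug_grow {w m x : ℕ} (hx : m ≤ x) (hx' : x < (w + 1) * m) {P : Ps}
    (hP : Inv (w + 1) m P) (hS : UGst w m x P) :
    Force (w + 1) m (fun P' => Inv (w + 1) m P' ∧ ∃ Z, Fam P' Z (x + 1)) P := by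
  classical
  obtain ⟨Y, Z, hY1, hY2, hZ, hYZ⟩ := hS
  have hm : 0 < m := by
    rcases Nat.eq_zero_or_pos m with h | h
    · rw [h] at hx'; simp at hx'
    · exact h
  have i1 : 1 ≤ x / m := (Nat.one_le_div_iff hm).2 hx
  have i2 : x / m ≤ w := by
    have : x / m < w + 1 := (Nat.div_lt_iff_lt_mul hm).2 hx'
    omega
  have i3 : x < (x / m + 1) * m := by
    have h1 := Nat.div_add_mod x m
    have h2 := Nat.mod_lt x hm
    have h3 : m * (x / m) = x / m * m := Nat.mul_comm _ _
    have h4 : (x / m + 1) * m = x / m * m + m := by ring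
    omega
  obtain ⟨q, hq⟩ : ∃ q, x / m = q + 1 := ⟨x / m - 1, by omega⟩
  rw [hq] at i1 i2 i3
  have hqw : q < w := by omega
  set I := ((Finset.range w).erase q).biUnion Y with hI
  have mI : ∀ i, i ∈ I ↔ ∃ j < w, j ≠ q ∧ i ∈ Y j := fun i => by
    rw [hI, Finset.mem_biUnion]
    constructor
    · rintro ⟨j, hj, h⟩
      obtain ⟨h1, h2⟩ := Finset.mem_erase.1 hj
      exact ⟨j, Finset.mem_range.1 h2, h1, h⟩
    · rintro ⟨j, h1, h2, h3⟩
      exact ⟨j, Finset.mem_erase.2 ⟨h2, Finset.mem_range.2 h1⟩, h3⟩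
  set D := (Finset.range P.length) \ I with hD
  have mD : ∀ i, i ∈ D ↔ i < P.length ∧ i ∉ I := fun i => by
    rw [hD, Finset.mem_sdiff, Finset.mem_range]
  have hh : IsHole (w + 1) 1 P D ∅ := by
    refine ⟨fun d hd => ((mD d).1 hd).1, fun u hu => by simp at hu, ?_, ?_, ?_, ?_⟩
    · intro a d had hd
      refine (mD a).2 ⟨(hP.good.lt_len _ _ had).1, fun ha => ((mD d).1 hd).2 ?_⟩
      obtain ⟨j, h1, h2, h3⟩ := (mI a).1 ha
      exact (mI d).2 ⟨j, h1, h2, (hY1 j h1).up a h3 d had⟩
    · intro u b _ hu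
      simp at hu
    · intro d _ u hu
      simp at hu
    · intro s hs ha
      have e : ∀ k ∈ s, ∃ j < w, k ∈ Y j := by
        intro k hk
        obtain ⟨l, hd, _⟩ := hs k hk
        by_contra hn
        refine hd ((mD k).2 ⟨l, fun hk' => ?_⟩)
        obtain ⟨j, h1, _, h3⟩ := (mI k).1 hk'
        exact hn ⟨j, h1, h3⟩
      have : s.card ≤ (Finset.range w).card := by
        refine Finset.card_le_card_of_forall_subsingleton (fun k j => k ∈ Y j) ?_ ?_
        · intro k hk
          obtain ⟨j, h1, h2⟩ := e k hk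
          exact ⟨j, Finset.mem_range.2 h1, h2⟩
        · intro j hj a ha' b hb'
          by_contra hab
          rcases (hY1 j (Finset.mem_range.1 hj)).chain a ha'.2 b hb'.2 hab with h | h
          · exact ha a ha'.1 b hb'.1 h
          · exact ha b hb'.1 a ha'.1 h
      rw [Finset.card_range] at this
      omega
  refine (Force.put hP hh).imp ?_
  rintro P' ⟨hI', A, hA, rfl⟩
  refine ⟨hI', ?_⟩
  by_cases hc : A ⊆ colU P Z
  · refine ⟨insert P.length (Y q), ?_⟩
    have hqD : Y q ⊆ D := by
      intro i hi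
      refine (mD i).2 ⟨(hY1 q hqw).len i hi, fun h => ?_⟩
      obtain ⟨j, h1, h2, h3⟩ := (mI i).1 h
      exact Finset.disjoint_left.1 (hY2 j h1 q hqw h2) h3 hi
    have hdis : Disjoint A (colU P (Y q)) :=
      Disjoint.mono_left hc (fam_disj hP (hY1 q hqw) hZ (hYZ q hqw)).symm
    have h1 := fam_insert hP.good hh.dlen hqD (hY1 q hqw) (k := m) (A := A) (by
      rw [Finset.sdiff_eq_self_of_disjoint hdis, hA])
    refine ⟨h1.len, h1.chain, h1.up, ?_⟩
    have h2 := h1.size
    have h3 : (q + 1 + 1) * m = (q + 1) * m + m := by ring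
    omega
  · refine ⟨insert P.length Z, ?_⟩
    have hZD : Z ⊆ D := by
      intro i hi
      refine (mD i).2 ⟨hZ.len i hi, fun h => ?_⟩
      obtain ⟨j, h1, h2, h3⟩ := (mI i).1 h
      exact Finset.disjoint_left.1 (hYZ j h1) h3 hi
    refine fam_insert hP.good hh.dlen hZD hZ ?_
    rw [Nat.succ_le_iff, Finset.card_pos]
    rw [Finset.nonempty_iff_ne_empty]
    intro he
    exact hc (Finset.sdiff_eq_empty_iff_subset.1 he)

/-- The strategy for upper chains. -/
theorem ug (m : ℕ) : ∀ w : ℕ, Force w m (UGQ w m) [] := by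
  intro w
  induction w with
  | zero =>
    refine Force.here _ ⟨fun _ => ∅, fun i hi => by omega, fun i hi => by omega⟩
  | succ w ih =>
    have hstart : Force (w + 1) m (fun P => Inv (w + 1) m P ∧ UGst w m m P) [] := by
      have hh : IsHole (w + 1) 1 [] ∅ ∅ := by
        refine ⟨fun d hd => by simp at hd, fun d hd => by simp at hd, ?_, ?_, ?_, ?_⟩
        · intro a d _ hd; simp at hd
        · intro a d _ hd; simp at hd
        · intro a hd; simp at hd
        · intro s hs _
          have : s = ∅ := Finset.eq_empty_of_forall_notMem fun i hi => by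
            have := (hs i hi).1
            simp at this
          simp [this]
      refine (Force.put (inv_nil (w + 1) m) hh).bind ?_
      rintro P ⟨hI, A, hA, rfl⟩
      refine ug_rebuild ih hI (Z := {0}) ?_
      refine ⟨?_, ?_, ?_, ?_⟩
      · intro y hy
        rw [Finset.mem_singleton] at hy
        simp [hy]
      · intro y hy z hz hyz
        rw [Finset.mem_singleton] at hy hz
        exact absurd (hy.trans hz.symm) hyz
      · intro y _ z hyz
        simp [plt] at hyz
      · have : colU [⟨∅, ∅, A⟩] {0} = A := by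
          simp [colU, pcol]
        rw [this, hA]
    have hloop : ∀ n, n ≤ w * m →
        Force (w + 1) m (fun P => Inv (w + 1) m P ∧ UGst w m (m + n) P) [] := by
      intro n
      induction n with
      | zero => intro _; exact hstart
      | succ n ihn =>
        intro hn
        refine (ihn (by omega)).bind ?_
        rintro P ⟨hI, hS⟩
        refine (ug_grow (by omega) ?_ hI hS).bind ?_
        · have : (w + 1) * m = w * m + m := by ring
          omega
        · rintro P' ⟨hI', Z, hZ⟩
          exact ug_rebuild ih hI' hZ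
    refine (hloop (w * m) le_rfl).imp ?_
    rintro P ⟨_, Y, Z, hY1, hY2, hZ, hYZ⟩
    refine ⟨fun i => if i = w then Z else Y i, ?_, ?_⟩
    · intro i hi
      by_cases h : i = w
      · subst h
        simp only [if_true]
        have : m + i * m = (i + 1) * m := by ring
        rwa [this] at hZ
      · simp only [if_neg h]
        exact hY1 i (by omega)
    · intro i hi j hj hij
      by_cases h : i = w
      · subst h
        simp only [if_true, if_neg (Ne.symm hij)]
        exact (hYZ j (by omega)).symm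
      · simp only [if_neg h]
        by_cases h' : j = w
        · subst h'
          simp only [if_true]
          exact hYZ i (by omega)
        · simp only [if_neg h']
          exact hY2 i (by omega) j (by omega) hij

end Pool.Agent.Helper3.DW
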